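import Pool.Agent.Lib_helper49.Mac.Defs2

/-!
# Block ma01: compression in the direction `i - x`
-/

set_option linter.unusedSectionVars false

namespace Pool.Agent.Lib_helper49.Mac

section ma01

variable {σ : Type*} [Fintype σ] [DecidableEq σ]

/-- the line of a point -/
def ma01_key (i x : σ) (b : σ → ℕ) : σ → ℕ :=
  Function.update (Function.update b x 0) i (b i + b x)

/-- the point of a line at a position -/
def ma01_pt (i x : σ) (c : σ → ℕ) (p : ℕ) : σ → ℕ :=
  Function.update (Function.update c x p) i (c i - p)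

theorem ma01_key_i (i x : σ) (b : σ → ℕ) : ma01_key i x b i = b i + b x := by
  unfold ma01_key
  rw [Function.update_self]

theorem ma01_key_x {i x : σ} (h : i ≠ x) (b : σ → ℕ) : ma01_key i x b x = 0 := by
  unfold ma01_key
  rw [Function.update_of_ne h.symm, Function.update_self]

theorem ma01_key_o {i x l : σ} (h1 : l ≠ i) (h2 : l ≠ x) (b : σ → ℕ) :
    ma01_key i x b l = b l := by
  unfold ma01_key
  rw [Function.update_of_ne h1, Function.update_of_ne h2]

theorem ma01_pt_i (i x : σ) (c : σ → ℕ) (p : ℕ) : ma01_pt i x c p i = c i - p := by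
  unfold ma01_pt
  rw [Function.update_self]

theorem ma01_pt_x {i x : σ} (h : i ≠ x) (c : σ → ℕ) (p : ℕ) : ma01_pt i x c p x = p := by
  unfold ma01_pt
  rw [Function.update_of_ne h.symm, Function.update_self]

theorem ma01_pt_o {i x l : σ} (h1 : l ≠ i) (h2 : l ≠ x) (c : σ → ℕ) (p : ℕ) :
    ma01_pt i x c p l = c l := by
  unfold ma01_pt
  rw [Function.update_of_ne h1, Function.update_of_ne h2]

theorem ma01_ext {i x : σ} {b b' : σ → ℕ} (hi : b i = b' i) (hx : b x = b' x)
    (h : ∀ l, l ≠ i → l ≠ x → b l = b' l) : b = b' := by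
  funext l
  by_cases h1 : l = i
  · rw [h1]; exact hi
  · by_cases h2 : l = x
    · rw [h2]; exact hx
    · exact h l h1 h2

theorem ma01_pt_key {i x : σ} (h : i ≠ x) (b : σ → ℕ) :
    ma01_pt i x (ma01_key i x b) (b x) = b := by
  refine ma01_ext (i := i) (x := x) ?_ ?_ ?_
  · rw [ma01_pt_i, ma01_key_i]; omega
  · rw [ma01_pt_x h]
  · intro l h1 h2
    rw [ma01_pt_o h1 h2, ma01_key_o h1 h2]

theorem ma01_key_pt {i x : σ} (h : i ≠ x) {c : σ → ℕ} (hc : c x = 0) {p : ℕ} (hp : p ≤ c i) :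
    ma01_key i x (ma01_pt i x c p) = c := by
  refine ma01_ext (i := i) (x := x) ?_ ?_ ?_
  · rw [ma01_key_i, ma01_pt_i, ma01_pt_x h]; omega
  · rw [ma01_key_x h, hc]
  · intro l h1 h2
    rw [ma01_key_o h1 h2, ma01_pt_o h1 h2]

theorem ma01_inj {i x : σ} (h : i ≠ x) {b b' : σ → ℕ}
    (hk : ma01_key i x b = ma01_key i x b') (hx : b x = b' x) : b = b' := by
  rw [← ma01_pt_key h b, ← ma01_pt_key h b', hk, hx]

/-- the fibre -/
def ma01_fib (i x : σ) (B : Finset (σ → ℕ)) (c : σ → ℕ) : Finset (σ → ℕ) :=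
  B.filter fun b => ma01_key i x b = c

theorem ma01_mem_fib {i x : σ} {B : Finset (σ → ℕ)} {c b : σ → ℕ} :
    b ∈ ma01_fib i x B c ↔ b ∈ B ∧ ma01_key i x b = c := by
  unfold ma01_fib
  rw [Finset.mem_filter]

theorem ma01_injOn {i x : σ} (h : i ≠ x) (B : Finset (σ → ℕ)) (c : σ → ℕ) :
    Set.InjOn (fun b : σ → ℕ => b x) (ma01_fib i x B c) := by
  intro b hb b' hb' hx
  have h1 := (ma01_mem_fib.1 hb).2
  have h2 := (ma01_mem_fib.1 hb').2
  exact ma01_inj h (h1.trans h2.symm) hx

/-- the positions -/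
def ma01_pos (i x : σ) (B : Finset (σ → ℕ)) (c : σ → ℕ) : Finset ℕ :=
  (ma01_fib i x B c).image fun b => b x

theorem ma01_card_pos {i x : σ} (h : i ≠ x) (B : Finset (σ → ℕ)) (c : σ → ℕ) :
    (ma01_pos i x B c).card = (ma01_fib i x B c).card :=
  Finset.card_image_of_injOn (ma01_injOn h B c)

theorem ma01_card_le {i x : σ} (h : i ≠ x) (B : Finset (σ → ℕ)) (c : σ → ℕ) :
    (ma01_fib i x B c).card ≤ c i + 1 := by
  rw [← ma01_card_pos h, ← Finset.card_range (c i + 1)]
  refine Finset.card_le_card fun p hp => ?_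
  unfold ma01_pos at hp
  rw [Finset.mem_image] at hp
  obtain ⟨b, hb, rfl⟩ := hp
  have h1 := (ma01_mem_fib.1 hb).2
  rw [Finset.mem_range, ← h1, ma01_key_i]
  omega

theorem ma01_sum_range (P : Finset ℕ) : ∑ p ∈ Finset.range P.card, p ≤ ∑ p ∈ P, p ∧
    (∑ p ∈ Finset.range P.card, p = ∑ p ∈ P, p → P = Finset.range P.card) := by
  induction P using Finset.induction_on_max with
  | empty => simp
  | insert a s ha ih =>
    have hna : a ∉ s := fun h => lt_irrefl a (ha a h)
    rw [Finset.card_insert_of_notMem hna, Finset.sum_range_succ, Finset.sum_insert hna]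
    have hsub : s ⊆ Finset.range a := fun y hy => Finset.mem_range.2 (ha y hy)
    have hcard : s.card ≤ a := by
      have := Finset.card_le_card hsub
      rwa [Finset.card_range] at this
    refine ⟨by linarith [ih.1], fun heq => ?_⟩
    have h1 : s.card = a := by
      have := ih.1
      omega
    have h2 : s = Finset.range s.card := ih.2 (by omega)
    rw [Finset.range_add_one, ← h2, h1]

/-- the compression -/
def ma01_comp (i x : σ) (B : Finset (σ → ℕ)) : Finset (σ → ℕ) :=
  (B.image (ma01_key i x)).biUnion fun c =>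
    (Finset.range (ma01_fib i x B c).card).image (ma01_pt i x c)

theorem ma01_mem_comp {i x : σ} (h : i ≠ x) {B : Finset (σ → ℕ)} {b : σ → ℕ} :
    b ∈ ma01_comp i x B ↔ b x < (ma01_fib i x B (ma01_key i x b)).card := by
  unfold ma01_comp
  rw [Finset.mem_biUnion]
  constructor
  · rintro ⟨c, hc, hb⟩
    rw [Finset.mem_image] at hc hb
    obtain ⟨b0, hb0, rfl⟩ := hc
    obtain ⟨p, hp, rfl⟩ := hb
    rw [Finset.mem_range] at hp
    have h1 := ma01_card_le h B (ma01_key i x b0)
    rw [ma01_key_pt h (ma01_key_x h b0) (by omega), ma01_pt_x h]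
    exact hp
  · intro hb
    have hne : (ma01_fib i x B (ma01_key i x b)).Nonempty := by
      rw [← Finset.card_pos]
      omega
    obtain ⟨b0, hb0⟩ := hne
    obtain ⟨hb1, hb2⟩ := ma01_mem_fib.1 hb0
    refine ⟨ma01_key i x b, Finset.mem_image.2 ⟨b0, hb1, hb2⟩, ?_⟩
    exact Finset.mem_image.2 ⟨b x, Finset.mem_range.2 hb, ma01_pt_key h b⟩

theorem ma01_disj {i x : σ} (h : i ≠ x) (B : Finset (σ → ℕ)) :
    (↑(B.image (ma01_key i x)) : Set (σ → ℕ)).PairwiseDisjoint fun c =>
      (Finset.range (ma01_fib i x B c).card).image (ma01_pt i x c) := by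
  intro c hc c' hc' hne
  rw [Function.onFun, Finset.disjoint_left]
  intro b hb hb'
  apply hne
  rw [Finset.mem_coe, Finset.mem_image] at hc hc'
  obtain ⟨b0, hb0, rfl⟩ := hc
  obtain ⟨b1, hb1, rfl⟩ := hc'
  rw [Finset.mem_image] at hb hb'
  obtain ⟨p, hp, rfl⟩ := hb
  obtain ⟨p', hp', heq⟩ := hb'
  rw [Finset.mem_range] at hp hp'
  have h1 := ma01_card_le h B (ma01_key i x b0)
  have h2 := ma01_card_le h B (ma01_key i x b1)
  have h3 := ma01_key_pt h (ma01_key_x h b0) (p := p) (by omega)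
  have h4 := ma01_key_pt h (ma01_key_x h b1) (p := p') (by omega)
  rw [← h3, ← h4, heq]

theorem ma01_pt_inj {i x : σ} (h : i ≠ x) (c : σ → ℕ) : Function.Injective (ma01_pt i x c) := by
  intro p p' hp
  have := congrFun hp x
  rwa [ma01_pt_x h, ma01_pt_x h] at this

theorem ma01_card {i x : σ} (h : i ≠ x) (B : Finset (σ → ℕ)) :
    (ma01_comp i x B).card = B.card := by
  unfold ma01_comp
  rw [Finset.card_biUnion (ma01_disj h B)]
  rw [Finset.card_eq_sum_card_image (ma01_key i x) B]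
  refine Finset.sum_congr rfl fun c _ => ?_
  rw [Finset.card_image_of_injective _ (ma01_pt_inj h c), Finset.card_range]
  rfl

theorem ma01_sum {i x : σ} (h : i ≠ x) (B : Finset (σ → ℕ)) :
    ∑ b ∈ ma01_comp i x B, b x =
      ∑ c ∈ B.image (ma01_key i x), ∑ p ∈ Finset.range (ma01_pos i x B c).card, p := by
  unfold ma01_comp
  rw [Finset.sum_biUnion (ma01_disj h B)]
  refine Finset.sum_congr rfl fun c _ => ?_
  rw [Finset.sum_image (fun p _ p' _ hp => ma01_pt_inj h c hp), ma01_card_pos h]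
  refine Finset.sum_congr rfl fun p _ => ?_
  rw [ma01_pt_x h]

theorem ma01_sum' {i x : σ} (h : i ≠ x) (B : Finset (σ → ℕ)) :
    ∑ b ∈ B, b x =
      ∑ c ∈ B.image (ma01_key i x), ∑ p ∈ ma01_pos i x B c, p := by
  rw [← Finset.sum_fiberwise_of_maps_to (g := ma01_key i x) (t := B.image (ma01_key i x))
    (fun b hb => Finset.mem_image_of_mem _ hb)]
  refine Finset.sum_congr rfl fun c _ => ?_
  unfold ma01_pos
  rw [Finset.sum_image (ma01_injOn h B c)]
  rfl

theorem ma01_key_add {i x l : σ} (h : i ≠ x) (hl : l ≠ x) (b : σ → ℕ) :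
    ma01_key i x (b + Pi.single l 1) = ma01_key i x b + Pi.single l 1 := by
  refine ma01_ext (i := i) (x := x) ?_ ?_ ?_
  · rw [ma01_key_i, Pi.add_apply, Pi.add_apply, Pi.add_apply, ma01_key_i,
      Pi.single_eq_of_ne hl.symm]
    omega
  · rw [ma01_key_x h, Pi.add_apply, ma01_key_x h, Pi.single_eq_of_ne hl.symm, add_zero]
  · intro m h1 h2
    rw [ma01_key_o h1 h2, Pi.add_apply, Pi.add_apply, ma01_key_o h1 h2]

theorem ma01_key_addx {i x : σ} (h : i ≠ x) (b : σ → ℕ) :
    ma01_key i x (b + Pi.single x 1) = ma01_key i x b + Pi.single i 1 := by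
  refine ma01_ext (i := i) (x := x) ?_ ?_ ?_
  · rw [ma01_key_i, Pi.add_apply, Pi.add_apply, Pi.add_apply, ma01_key_i,
      Pi.single_eq_of_ne h, Pi.single_eq_same, Pi.single_eq_same]
    omega
  · rw [ma01_key_x h, Pi.add_apply, ma01_key_x h, Pi.single_eq_of_ne h.symm, add_zero]
  · intro m h1 h2
    rw [ma01_key_o h1 h2, Pi.add_apply, Pi.add_apply, ma01_key_o h1 h2, Pi.single_eq_of_ne h1,
      Pi.single_eq_of_ne h2]

end ma01

section ma01b

variable {σ : Type*} [Fintype σ] [DecidableEq σ]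

theorem ma01_mem_up {X : Finset σ} {B : Finset (σ → ℕ)} {b : σ → ℕ} :
    b ∈ up X B ↔ ∃ l ∈ X, ∃ b0 ∈ B, b0 + Pi.single l 1 = b := by
  unfold up
  simp only [Finset.mem_biUnion, Finset.mem_image]

theorem ma01_add_inj (l : σ) :
    Function.Injective (fun b : σ → ℕ => b + Pi.single l 1) := by
  intro b b' hb
  exact add_right_cancel hb

theorem ma01_fib_up {i x : σ} (h : i ≠ x) {X : Finset σ} (hi : i ∈ X) (hx : x ∈ X)
    (B : Finset (σ → ℕ)) (c : σ → ℕ) :
    (ma01_fib i x (up X (ma01_comp i x B)) c).card ≤ (ma01_fib i x (up X B) c).card := by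
  rw [← ma01_card_pos h]
  set M := (ma01_fib i x (up X B) c).card with hM
  rw [← Finset.card_range M]
  refine Finset.card_le_card fun p hp => ?_
  unfold ma01_pos at hp
  rw [Finset.mem_image] at hp
  obtain ⟨b'', hb'', rfl⟩ := hp
  obtain ⟨hb1, hb2⟩ := ma01_mem_fib.1 hb''
  obtain ⟨l, hl, b, hb, rfl⟩ := ma01_mem_up.1 hb1
  rw [ma01_mem_comp h] at hb
  rw [Finset.mem_range]
  by_cases hlx : l = x
  · subst hlx
    rw [ma01_key_addx h] at hb2
    simp only [Pi.add_apply, Pi.single_eq_same]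
    have hne : (ma01_fib i l B (ma01_key i l b)).Nonempty := by
      rw [← Finset.card_pos]
      omega
    obtain ⟨bm, hbm, hmax⟩ := Finset.exists_max_image _ (fun b : σ → ℕ => b l) hne
    obtain ⟨hbm1, hbm2⟩ := ma01_mem_fib.1 hbm
    have hsub : insert (bm + Pi.single l 1)
        ((ma01_fib i l B (ma01_key i l b)).image fun b => b + Pi.single i 1) ⊆
        ma01_fib i l (up X B) c := by
      intro z hz
      rw [Finset.mem_insert, Finset.mem_image] at hz
      rw [ma01_mem_fib]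
      rcases hz with rfl | ⟨b1, hb1, rfl⟩
      · refine ⟨ma01_mem_up.2 ⟨l, hl, bm, hbm1, rfl⟩, ?_⟩
        rw [ma01_key_addx h, hbm2, hb2]
      · obtain ⟨hb3, hb4⟩ := ma01_mem_fib.1 hb1
        refine ⟨ma01_mem_up.2 ⟨i, hi, b1, hb3, rfl⟩, ?_⟩
        rw [ma01_key_add h h, hb4, hb2]
    have hnot : bm + Pi.single l 1 ∉
        (ma01_fib i l B (ma01_key i l b)).image fun b => b + Pi.single i 1 := by
      intro hz
      rw [Finset.mem_image] at hz
      obtain ⟨b1, hb1, heq⟩ := hz
      have h1 := congrFun heq l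
      simp only [Pi.add_apply, Pi.single_eq_same, Pi.single_eq_of_ne h.symm] at h1
      have h2 := hmax b1 hb1
      omega
    have h1 := Finset.card_le_card hsub
    rw [Finset.card_insert_of_notMem hnot,
      Finset.card_image_of_injective _ (ma01_add_inj i)] at h1
    omega
  · rw [ma01_key_add h hlx] at hb2
    have e1 : (b + Pi.single l 1 : σ → ℕ) x = b x := by
      rw [Pi.add_apply, Pi.single_eq_of_ne (Ne.symm hlx), add_zero]
    rw [e1]
    have hsub : ((ma01_fib i x B (ma01_key i x b)).image fun b => b + Pi.single l 1) ⊆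
        ma01_fib i x (up X B) c := by
      intro z hz
      rw [Finset.mem_image] at hz
      obtain ⟨b1, hb1, rfl⟩ := hz
      obtain ⟨hb3, hb4⟩ := ma01_mem_fib.1 hb1
      rw [ma01_mem_fib]
      refine ⟨ma01_mem_up.2 ⟨l, hl, b1, hb3, rfl⟩, ?_⟩
      rw [ma01_key_add h hlx, hb4, hb2]
    have h1 := Finset.card_le_card hsub
    rw [Finset.card_image_of_injective _ (ma01_add_inj l)] at h1
    omega

theorem ma01_card_fib {i x : σ} (B K : Finset (σ → ℕ)) (hK : B.image (ma01_key i x) ⊆ K) :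
    B.card = ∑ c ∈ K, (ma01_fib i x B c).card := by
  rw [Finset.card_eq_sum_card_fiberwise (f := ma01_key i x) (t := K)
    (fun b hb => hK (Finset.mem_image_of_mem _ hb))]
  rfl

theorem ma01_up_le {i x : σ} (h : i ≠ x) {X : Finset σ} (hi : i ∈ X) (hx : x ∈ X)
    (B : Finset (σ → ℕ)) : (up X (ma01_comp i x B)).card ≤ (up X B).card := by
  set K := (up X (ma01_comp i x B)).image (ma01_key i x) ∪ (up X B).image (ma01_key i x)
  rw [ma01_card_fib (up X (ma01_comp i x B)) K Finset.subset_union_left,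
    ma01_card_fib (up X B) K Finset.subset_union_right]
  exact Finset.sum_le_sum fun c _ => ma01_fib_up h hi hx B c

/-- Block ma01: compression in the direction `i - x`. -/
theorem compress (X : Finset σ) (i x : σ) (hi : i ∈ X) (hx : x ∈ X) (hix : i ≠ x)
    (B : Finset (σ → ℕ)) :
    ∃ B' : Finset (σ → ℕ), B'.card = B.card ∧ (up X B').card ≤ (up X B).card ∧
      ∑ b ∈ B', b x ≤ ∑ b ∈ B, b x ∧
      (∑ b ∈ B', b x = ∑ b ∈ B, b x →
        ∀ b ∈ B, 1 ≤ b x → b - Pi.single x 1 + Pi.single i 1 ∈ B) := by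
  refine ⟨ma01_comp i x B, ma01_card hix B, ma01_up_le hix hi hx B, ?_, ?_⟩
  · rw [ma01_sum hix, ma01_sum' hix]
    exact Finset.sum_le_sum fun c _ => (ma01_sum_range _).1
  · intro heq b hb hbx
    rw [ma01_sum hix, ma01_sum' hix] at heq
    have h1 := (Finset.sum_eq_sum_iff_of_le fun c _ => (ma01_sum_range _).1).1 heq
      (ma01_key i x b) (Finset.mem_image_of_mem _ hb)
    have h2 := (ma01_sum_range _).2 h1
    have h3 : b x ∈ ma01_pos i x B (ma01_key i x b) :=
      Finset.mem_image.2 ⟨b, ma01_mem_fib.2 ⟨hb, rfl⟩, rfl⟩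
    have h4 : b x - 1 ∈ ma01_pos i x B (ma01_key i x b) := by
      rw [h2, Finset.mem_range] at h3 ⊢
      omega
    unfold ma01_pos at h4
    rw [Finset.mem_image] at h4
    obtain ⟨b2, hb2, hb3⟩ := h4
    obtain ⟨hb4, hb5⟩ := ma01_mem_fib.1 hb2
    have h5 : b - Pi.single x 1 + Pi.single i 1 = b2 := by
      have h6 : b2 i + b2 x = b i + b x := by
        rw [← ma01_key_i, ← ma01_key_i, hb5]
      refine ma01_ext (i := i) (x := x) ?_ ?_ ?_
      · rw [Pi.add_apply, Pi.sub_apply, Pi.single_eq_of_ne hix, Pi.single_eq_same]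
        omega
      · rw [Pi.add_apply, Pi.sub_apply, Pi.single_eq_same, Pi.single_eq_of_ne hix.symm]
        omega
      · intro l h1 h2
        have h7 := congrFun hb5 l
        rw [ma01_key_o h1 h2, ma01_key_o h1 h2] at h7
        rw [Pi.add_apply, Pi.sub_apply, Pi.single_eq_of_ne h1, Pi.single_eq_of_ne h2, h7]
        omega
    rw [h5]
    exact hb4

end ma01b

end Pool.Agent.Lib_helper49.Mac
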