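import Pool.Agent.Lib_helper49.Mac.Defs2
import Pool.Agent.Lib_helper49.Mac.B01

/-!
# Block ma02: stable sets
-/

namespace Pool.Agent.Lib_helper49.Mac

section ma02

variable {σ : Type*} [Fintype σ] [DecidableEq σ]

theorem exists_stable (X : Finset σ) (x : σ) (hx : x ∈ X) (B : Finset (σ → ℕ)) :
    ∃ B' : Finset (σ → ℕ), B'.card = B.card ∧ (up X B').card ≤ (up X B).card ∧
      ∀ b ∈ B', 1 ≤ b x → ∀ i ∈ X, i ≠ x → b - Pi.single x 1 + Pi.single i 1 ∈ B' := by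
  obtain ⟨m, hm⟩ : ∃ m, ∑ b ∈ B, b x = m := ⟨_, rfl⟩
  induction m using Nat.strong_induction_on generalizing B with
  | _ m ih =>
    by_cases hst : ∀ b ∈ B, 1 ≤ b x → ∀ i ∈ X, i ≠ x → b - Pi.single x 1 + Pi.single i 1 ∈ B
    · exact ⟨B, rfl, le_rfl, hst⟩
    · push Not at hst
      obtain ⟨b, hb, hbx, i, hi, hix, hnot⟩ := hst
      obtain ⟨B', h1, h2, h3, h4⟩ := compress X i x hi hx hix B
      have hne : ∑ b ∈ B', b x ≠ ∑ b ∈ B, b x := fun h => hnot (h4 h b hb hbx)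
      obtain ⟨B'', k1, k2, k3⟩ := ih _ (by omega) B' rfl
      exact ⟨B'', k1.trans h1, k2.trans h2, k3⟩

end ma02


end Pool.Agent.Lib_helper49.Mac
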