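import Pool.Agent.Lib_helper49.Mac.Defs2

/-!
# Block ma03: slices
-/

namespace Pool.Agent.Lib_helper49.Mac

section ma03

variable {σ : Type*} [Fintype σ] [DecidableEq σ]

theorem ma03_mem_up (X : Finset σ) (B : Finset (σ → ℕ)) (c : σ → ℕ) :
    c ∈ up X B ↔ ∃ l ∈ X, ∃ b ∈ B, b + Pi.single l 1 = c := by
  simp [up, Finset.mem_biUnion, Finset.mem_image]

theorem ma03_mem_slice (x : σ) (B : Finset (σ → ℕ)) (t : ℕ) (c : σ → ℕ) :
    c ∈ slice x B t ↔ ∃ b ∈ B, b x = t ∧ Function.update b x 0 = c := by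
  simp [slice, Finset.mem_image, Finset.mem_filter, and_assoc]

theorem card_slices (x : σ) (B : Finset (σ → ℕ)) :
    ∃ L, B.card = ∑ t ∈ Finset.range L, (slice x B t).card := by
  classical
  refine ⟨(B.sup fun b => b x) + 1, ?_⟩
  have hmaps : Set.MapsTo (fun b : σ → ℕ => b x) (B : Set (σ → ℕ))
      (Finset.range ((B.sup fun b => b x) + 1) : Finset ℕ) := by
    intro b hb
    rw [Finset.mem_coe, Finset.mem_range]
    exact Nat.lt_succ_of_le (Finset.le_sup (f := fun b : σ → ℕ => b x) (Finset.mem_coe.mp hb))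
  rw [Finset.card_eq_sum_card_fiberwise hmaps]
  refine Finset.sum_congr rfl fun t _ => ?_
  unfold slice
  rw [Finset.card_image_of_injOn]
  intro b hb b' hb' hbb
  rw [Finset.mem_coe, Finset.mem_filter] at hb hb'
  funext s
  by_cases hs : s = x
  · subst hs
    rw [hb.2, hb'.2]
  · have h1 := congrFun hbb s
    simpa [Function.update_of_ne hs] using h1

theorem up_slice (X : Finset σ) (x : σ) (B : Finset (σ → ℕ))
    (h : ∀ b ∈ B, 1 ≤ b x → ∀ i ∈ X, i ≠ x → b - Pi.single x 1 + Pi.single i 1 ∈ B) (t : ℕ) :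
    up (X.erase x) (slice x B (t + 1)) ⊆ slice x B t := by
  intro c hc
  rw [ma03_mem_up] at hc
  obtain ⟨l, hl, c', hc', rfl⟩ := hc
  rw [ma03_mem_slice] at hc'
  obtain ⟨b, hb, hbt, rfl⟩ := hc'
  rw [Finset.mem_erase] at hl
  rw [ma03_mem_slice]
  refine ⟨_, h b hb (by omega) l hl.2 hl.1, ?_, ?_⟩
  · simp [Pi.single_eq_of_ne (Ne.symm hl.1), hbt]
  · funext s
    by_cases hs : s = x
    · subst hs
      simp [Pi.single_eq_of_ne (Ne.symm hl.1)]
    · simp [Function.update_of_ne hs, Pi.single_eq_of_ne hs]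

theorem card_up_ge (X : Finset σ) (x : σ) (hx : x ∈ X) (B : Finset (σ → ℕ)) :
    B.card + (up (X.erase x) (slice x B 0)).card ≤ (up X B).card := by
  have h1 : (B.image fun b => b + Pi.single x 1).card = B.card :=
    Finset.card_image_of_injective _ (add_left_injective _)
  have hdis : Disjoint (B.image fun b => b + Pi.single x 1) (up (X.erase x) (slice x B 0)) := by
    rw [Finset.disjoint_left]
    intro c hc hc'
    rw [Finset.mem_image] at hc
    obtain ⟨b, hb, rfl⟩ := hc
    rw [ma03_mem_up] at hc'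
    obtain ⟨l, hl, c', hc', heq⟩ := hc'
    rw [ma03_mem_slice] at hc'
    obtain ⟨b', hb', hbt, rfl⟩ := hc'
    rw [Finset.mem_erase] at hl
    have h2 := congrFun heq x
    simp [Pi.single_eq_of_ne (Ne.symm hl.1)] at h2
  rw [← h1, ← Finset.card_union_of_disjoint hdis]
  refine Finset.card_le_card (Finset.union_subset ?_ ?_)
  · intro c hc
    rw [Finset.mem_image] at hc
    obtain ⟨b, hb, rfl⟩ := hc
    rw [ma03_mem_up]
    exact ⟨x, hx, b, hb, rfl⟩
  · intro c hc
    rw [ma03_mem_up] at hc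
    obtain ⟨l, hl, c', hc', rfl⟩ := hc
    rw [ma03_mem_slice] at hc'
    obtain ⟨b, hb, hbt, rfl⟩ := hc'
    rw [Finset.mem_erase] at hl
    rw [ma03_mem_up]
    refine ⟨l, hl.2, b, hb, ?_⟩
    congr 1
    funext s
    by_cases hs : s = x
    · subst hs
      simp [hbt]
    · simp [Function.update_of_ne hs]

end ma03


end Pool.Agent.Lib_helper49.Mac
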