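import Pool.Agent.Lib_helper49.Mac.Defs2

/-!
# Block ma04: the strict form
-/

namespace Pool.Agent.Lib_helper49.Mac

section comb

variable {σ : Type*} [Fintype σ] [DecidableEq σ]

theorem ma04_mem {X : Finset σ} {B : Finset (σ → ℕ)} {a : σ → ℕ} :
    a ∈ up X B ↔ ∃ l ∈ X, ∃ b ∈ B, b + Pi.single l 1 = a := by
  unfold up
  simp only [Finset.mem_biUnion, Finset.mem_image]

theorem gr_strict (X : Finset σ) (k : ℕ) (hX : X.Nonempty) (h : Gr X k) (j : ℕ)
    (B : Finset (σ → ℕ)) (hB : (k + j).choose j < B.card) :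
    (k + (j + 1)).choose (j + 1) < (up X B).card := by
  obtain ⟨x, hx⟩ := hX
  have hne : B.Nonempty := Finset.card_pos.1 (lt_of_le_of_lt (Nat.zero_le _) hB)
  obtain ⟨b, hb, hmax⟩ := B.exists_max_image (fun b => b x) hne
  have hcard : (k + j).choose j ≤ (B.erase b).card := by
    rw [Finset.card_erase_of_mem hb]
    omega
  obtain ⟨B', hB', hc⟩ := Finset.exists_subset_card_eq hcard
  have h1 := h j B' hc.le
  have h2 : b + Pi.single x 1 ∉ up X B' := by
    intro hmem
    obtain ⟨l, _, b', hb', he⟩ := ma04_mem.1 hmem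
    have hb2 := hB' hb'
    rw [Finset.mem_erase] at hb2
    by_cases hl : l = x
    · subst hl
      exact hb2.1 (add_right_cancel he)
    · have h3 := congrFun he x
      simp only [Pi.add_apply, Pi.single_eq_same] at h3
      rw [Pi.single_eq_of_ne (Ne.symm hl)] at h3
      have h4 := hmax b' hb2.2
      omega
  have h3 : b + Pi.single x 1 ∈ up X B := ma04_mem.2 ⟨x, hx, b, hb, rfl⟩
  have h4 : up X B' ⊆ up X B := by
    intro a ha
    obtain ⟨l, hl, b', hb', he⟩ := ma04_mem.1 ha
    exact ma04_mem.2 ⟨l, hl, b', Finset.mem_of_mem_erase (hB' hb'), he⟩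
  have h5 : (up X B').card < (up X B).card :=
    Finset.card_lt_card ((Finset.ssubset_iff_of_subset h4).2 ⟨_, h3, h2⟩)
  rw [hc] at h1
  have h6 := Nat.add_one_mul_choose_eq (k + j) j
  have h7 : (j + 1 + k) * (k + j).choose j = (k + j + 1) * (k + j).choose j := by ring
  rw [h7, h6, mul_comm] at h1
  have h8 := Nat.le_of_mul_le_mul_left h1 (Nat.succ_pos j)
  have h9 : k + (j + 1) = k + j + 1 := by ring
  rw [h9]
  omega

end comb

end Pool.Agent.Lib_helper49.Mac
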