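import Pool.Agent.Lib_helper49.Mac.Defs2
import Pool.Agent.Lib_helper49.Mac.B04

/-!
# Block ma05: chains
-/

namespace Pool.Agent.Lib_helper49.Mac

section comb

variable {σ : Type*} [Fintype σ] [DecidableEq σ]

theorem ma05_mem {X : Finset σ} {B : Finset (σ → ℕ)} {a : σ → ℕ} :
    a ∈ up X B ↔ ∃ l ∈ X, ∃ b ∈ B, b + Pi.single l 1 = a := by
  unfold up
  simp only [Finset.mem_biUnion, Finset.mem_image]

theorem ma05_card {X : Finset σ} {B : Finset (σ → ℕ)} (hB : B.Nonempty) :
    X.card ≤ (up X B).card := by
  obtain ⟨b, hb⟩ := hB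
  refine Finset.card_le_card_of_injOn (fun l => b + Pi.single l 1) (fun l hl => ?_) ?_
  · exact ma05_mem.2 ⟨l, hl, b, hb, rfl⟩
  · intro l _ l' _ h
    have h1 := add_left_cancel h
    by_contra hne
    have h2 := congrFun h1 l
    rw [Pi.single_eq_same, Pi.single_eq_of_ne hne] at h2
    exact one_ne_zero h2

theorem gr_chain (X : Finset σ) (k : ℕ) (hk : 1 ≤ k) (hX : X.card = k + 1) (h : Gr X k)
    (B : ℕ → Finset (σ → ℕ)) (hB : ∀ t, (up X (B (t + 1))).card ≤ (B t).card) (m : ℕ)
    (hm : (B 0).card ≤ (k + m).choose m) :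
    (∀ t ≤ m, (B t).card * (k + m).choose m ≤ (B 0).card * (k + (m - t)).choose (m - t)) ∧
      ∀ t, m < t → B t = ∅ := by
  have hXn : X.Nonempty := by
    rw [← Finset.card_pos]
    omega
  have key : ∀ t ≤ m, (B t).card ≤ (k + (m - t)).choose (m - t) ∧
      (B t).card * (k + m).choose m ≤ (B 0).card * (k + (m - t)).choose (m - t) := by
    intro t
    induction t with
    | zero =>
      intro _
      rw [Nat.sub_zero]
      exact ⟨hm, le_rfl⟩
    | succ t ih =>
      intro ht
      obtain ⟨h1, h2⟩ := ih (by omega)
      obtain ⟨s, hs⟩ : ∃ s, m - t = s + 1 := ⟨m - t - 1, by omega⟩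
      have hs' : m - (t + 1) = s := by omega
      rw [hs] at h1 h2
      rw [hs']
      have h3 : (B (t + 1)).card ≤ (k + s).choose s := by
        by_contra hc
        push Not at hc
        have h4 := gr_strict X k hXn h s (B (t + 1)) hc
        have h5 := hB t
        omega
      refine ⟨h3, ?_⟩
      have h4 := h s (B (t + 1)) h3
      have h5 := hB t
      have h6 := Nat.add_one_mul_choose_eq (k + s) s
      have h9 : k + (s + 1) = k + s + 1 := by ring
      rw [h9] at h2
      have h10 : (s + 1 + k) * ((B (t + 1)).card * (k + m).choose m) ≤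
          (s + 1 + k) * ((B 0).card * (k + s).choose s) := by
        calc (s + 1 + k) * ((B (t + 1)).card * (k + m).choose m)
            = ((s + 1 + k) * (B (t + 1)).card) * (k + m).choose m := by ring
          _ ≤ ((s + 1) * (B t).card) * (k + m).choose m := by
              refine Nat.mul_le_mul_right _ (h4.trans ?_)
              exact Nat.mul_le_mul_left _ h5
          _ = (s + 1) * ((B t).card * (k + m).choose m) := by ring
          _ ≤ (s + 1) * ((B 0).card * (k + s + 1).choose (s + 1)) := Nat.mul_le_mul_left _ h2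
          _ = (B 0).card * ((k + s + 1).choose (s + 1) * (s + 1)) := by ring
          _ = (B 0).card * ((k + s + 1) * (k + s).choose s) := by rw [h6]
          _ = (s + 1 + k) * ((B 0).card * (k + s).choose s) := by ring
      exact Nat.le_of_mul_le_mul_left h10 (by omega)
  refine ⟨fun t ht => (key t ht).2, ?_⟩
  have hone : ∀ t, m ≤ t → (B t).card ≤ 1 ∧ (m < t → B t = ∅) := by
    intro t ht
    induction t, ht using Nat.le_induction with
    | base =>
      refine ⟨?_, fun h => absurd h (lt_irrefl _)⟩
      have := (key m le_rfl).1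
      simpa using this
    | succ t ht ih =>
      have h1 : B (t + 1) = ∅ := by
        by_contra hne
        have h2 := ma05_card (X := X) (Finset.nonempty_iff_ne_empty.2 hne)
        have h3 := hB t
        have h4 := ih.1
        omega
      rw [h1]
      simp
  exact fun t ht => (hone t ht.le).2 ht

end comb

end Pool.Agent.Lib_helper49.Mac
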