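import Pool.Agent.Lib_helper49.Mac.Defs2
import Pool.Agent.Lib_helper49.Mac.B02
import Pool.Agent.Lib_helper49.Mac.B03
import Pool.Agent.Lib_helper49.Mac.B04
import Pool.Agent.Lib_helper49.Mac.B05

/-!
# MAC, block ma06: the induction step of Macaulay's inequality
-/

namespace Pool.Agent.Lib_helper49.Mac

theorem ma06_hockey (k : ℕ) : ∀ j : ℕ,
    ∑ s ∈ Finset.range (j + 1), (k + s).choose s = (k + 1 + j).choose j := by
  intro j
  induction j with
  | zero => simp
  | succ j ih =>
    rw [Finset.sum_range_succ, ih]
    have h1 : k + 1 + (j + 1) = (k + 1 + j) + 1 := by ring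
    have h2 : k + (j + 1) = k + 1 + j := by ring
    rw [h1, Nat.choose_succ_succ, h2]

theorem ma06_hockey' (k j : ℕ) :
    ∑ t ∈ Finset.range (j + 1), (k + (j - t)).choose (j - t) = (k + 1 + j).choose j := by
  rw [← ma06_hockey k j, ← Finset.sum_range_reflect]
  refine Finset.sum_congr rfl fun t ht => ?_
  have : t ≤ j := Nat.lt_succ_iff.mp (Finset.mem_range.mp ht)
  have h1 : j - (j + 1 - 1 - t) = t := by omega
  rw [h1]

theorem ma06_id1 (k j : ℕ) : (k + 1) * (k + 1 + j).choose j = (k + 1 + j) * (k + j).choose j := by
  have h := Nat.choose_mul_succ_eq (k + j) j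
  have h1 : k + j + 1 - j = k + 1 := by omega
  rw [h1] at h
  have h2 : k + 1 + j = k + j + 1 := by ring
  rw [h2]
  linarith

theorem ma06_id2 (k j : ℕ) :
    (k + 1) * (k + 1 + j).choose j = (j + 1) * (k + 1 + j).choose (j + 1) := by
  have h := Nat.choose_succ_right_eq (k + 1 + j) j
  have h1 : k + 1 + j - j = k + 1 := by omega
  rw [h1] at h
  linarith

section comb

variable {σ : Type*} [Fintype σ] [DecidableEq σ]

theorem ma06_up_nonempty (X : Finset σ) (hX : X.Nonempty) (B : Finset (σ → ℕ))
    (h : up X B = ∅) : B = ∅ := by
  rw [Finset.eq_empty_iff_forall_notMem] at h ⊢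
  intro b hb
  obtain ⟨l, hl⟩ := hX
  refine h (b + Pi.single l 1) ?_
  unfold up
  rw [Finset.mem_biUnion]
  exact ⟨l, hl, Finset.mem_image_of_mem _ hb⟩

/-- Block ma06: induction step. Uses ma02, ma03, ma05. -/
theorem gr_succ (X : Finset σ) (x : σ) (hx : x ∈ X) (k : ℕ) (hX : X.card = k + 2)
    (h : Gr (X.erase x) k) : Gr X (k + 1) := by
  intro j B hB
  obtain ⟨B', hc, hu, hst⟩ := exists_stable X x hx B
  have hX' : (X.erase x).card = k + 1 := by
    rw [Finset.card_erase_of_mem hx, hX]
    rfl
  have hX'ne : (X.erase x).Nonempty := by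
    rw [← Finset.card_pos, hX']
    omega
  rw [← hc] at hB ⊢
  refine le_trans ?_ (Nat.mul_le_mul_left (j + 1) hu)
  have hge := card_up_ge X x hx B'
  have hup := up_slice X x B' hst
  set S : ℕ → Finset (σ → ℕ) := slice x B' with hS
  -- it is enough to bound `(k + 1) |B'|`
  suffices hmain : (k + 1) * B'.card ≤ (j + 1) * (up (X.erase x) (S 0)).card by
    have h1 := Nat.mul_le_mul_left (j + 1) hge
    nlinarith
  obtain ⟨L, hL⟩ := card_slices x B'
  rw [← hS] at hL
  rcases Nat.eq_zero_or_pos k with hk | hk
  · -- `k = 0`
    subst hk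
    rcases Finset.eq_empty_or_nonempty B' with hB0 | hB0
    · rw [hB0]
      simp
    · have h0 : (S 0).Nonempty := by
        by_contra hcon
        rw [Finset.not_nonempty_iff_eq_empty] at hcon
        have hall : ∀ t, S t = ∅ := by
          intro t
          induction t with
          | zero => exact hcon
          | succ t ih =>
            have h1 := hup t
            rw [ih, Finset.subset_empty] at h1
            exact ma06_up_nonempty _ hX'ne _ h1
        have h2 : B'.card = 0 := by
          rw [hL]
          refine Finset.sum_eq_zero fun t _ => ?_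
          rw [hall t, Finset.card_empty]
        rw [Finset.card_eq_zero] at h2
        rw [h2] at hB0
        exact Finset.not_nonempty_empty hB0
      have h3 : 1 ≤ (up (X.erase x) (S 0)).card := by
        rw [Nat.one_le_iff_ne_zero, Finset.card_ne_zero]
        by_contra hcon
        rw [Finset.not_nonempty_iff_eq_empty] at hcon
        have := ma06_up_nonempty _ hX'ne _ hcon
        rw [this] at h0
        exact Finset.not_nonempty_empty h0
      have h4 : (0 + 1 + j).choose j = j + 1 := by
        have : 0 + 1 + j = j + 1 := by ring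
        rw [this, Nat.choose_succ_self_right]
      rw [h4] at hB
      nlinarith
  · rcases Nat.lt_or_ge ((k + j).choose j) (S 0).card with hlt | hle
    · -- large first slice
      have h1 := gr_strict (X.erase x) k hX'ne h j (S 0) hlt
      have h2 : k + (j + 1) = k + 1 + j := by ring
      rw [h2] at h1
      calc (k + 1) * B'.card ≤ (k + 1) * (k + 1 + j).choose j := Nat.mul_le_mul_left _ hB
        _ = (j + 1) * (k + 1 + j).choose (j + 1) := ma06_id2 k j
        _ ≤ (j + 1) * (up (X.erase x) (S 0)).card := Nat.mul_le_mul_left _ h1.le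
    · obtain ⟨h1, h2⟩ := gr_chain (X.erase x) k hk hX' h S
        (fun t => Finset.card_le_card (hup t)) j hle
      have h3 := h j (S 0) hle
      have hpos : 0 < (k + j).choose j := Nat.choose_pos (by omega)
      -- the number of elements
      have h4 : B'.card ≤ ∑ t ∈ Finset.range (j + 1), (S t).card := by
        rw [hL]
        have h5 : ∑ t ∈ Finset.range L, (S t).card ≤
            ∑ t ∈ Finset.range (max L (j + 1)), (S t).card :=
          Finset.sum_le_sum_of_subset (Finset.range_mono (le_max_left _ _))
        refine h5.trans (le_of_eq ?_)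
        symm
        refine Finset.sum_subset (Finset.range_mono (le_max_right _ _)) fun t _ ht => ?_
        have ht' : j < t := by
          rw [Finset.mem_range] at ht
          omega
        rw [h2 t ht', Finset.card_empty]
      have h6 : B'.card * (k + j).choose j ≤ (S 0).card * (k + 1 + j).choose j := by
        calc B'.card * (k + j).choose j ≤
            (∑ t ∈ Finset.range (j + 1), (S t).card) * (k + j).choose j :=
              Nat.mul_le_mul_right _ h4
          _ = ∑ t ∈ Finset.range (j + 1), (S t).card * (k + j).choose j := Finset.sum_mul _ _ _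
          _ ≤ ∑ t ∈ Finset.range (j + 1), (S 0).card * (k + (j - t)).choose (j - t) := by
              refine Finset.sum_le_sum fun t ht => h1 t ?_
              exact Nat.lt_succ_iff.mp (Finset.mem_range.mp ht)
          _ = (S 0).card * (k + 1 + j).choose j := by
              rw [← Finset.mul_sum, ma06_hockey']
      have h7 : (k + 1) * B'.card * (k + j).choose j ≤
          (S 0).card * (k + 1 + j) * (k + j).choose j := by
        calc (k + 1) * B'.card * (k + j).choose j = (k + 1) * (B'.card * (k + j).choose j) := by
              ring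
          _ ≤ (k + 1) * ((S 0).card * (k + 1 + j).choose j) := Nat.mul_le_mul_left _ h6
          _ = (S 0).card * ((k + 1) * (k + 1 + j).choose j) := by ring
          _ = (S 0).card * ((k + 1 + j) * (k + j).choose j) := by rw [ma06_id1]
          _ = (S 0).card * (k + 1 + j) * (k + j).choose j := by ring
      have h8 : (k + 1) * B'.card ≤ (S 0).card * (k + 1 + j) := Nat.le_of_mul_le_mul_right h7 hpos
      calc (k + 1) * B'.card ≤ (S 0).card * (k + 1 + j) := h8
        _ = (j + 1 + k) * (S 0).card := by ring
        _ ≤ (j + 1) * (up (X.erase x) (S 0)).card := h3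

end comb

end Pool.Agent.Lib_helper49.Mac
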