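import Pool.Agent.Lib_helper49.Mac.Defs2
import Pool.Agent.Lib_helper49.Mac.B06

/-!
# Block ma07: Macaulay's inequality
-/

namespace Pool.Agent.Lib_helper49.Mac

variable {σ : Type*} [Fintype σ] [DecidableEq σ]

theorem ma07_one (l : σ) (X : Finset σ) (hl : l ∈ X) (B : Finset (σ → ℕ)) :
    B.card ≤ (up X B).card := by
  have h := Finset.card_image_of_injective B (add_left_injective (Pi.single l 1 : σ → ℕ))
  rw [← h]
  apply Finset.card_le_card
  intro b hb
  unfold up
  exact Finset.mem_biUnion.2 ⟨l, hl, hb⟩

theorem gr (X : Finset σ) (k : ℕ) (hX : X.card = k + 1) : Gr X k := by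
  induction k generalizing X with
  | zero =>
    obtain ⟨l, rfl⟩ := Finset.card_eq_one.1 (by simpa using hX)
    intro j B _
    have := ma07_one l {l} (Finset.mem_singleton_self l) B
    rw [add_zero]
    exact Nat.mul_le_mul_left _ this
  | succ k ih =>
    obtain ⟨x, hx⟩ : X.Nonempty := Finset.card_pos.1 (by omega)
    refine gr_succ X x hx k hX (ih _ ?_)
    rw [Finset.card_erase_of_mem hx]
    omega

example : type_of% @gr := @gr

end Pool.Agent.Lib_helper49.Mac
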