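import Pool.Agent.Lib_helper49.Mac.Defs2
import Pool.Agent.Lib_helper49.Mac.B07

/-!
# Block ma08: iterated growth by a factor four (uses ma07)
-/

namespace Pool.Agent.Lib_helper49.Mac

section comb

variable {σ : Type*} [Fintype σ] [DecidableEq σ]

theorem ma08_up_mono (Y : Finset σ) {B C : Finset (σ → ℕ)} (h : C ⊆ B) : up Y C ⊆ up Y B := by
  intro x hx
  simp only [up, Finset.mem_biUnion, Finset.mem_image] at hx ⊢
  obtain ⟨l, hl, b, hb, rfl⟩ := hx
  exact ⟨l, hl, b, h hb, rfl⟩

theorem ma08_step (Y : Finset σ) (r J : ℕ) (hY : Y.card = r) (hr : 3 * J + 4 ≤ r)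
    (B : Finset (σ → ℕ)) (h : B.card ≤ (r - 1 + J).choose J) : 4 * B.card ≤ (up Y B).card := by
  have h1 := gr Y (r - 1) (by omega) J B h
  have h2 : J + 1 + (r - 1) = J + r := by omega
  rw [h2] at h1
  have h3 : 4 * (J + 1) * B.card ≤ (J + r) * B.card := Nat.mul_le_mul_right _ (by omega)
  have h4 : (J + 1) * (4 * B.card) ≤ (J + 1) * (up Y B).card := by
    calc (J + 1) * (4 * B.card) = 4 * (J + 1) * B.card := by ring
      _ ≤ _ := h3.trans h1
  exact Nat.le_of_mul_le_mul_left h4 (by omega)

theorem up_iterate (Y : Finset σ) (r J : ℕ) (hY : Y.card = r) (hr : 3 * J + 4 ≤ r)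
    (B : Finset (σ → ℕ)) (t : ℕ) (h : 4 ^ (t - 1) * B.card ≤ (r - 1 + J).choose J) :
    4 ^ t * B.card ≤ ((up Y)^[t] B).card := by
  have key : ∀ s, s ≤ t → 4 ^ s * B.card ≤ ((up Y)^[s] B).card := by
    intro s
    induction s with
    | zero => intro _; simp
    | succ s ih =>
      intro hs
      have h1 := ih (by omega)
      rw [Function.iterate_succ_apply']
      obtain ⟨C, hC, hC2⟩ := Finset.exists_subset_card_eq h1
      have h2 : C.card ≤ (r - 1 + J).choose J := by
        rw [hC2]
        exact (Nat.mul_le_mul_right _ (Nat.pow_le_pow_right (by norm_num) (by omega))).trans h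
      have h3 := ma08_step Y r J hY hr C h2
      have h4 := Finset.card_le_card (ma08_up_mono Y hC)
      calc 4 ^ (s + 1) * B.card = 4 * C.card := by rw [hC2]; ring
        _ ≤ _ := h3.trans h4
  exact key t le_rfl

theorem card_up_singleton (l : σ) (B : Finset (σ → ℕ)) : (up {l} B).card = B.card := by
  unfold up
  rw [Finset.singleton_biUnion, Finset.card_image_of_injective]
  intro b c h
  exact add_right_cancel h

end comb

end Pool.Agent.Lib_helper49.Mac
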