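import Pool.Agent.Lib_helper49.Mac.Defs2

/-!
# Block ma09: the elements of the iterated upper sets
-/

namespace Pool.Agent.Lib_helper49.Mac

variable {σ : Type*} [Fintype σ] [DecidableEq σ]

theorem ma09_mem (X : Finset σ) (B : Finset (σ → ℕ)) (θ : σ → ℕ) (h : θ ∈ up X B) :
    ∃ l ∈ X, ∃ b ∈ B, θ = b + Pi.single l 1 := by
  unfold up at h
  obtain ⟨l, hl, h2⟩ := Finset.mem_biUnion.1 h
  obtain ⟨b, hb, h3⟩ := Finset.mem_image.1 h2
  exact ⟨l, hl, b, hb, h3.symm⟩

theorem mem_up_iterate (Y : Finset σ) (l : σ) (hl : l ∉ Y) (B : Finset (σ → ℕ)) (t : ℕ)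
    (θ : σ → ℕ) (hθ : θ ∈ (up Y)^[t] (up {l} B)) :
    ∃ ε ∈ B, ∃ α : σ → ℕ, θ = α + ε ∧ α l = 1 ∧ ∑ s, α s = t + 1 ∧
      ∀ s, s ≠ l → (s ∉ Y → α s = 0) ∧ α s ≤ t := by
  induction t generalizing θ with
  | zero =>
    obtain ⟨l', hl', b, hb, rfl⟩ := ma09_mem _ _ _ hθ
    rw [Finset.mem_singleton] at hl'
    subst hl'
    refine ⟨b, hb, Pi.single l' 1, add_comm _ _, by simp, by simp, ?_⟩
    intro s hs
    have : (Pi.single l' 1 : σ → ℕ) s = 0 := Pi.single_eq_of_ne hs 1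
    exact ⟨fun _ => this, this.le⟩
  | succ t ih =>
    rw [Function.iterate_succ'] at hθ
    obtain ⟨y, hy, θ', hθ', rfl⟩ := ma09_mem _ _ _ hθ
    obtain ⟨ε, hε, α, rfl, h1, h2, h3⟩ := ih θ' hθ'
    refine ⟨ε, hε, α + Pi.single y 1, ?_, ?_, ?_, ?_⟩
    · abel
    · have : (Pi.single y 1 : σ → ℕ) l = 0 := by
        apply Pi.single_eq_of_ne
        rintro rfl
        exact hl hy
      rw [Pi.add_apply, h1, this]
    · simp only [Pi.add_apply]
      rw [Finset.sum_add_distrib, h2]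
      simp
    · intro s hs
      obtain ⟨h4, h5⟩ := h3 s hs
      constructor
      · intro hsY
        have : (Pi.single y 1 : σ → ℕ) s = 0 := by
          apply Pi.single_eq_of_ne
          rintro rfl
          exact hsY hy
        rw [Pi.add_apply, h4 hsY, this]
      · have : (Pi.single y 1 : σ → ℕ) s ≤ 1 := by
          rw [Pi.single_apply]
          split_ifs <;> omega
        rw [Pi.add_apply]
        omega

example : type_of% @mem_up_iterate := @mem_up_iterate

end Pool.Agent.Lib_helper49.Mac
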