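import Pool.Agent.Lib_helper49.Mac.Defs2

/-!
# Block ma10: the substitution `T`
-/

namespace Pool.Agent.Lib_helper49.Mac

open MvPolynomial Pool.Agent.Lib_helper26.Ebe Pool.Agent.Lib_helper26.SOS
open Pool.Agent.Lib_helper49.Dang

theorem T_inl {K : ℕ} (p : R (K + 1)) : T K (rename Sum.inl p) = C p := by
  induction p using MvPolynomial.induction_on with
  | C a =>
    rw [rename_C]
    have h1 : (C a : A (K + 1)) = algebraMap ℂ (A (K + 1)) a := rfl
    rw [h1, AlgHom.commutes]
    rfl
  | add p q hp hq => rw [map_add, map_add, hp, hq, C_add]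
  | mul_X p n hp =>
    rw [map_mul, map_mul, hp, rename_X, C_mul]
    congr 1
    unfold T
    rw [aeval_X]
    rfl

theorem ma10_T_inl_X {K : ℕ} (l : Fin (K + 1)) : T K (X (Sum.inl l)) = C (X l) := by
  unfold T
  rw [aeval_X]
  rfl

theorem ma10_T_inr_zero (K : ℕ) : T K (X (Sum.inr 0)) =
    X 0 - ∑ j : Fin K, C (X j.succ) * X j.succ := by
  unfold T
  rw [aeval_X]
  rfl

theorem ma10_T_inr_succ {K : ℕ} (j : Fin K) : T K (X (Sum.inr j.succ)) =
    C (X 0) * X j.succ := by
  unfold T
  rw [aeval_X]
  rfl

theorem T_q (K : ℕ) : T K (q (K + 1)) = C (X 0) * X 0 := by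
  unfold q
  rw [map_sum, Fin.sum_univ_succ, map_mul, ma10_T_inl_X, ma10_T_inr_zero]
  have h : ∀ j : Fin K, T K (X (Sum.inl j.succ) * X (Sum.inr j.succ)) =
      C (X 0) * (C (X j.succ) * X j.succ) := by
    intro j
    rw [map_mul, ma10_T_inl_X, ma10_T_inr_succ]
    ring
  rw [Finset.sum_congr rfl fun j _ => h j, ← Finset.mul_sum]
  ring

/-- evaluation which inverts `T` where `x_0 ≠ 0` -/
noncomputable def ma10_ev {K : ℕ} (x w : Fin (K + 1) → ℂ) :
    MvPolynomial (Fin (K + 1)) (R (K + 1)) →+* ℂ :=
  eval₂Hom (eval x) (Fin.cases ((∑ k, x k * w k) / x 0) (fun j => w j.succ / x 0))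

theorem ma10_ev_T {K : ℕ} {x w : Fin (K + 1) → ℂ} (hx : x 0 ≠ 0) (u : A (K + 1)) :
    ma10_ev x w (T K u) = eval (Sum.elim x w) u := by
  have h : (ma10_ev x w).comp (T K : A (K + 1) →+* MvPolynomial (Fin (K + 1)) (R (K + 1))) =
      eval (Sum.elim x w) := by
    apply MvPolynomial.ringHom_ext
    · intro r
      rw [RingHom.comp_apply]
      have h1 : (C r : A (K + 1)) = algebraMap ℂ (A (K + 1)) r := rfl
      have h2 : (T K : A (K + 1) →+* MvPolynomial (Fin (K + 1)) (R (K + 1)))
          (C r : A (K + 1)) = C (C r) := by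
        rw [h1, RingHom.coe_coe, AlgHom.commutes]
        rfl
      rw [h2]
      unfold ma10_ev
      rw [coe_eval₂Hom, eval₂_C, eval_C, eval_C]
    · intro i
      rw [RingHom.comp_apply, RingHom.coe_coe]
      rcases i with l | l
      · rw [ma10_T_inl_X]
        unfold ma10_ev
        rw [coe_eval₂Hom, eval₂_C, eval_X, eval_X]
        rfl
      · refine Fin.cases ?_ (fun j => ?_) l
        · rw [ma10_T_inr_zero, map_sub, map_sum]
          have h3 : ∀ j : Fin K, ma10_ev x w (C (X j.succ) * X j.succ) =
              x j.succ * (w j.succ / x 0) := by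
            intro j
            rw [map_mul]
            unfold ma10_ev
            rw [coe_eval₂Hom, eval₂_C, eval₂_X, eval_X]
            rfl
          have h4 : ma10_ev x w (X 0) = (∑ k, x k * w k) / x 0 := by
            unfold ma10_ev
            rw [coe_eval₂Hom, eval₂_X]
            rfl
          rw [Finset.sum_congr rfl fun j _ => h3 j, h4, Fin.sum_univ_succ, eval_X]
          have h5 : ∑ j : Fin K, x j.succ * (w j.succ / x 0) =
              (∑ j : Fin K, x j.succ * w j.succ) / x 0 := by
            rw [Finset.sum_div]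
            exact Finset.sum_congr rfl fun j _ => by ring
          rw [h5]
          simp only [Sum.elim_inr]
          field_simp
          ring
        · rw [ma10_T_inr_succ, map_mul]
          unfold ma10_ev
          rw [coe_eval₂Hom, eval₂_C, eval₂_X, eval_X, eval_X]
          simp only [Fin.cases_succ, Sum.elim_inr]
          field_simp
  have h2 := RingHom.congr_fun h u
  exact h2

theorem T_injective (K : ℕ) : Function.Injective (T K) := by
  rw [injective_iff_map_eq_zero]
  intro u hu
  have h1 : X (Sum.inl 0) * u = 0 := by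
    apply MvPolynomial.funext
    intro p
    rw [map_mul, eval_X, map_zero]
    by_cases hp : p (Sum.inl 0) = 0
    · rw [hp, zero_mul]
    · have h2 := ma10_ev_T (x := fun l => p (Sum.inl l)) (w := fun l => p (Sum.inr l)) hp u
      rw [hu, map_zero] at h2
      have h3 : Sum.elim (fun l => p (Sum.inl l)) (fun l => p (Sum.inr l)) = p := by
        funext i
        rcases i with l | l <;> rfl
      rw [h3] at h2
      rw [← h2, mul_zero]
  rcases mul_eq_zero.1 h1 with h | h
  · exact absurd h (X_ne_zero _)
  · exact h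

theorem LL_apply {K N : ℕ} (h ψ : Fin (N + 1) → R (K + 1)) : LL h ψ = T K (pair ψ h) := by
  unfold LL pair
  rw [map_sum, LinearMap.sum_apply]
  refine Finset.sum_congr rfl fun i _ => ?_
  rw [LinearMap.comp_apply, LinearMap.proj_apply, LinearMap.toSpanSingleton_apply,
    MvPolynomial.smul_eq_C_mul, map_mul, map_mul, map_mul, T_inl]
  ring

end Pool.Agent.Lib_helper49.Mac
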