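import Pool.Agent.Lib_helper49.Mac.Defs2
import Pool.Agent.Lib_helper49.Mac.B10

/-! Block ma11: divisibility by powers of `q` -/

namespace Pool.Agent.Lib_helper49.Mac

open MvPolynomial Pool.Agent.Lib_helper26.Ebe Pool.Agent.Lib_helper26.SOS
open Pool.Agent.Lib_helper49.Dang

theorem ma11_T_pow {K : ℕ} (k : ℕ) (g : A (K + 1)) :
    T K (q (K + 1) ^ k * g) = X 0 ^ k * (C (X 0 ^ k) * T K g) := by
  rw [map_mul, map_pow, T_q, mul_pow, map_pow]
  ring

theorem ord_of_dvd {K : ℕ} (k : ℕ) (u : A (K + 1)) (h : q (K + 1) ^ k ∣ u) :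
    ∀ e : Fin (K + 1) →₀ ℕ, coeff e (T K u) ≠ 0 → k ≤ e 0 := by
  intro e he
  obtain ⟨g, rfl⟩ := h
  rw [ma11_T_pow, X_pow_eq_monomial, coeff_monomial_mul'] at he
  by_contra hk
  apply he
  rw [if_neg]
  intro hle
  have := hle 0
  rw [Finsupp.single_eq_same] at this
  exact hk this

/-- evaluation at a point with `x · w = 0`, `x_0 ≠ 0` -/
theorem ma11_eval {K : ℕ} (x w : Fin (K + 1) → ℂ) (hxw : ∑ k, x k * w k = 0) (hx : x 0 ≠ 0)
    (g : A (K + 1)) :
    eval₂Hom (eval x) (fun j => Fin.cases (0 : ℂ) (fun i : Fin K => w i.succ / x 0) j) (T K g) =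
      eval (Sum.elim x w) g := by
  have h : (eval₂Hom (eval x)
      (fun j => Fin.cases (0 : ℂ) (fun i : Fin K => w i.succ / x 0) j)).comp
        (T K : A (K + 1) →+* MvPolynomial (Fin (K + 1)) (R (K + 1))) = eval (Sum.elim x w) := by
    refine MvPolynomial.ringHom_ext (fun c => ?_) (fun i => ?_)
    · rw [RingHom.comp_apply, RingHom.coe_coe, eval_C]
      have h1 : T K (C c : A (K + 1)) = C (C c) := by
        have := (T K).commutes c
        exact this
      rw [h1, coe_eval₂Hom, eval₂_C, eval_C]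
    · rw [RingHom.comp_apply, RingHom.coe_coe, eval_X]
      rcases i with l | l
      · have h1 : T K (X (Sum.inl l)) = C (X l) := by
          unfold T
          rw [aeval_X]
          rfl
        rw [h1, coe_eval₂Hom, eval₂_C, eval_X]
        rfl
      · refine Fin.cases ?_ (fun j => ?_) l
        · have h1 : T K (X (Sum.inr 0)) =
              X 0 - ∑ j : Fin K, C (X j.succ) * X j.succ := by
            unfold T
            rw [aeval_X]
            rfl
          rw [h1, map_sub, map_sum]
          simp only [map_mul, coe_eval₂Hom, eval₂_X, eval₂_C, eval_X, Fin.cases_zero,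
            Fin.cases_succ, Sum.elim_inr]
          rw [Fin.sum_univ_succ] at hxw
          have h2 : ∑ j : Fin K, x j.succ * (w j.succ / x 0) =
              (∑ j : Fin K, x j.succ * w j.succ) / x 0 := by
            rw [Finset.sum_div]
            exact Finset.sum_congr rfl fun j _ => by ring
          rw [h2]
          field_simp
          linear_combination -hxw
        · have h1 : T K (X (Sum.inr j.succ)) = C (X 0) * X j.succ := by
            unfold T
            rw [aeval_X]
            rfl
          rw [h1]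
          simp only [map_mul, coe_eval₂Hom, eval₂_X, eval₂_C, eval_X, Fin.cases_succ,
            Sum.elim_inr]
          field_simp
  exact congrArg (fun F : A (K + 1) →+* ℂ => F g) h

theorem ma11_one {K : ℕ} (hK : 1 ≤ K) (g : A (K + 1))
    (h : ∀ e : Fin (K + 1) →₀ ℕ, coeff e (T K g) ≠ 0 → 1 ≤ e 0) : q (K + 1) ∣ g := by
  by_contra hg
  obtain ⟨x, w, hxw, hne, hx⟩ := da26_point (by omega) g hg 0
  apply hne
  rw [← ma11_eval x w hxw hx g, coe_eval₂Hom, eval₂_eq']
  refine Finset.sum_eq_zero fun e he => ?_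
  have h1 := h e (mem_support_iff.1 he)
  have h2 : ∏ i, (Fin.cases (0 : ℂ) (fun i : Fin K => w i.succ / x 0) i : ℂ) ^ e i = 0 := by
    apply Finset.prod_eq_zero (Finset.mem_univ (0 : Fin (K + 1)))
    rw [Fin.cases_zero]
    exact zero_pow (by omega)
  rw [h2, mul_zero]

theorem dvd_of_ord {K : ℕ} (hK : 1 ≤ K) (k : ℕ) (u : A (K + 1))
    (h : ∀ e : Fin (K + 1) →₀ ℕ, coeff e (T K u) ≠ 0 → k ≤ e 0) : q (K + 1) ^ k ∣ u := by
  induction k with
  | zero => simp
  | succ k ih =>
    obtain ⟨g, hg⟩ := ih fun e he => by have := h e he; omega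
    have h1 : q (K + 1) ∣ g := by
      refine ma11_one hK g fun e he => ?_
      have h2 : coeff (Finsupp.single 0 k + e) (T K u) ≠ 0 := by
        rw [hg, ma11_T_pow, X_pow_eq_monomial, coeff_monomial_mul, coeff_C_mul, one_mul]
        exact mul_ne_zero (pow_ne_zero _ (X_ne_zero 0)) he
      have h3 := h _ h2
      rw [Finsupp.add_apply, Finsupp.single_eq_same] at h3
      omega
    obtain ⟨g', hg'⟩ := h1
    exact ⟨g', by rw [hg, hg']; ring⟩

end Pool.Agent.Lib_helper49.Mac
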