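import Pool.Agent.Lib_helper49.Mac.Defs2

/-! Block ma12: lowest exponents. -/

namespace Pool.Agent.Lib_helper49.Mac

open MvPolynomial Pool.Agent.Lib_helper26.Ebe Pool.Agent.Lib_helper26.SOS
open Pool.Agent.Lib_helper49.Dang

theorem exists_low {S : Type*} [CommRing S] {M : ℕ} (f : MvPolynomial (Fin M) S) (hf : f ≠ 0) :
    ∃ e, IsLow f e := by
  obtain ⟨e, he, hmin⟩ := Finset.exists_min_image f.support
    (fun e' : Fin M →₀ ℕ => toLex (⇑e' : Fin M → ℕ)) (support_nonempty.mpr hf)
  refine ⟨⇑e, ?_, fun e' he' => hmin e' (mem_support_iff.mpr he')⟩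
  rw [Finsupp.equivFunOnFinite_symm_coe]
  exact mem_support_iff.mp he

theorem low_unique {S : Type*} [CommRing S] {M : ℕ} {f : MvPolynomial (Fin M) S}
    {e e' : Fin M → ℕ} (h : IsLow f e) (h' : IsLow f e') : e = e' := by
  have h1 := h.2 _ h'.1
  have h2 := h'.2 _ h.1
  rw [Finsupp.coe_equivFunOnFinite_symm] at h1 h2
  exact toLex_inj.mp (le_antisymm h1 h2)

theorem low_fst_le {S : Type*} [CommRing S] {K : ℕ} {f : MvPolynomial (Fin (K + 1)) S}
    {e : Fin (K + 1) → ℕ} (h : IsLow f e) (e' : Fin (K + 1) →₀ ℕ) (he' : coeff e' f ≠ 0) :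
    e 0 ≤ e' 0 := by
  have h1 := h.2 e' he'
  rcases h1.lt_or_eq with h2 | h2
  · obtain ⟨i, hi1, hi2⟩ := h2
    rcases Fin.eq_zero_or_eq_succ i with h3 | ⟨j, h3⟩
    · subst h3
      exact hi2.le
    · have := hi1 0 (by rw [h3]; exact Fin.succ_pos j)
      exact this.le
  · have h3 : e = ⇑e' := toLex_inj.mp h2
    rw [h3]

theorem linearIndependent_of_low {S : Type*} [CommRing S] [IsDomain S] {M : ℕ} {ι : Type*}
    (f : ι → MvPolynomial (Fin M) S) (e : ι → Fin M → ℕ) (he : Function.Injective e)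
    (h : ∀ i, IsLow (f i) (e i)) : LinearIndependent S f := by
  classical
  rw [linearIndependent_iff']
  intro s g hg
  by_contra hne
  push Not at hne
  obtain ⟨i, hi, hgi⟩ := hne
  obtain ⟨i₀, hi₀, hmin⟩ := Finset.exists_min_image (s.filter (fun i => g i ≠ 0))
    (fun i => toLex (e i)) ⟨i, Finset.mem_filter.mpr ⟨hi, hgi⟩⟩
  rw [Finset.mem_filter] at hi₀
  have h1 := congrArg (coeff (Finsupp.equivFunOnFinite.symm (e i₀))) hg
  rw [coeff_sum, coeff_zero, Finset.sum_eq_single i₀] at h1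
  · rw [coeff_smul, smul_eq_mul, mul_eq_zero] at h1
    rcases h1 with h1 | h1
    · exact hi₀.2 h1
    · exact (h i₀).1 h1
  · intro j hj hji
    rw [coeff_smul, smul_eq_mul]
    by_cases hgj : g j = 0
    · rw [hgj, zero_mul]
    · have h2 : coeff (Finsupp.equivFunOnFinite.symm (e i₀)) (f j) = 0 := by
        by_contra hc
        have h3 := (h j).2 _ hc
        rw [Finsupp.coe_equivFunOnFinite_symm] at h3
        have h4 := hmin j (Finset.mem_filter.mpr ⟨hj, hgj⟩)
        exact hji (he (toLex_inj.mp (le_antisymm h3 h4)))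
      rw [h2, mul_zero]
  · intro hc
    exact absurd hi₀.1 hc

theorem low_mul_monomial {S : Type*} [CommRing S] {M : ℕ} {f : MvPolynomial (Fin M) S}
    {e : Fin M → ℕ} (h : IsLow f e) (α : Fin M → ℕ) :
    IsLow (monomial (Finsupp.equivFunOnFinite.symm α) 1 * f) (α + e) := by
  constructor
  · have h1 : Finsupp.equivFunOnFinite.symm (α + e) =
        Finsupp.equivFunOnFinite.symm α + Finsupp.equivFunOnFinite.symm e := by
      ext i
      simp
    rw [h1, coeff_monomial_mul, one_mul]
    exact h.1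
  · intro e' he'
    rw [coeff_monomial_mul'] at he'
    have h2 : Finsupp.equivFunOnFinite.symm α ≤ e' := by
      by_contra hc
      exact he' (if_neg hc)
    rw [if_pos h2, one_mul] at he'
    have h3 := h.2 _ he'
    have h4 : (⇑e' : Fin M → ℕ) = α + ⇑(e' - Finsupp.equivFunOnFinite.symm α) := by
      funext i
      have := h2 i
      rw [Finsupp.coe_equivFunOnFinite_symm] at this
      rw [Pi.add_apply, Finsupp.tsub_apply, Finsupp.coe_equivFunOnFinite_symm]
      omega
    rw [h4, toLex_add, toLex_add]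
    exact add_le_add_right h3 _

theorem low_C_mul {S : Type*} [CommRing S] [IsDomain S] {M : ℕ} {f : MvPolynomial (Fin M) S}
    {e : Fin M → ℕ} (h : IsLow f e) (c : S) (hc : c ≠ 0) : IsLow (C c * f) e := by
  constructor
  · rw [coeff_C_mul]
    exact mul_ne_zero hc h.1
  · intro e' he'
    rw [coeff_C_mul] at he'
    exact h.2 e' (right_ne_zero_of_mul he')

end Pool.Agent.Lib_helper49.Mac
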