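import Pool.Agent.Lib_helper49.Mac.Defs2
import Pool.Agent.Lib_helper49.Mac.B12

/-! Block ma13: the number of lowest exponents is the rank. -/

namespace Pool.Agent.Lib_helper49.Mac

open MvPolynomial Pool.Agent.Lib_helper26.Ebe Pool.Agent.Lib_helper26.SOS
open Pool.Agent.Lib_helper49.Dang

theorem card_le_low {S : Type*} [CommRing S] [IsDomain S] {M : ℕ}
    (V : Submodule S (MvPolynomial (Fin M) S)) {ι : Type*} [Fintype ι]
    (f : ι → MvPolynomial (Fin M) S) (hf : ∀ i, f i ∈ V) (hli : LinearIndependent S f)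
    (B : Finset (Fin M → ℕ)) (hB : ∀ g ∈ V, ∀ e, IsLow g e → e ∈ B) :
    Fintype.card ι ≤ B.card := by
  let Φ : MvPolynomial (Fin M) S →ₗ[S] (B → S) :=
    LinearMap.pi fun b => lcoeff S (Finsupp.equivFunOnFinite.symm (b : Fin M → ℕ))
  have hΦ : ∀ g b, Φ g b = coeff (Finsupp.equivFunOnFinite.symm (b : Fin M → ℕ)) g :=
    fun g b => rfl
  have hker : ∀ g ∈ V, Φ g = 0 → g = 0 := by
    intro g hg h0
    by_contra hne
    obtain ⟨e, he⟩ := exists_low g hne
    have h1 : Φ g ⟨e, hB g hg e he⟩ = 0 := by rw [h0]; rfl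
    exact he.1 h1
  have hspan : Submodule.span S (Set.range f) ≤ V := by
    rw [Submodule.span_le]
    rintro _ ⟨i, rfl⟩
    exact hf i
  have hinj : Set.InjOn Φ (Submodule.span S (Set.range f)) := by
    intro x hx y hy hxy
    have h1 : x - y ∈ V := V.sub_mem (hspan hx) (hspan hy)
    have h2 : Φ (x - y) = 0 := by rw [map_sub, hxy, sub_self]
    exact sub_eq_zero.mp (hker _ h1 h2)
  have h3 := hli.map_injOn Φ hinj
  have h4 := h3.fintype_card_le_finrank
  rw [Module.finrank_fintype_fun_eq_card, Fintype.card_coe] at h4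
  exact h4

theorem exists_low_finset {S : Type*} [CommRing S] [IsDomain S] {M : ℕ}
    (V : Submodule S (MvPolynomial (Fin M) S)) (r : ℕ)
    (hr : ∀ f : Fin (r + 1) → MvPolynomial (Fin M) S, (∀ i, f i ∈ V) →
      ¬ LinearIndependent S f) :
    ∃ B : Finset (Fin M → ℕ), B.card ≤ r ∧ ∀ e, e ∈ B ↔ ∃ g ∈ V, IsLow g e := by
  classical
  set L : Set (Fin M → ℕ) := {e | ∃ g ∈ V, IsLow g e} with hL
  have key : ∀ t : Finset (Fin M → ℕ), (t : Set (Fin M → ℕ)) ⊆ L → t.card ≠ r + 1 := by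
    intro t ht hc
    have e : Fin (r + 1) ≃ t := (Fintype.equivFinOfCardEq (by rw [Fintype.card_coe, hc])).symm
    have h1 : ∀ i : Fin (r + 1), ∃ g ∈ V, IsLow g (e i : Fin M → ℕ) := fun i => ht (e i).2
    choose g hg hlow using h1
    exact hr g hg (linearIndependent_of_low g (fun i => (e i : Fin M → ℕ))
      (fun i j hij => e.injective (Subtype.ext hij)) hlow)
  have hfin : L.Finite := by
    by_contra hinf
    obtain ⟨t, ht, hc⟩ := Set.Infinite.exists_subset_card_eq (s := L) hinf (r + 1)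
    exact key t ht hc
  refine ⟨hfin.toFinset, ?_, fun e => by rw [Set.Finite.mem_toFinset]; rfl⟩
  by_contra hc
  rw [not_le] at hc
  obtain ⟨t, ht, hcard⟩ := Finset.exists_subset_card_eq (s := hfin.toFinset) (n := r + 1) hc
  exact key t (fun x hx => hfin.mem_toFinset.mp (ht hx)) hcard

end Pool.Agent.Lib_helper49.Mac
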