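import Pool.Agent.Lib_helper49.Mac.Defs2

/-!
# Block ma14: derivatives lower the first entry of the lowest exponent
-/

namespace Pool.Agent.Lib_helper49.Mac

open MvPolynomial Pool.Agent.Lib_helper26.Ebe Pool.Agent.Lib_helper26.SOS
open Pool.Agent.Lib_helper49.Dang

section ma14

variable {K : ℕ}

/-- the coefficientwise derivative -/
noncomputable def ma14_dc (l : Fin (K + 1)) (f : MvPolynomial (Fin (K + 1)) (R (K + 1))) :
    MvPolynomial (Fin (K + 1)) (R (K + 1)) :=
  ∑ m ∈ f.support, monomial m (pderiv l (coeff m f))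

theorem ma14_coeff_dc (l : Fin (K + 1)) (f : MvPolynomial (Fin (K + 1)) (R (K + 1)))
    (m : Fin (K + 1) →₀ ℕ) : coeff m (ma14_dc l f) = pderiv l (coeff m f) := by
  classical
  unfold ma14_dc
  rw [coeff_sum]
  simp only [coeff_monomial]
  rw [Finset.sum_ite_eq']
  by_cases h : m ∈ f.support
  · rw [if_pos h]
  · rw [if_neg h, notMem_support_iff.1 h, map_zero]

/-- the derivation -/
noncomputable def ma14_D (l : Fin K) (f : MvPolynomial (Fin (K + 1)) (R (K + 1))) :
    MvPolynomial (Fin (K + 1)) (R (K + 1)) :=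
  ma14_dc l.succ f + X l.succ * pderiv 0 f

theorem ma14_dc_add (l : Fin (K + 1)) (f g : MvPolynomial (Fin (K + 1)) (R (K + 1))) :
    ma14_dc l (f + g) = ma14_dc l f + ma14_dc l g := by
  ext1 m
  rw [coeff_add, ma14_coeff_dc, ma14_coeff_dc, ma14_coeff_dc, coeff_add, map_add]

theorem ma14_dc_mul_C (l : Fin (K + 1)) (f : MvPolynomial (Fin (K + 1)) (R (K + 1)))
    (c : R (K + 1)) : ma14_dc l (f * C c) = ma14_dc l f * C c + f * C (pderiv l c) := by
  ext1 m
  rw [coeff_add, ma14_coeff_dc, mul_comm f, mul_comm _ (C c), mul_comm f, coeff_C_mul,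
    coeff_C_mul, coeff_C_mul, ma14_coeff_dc, Derivation.leibniz]
  simp only [smul_eq_mul]
  ring

theorem ma14_dc_mul_X (l j : Fin (K + 1)) (f : MvPolynomial (Fin (K + 1)) (R (K + 1))) :
    ma14_dc l (f * X j) = ma14_dc l f * X j := by
  classical
  ext1 m
  rw [ma14_coeff_dc, coeff_mul_X', coeff_mul_X']
  split_ifs with h
  · rw [ma14_coeff_dc]
  · rw [map_zero]

theorem ma14_dc_mul (l : Fin (K + 1)) (f g : MvPolynomial (Fin (K + 1)) (R (K + 1))) :
    ma14_dc l (f * g) = ma14_dc l f * g + f * ma14_dc l g := by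
  have hC : ∀ c : R (K + 1), ma14_dc l (C c) = C (pderiv l c) := by
    intro c
    have := ma14_dc_mul_C l 1 c
    rw [one_mul, one_mul] at this
    rw [this]
    have h1 : ma14_dc l (1 : MvPolynomial (Fin (K + 1)) (R (K + 1))) = 0 := by
      classical
      ext1 m
      rw [ma14_coeff_dc, coeff_one, coeff_zero]
      split_ifs
      · exact (pderiv l).map_one_eq_zero
      · exact map_zero _
    rw [h1, zero_mul, zero_add]
  induction g using MvPolynomial.induction_on with
  | C c => rw [ma14_dc_mul_C, hC]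
  | add p q hp hq => rw [mul_add, ma14_dc_add, hp, hq, ma14_dc_add]; ring
  | mul_X p j hp => rw [← mul_assoc, ma14_dc_mul_X, hp, ma14_dc_mul_X]; ring

theorem ma14_dc_C (l : Fin (K + 1)) (c : R (K + 1)) : ma14_dc l (C c) = C (pderiv l c) := by
  have := ma14_dc_mul_C l 1 c
  rw [one_mul, one_mul] at this
  rw [this]
  have h1 : ma14_dc l (1 : MvPolynomial (Fin (K + 1)) (R (K + 1))) = 0 := by
    classical
    ext1 m
    rw [ma14_coeff_dc, coeff_one, coeff_zero]
    split_ifs
    · exact (pderiv l).map_one_eq_zero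
    · exact map_zero _
  rw [h1, zero_mul, zero_add]

theorem ma14_dc_X (l j : Fin (K + 1)) :
    ma14_dc l (X j : MvPolynomial (Fin (K + 1)) (R (K + 1))) = 0 := by
  have := ma14_dc_mul_X l j (1 : MvPolynomial (Fin (K + 1)) (R (K + 1)))
  rw [one_mul] at this
  rw [this]
  have h1 := ma14_dc_C l (1 : R (K + 1))
  rw [C_1] at h1
  rw [h1, (pderiv l).map_one_eq_zero, map_zero, zero_mul]

theorem ma14_D_add (l : Fin K) (f g : MvPolynomial (Fin (K + 1)) (R (K + 1))) :
    ma14_D l (f + g) = ma14_D l f + ma14_D l g := by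
  unfold ma14_D
  rw [ma14_dc_add, map_add]
  ring

theorem ma14_D_mul (l : Fin K) (f g : MvPolynomial (Fin (K + 1)) (R (K + 1))) :
    ma14_D l (f * g) = ma14_D l f * g + f * ma14_D l g := by
  unfold ma14_D
  rw [ma14_dc_mul, Derivation.leibniz]
  simp only [smul_eq_mul]
  ring

theorem ma14_D_zero (l : Fin K) : ma14_D l (0 : MvPolynomial (Fin (K + 1)) (R (K + 1))) = 0 := by
  have := ma14_D_add l (0 : MvPolynomial (Fin (K + 1)) (R (K + 1))) 0
  rw [add_zero] at this
  exact left_eq_add.1 this

theorem ma14_D_neg (l : Fin K) (f : MvPolynomial (Fin (K + 1)) (R (K + 1))) :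
    ma14_D l (-f) = -ma14_D l f := by
  have := ma14_D_add l (-f) f
  rw [neg_add_cancel, ma14_D_zero] at this
  exact eq_neg_of_add_eq_zero_left this.symm

theorem ma14_D_sum (l : Fin K) {ι : Type*} (t : Finset ι)
    (f : ι → MvPolynomial (Fin (K + 1)) (R (K + 1))) :
    ma14_D l (∑ i ∈ t, f i) = ∑ i ∈ t, ma14_D l (f i) := by
  classical
  induction t using Finset.induction_on with
  | empty => rw [Finset.sum_empty, Finset.sum_empty, ma14_D_zero]
  | insert a t ha ih => rw [Finset.sum_insert ha, Finset.sum_insert ha, ma14_D_add, ih]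

theorem ma14_T_x (K : ℕ) (j : Fin (K + 1)) : T K (X (Sum.inl j)) = C (X j) := by
  unfold T
  rw [aeval_X]
  rfl

theorem ma14_T_w0 (K : ℕ) : T K (X (Sum.inr 0)) =
    X 0 - ∑ j : Fin K, C (X j.succ) * X j.succ := by
  unfold T
  rw [aeval_X]
  rfl

theorem ma14_T_w (K : ℕ) (j : Fin K) : T K (X (Sum.inr j.succ)) = C (X 0) * X j.succ := by
  unfold T
  rw [aeval_X]
  rfl

theorem ma14_D_C (l : Fin K) (c : R (K + 1)) : ma14_D l (C c) = C (pderiv l.succ c) := by
  unfold ma14_D
  rw [ma14_dc_C, pderiv_C, mul_zero, add_zero]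

theorem ma14_D_X (l : Fin K) (j : Fin K) :
    ma14_D l (X j.succ : MvPolynomial (Fin (K + 1)) (R (K + 1))) = 0 := by
  unfold ma14_D
  rw [ma14_dc_X, pderiv_X_of_ne (Fin.succ_ne_zero j), mul_zero, add_zero]

theorem ma14_D_X0 (l : Fin K) :
    ma14_D l (X 0 : MvPolynomial (Fin (K + 1)) (R (K + 1))) = X l.succ := by
  unfold ma14_D
  rw [ma14_dc_X, pderiv_X_self, mul_one, zero_add]

/-- `T` intertwines the derivations -/
theorem ma14_T_pderiv (l : Fin K) (u : A (K + 1)) :
    T K (pderiv (Sum.inl l.succ) u) = ma14_D l (T K u) := by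
  induction u using MvPolynomial.induction_on with
  | C c =>
    rw [pderiv_C, map_zero]
    have : T K (C c : A (K + 1)) = C (C c) := by
      unfold T
      rw [aeval_C]
      rfl
    rw [this, ma14_D_C, pderiv_C, map_zero]
  | add p q hp hq => rw [map_add, map_add, hp, hq, map_add, ma14_D_add]
  | mul_X p n hp =>
    have hgen : T K (pderiv (Sum.inl l.succ) (X n : A (K + 1))) = ma14_D l (T K (X n)) := by
      rcases n with j | j
      · rw [ma14_T_x, ma14_D_C]
        by_cases h : j = l.succ
        · rw [h, pderiv_X_self, pderiv_X_self, map_one, C_1]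
        · rw [pderiv_X_of_ne (by simpa using h), pderiv_X_of_ne h, map_zero, map_zero]
      · rw [pderiv_X_of_ne (by simp), map_zero]
        refine Fin.cases ?_ (fun j => ?_) j
        · rw [ma14_T_w0, sub_eq_add_neg, ma14_D_add, ma14_D_X0, ma14_D_neg, ma14_D_sum]
          have h1 : ∀ j : Fin K, ma14_D l (C (X j.succ) * X j.succ) =
              if j = l then (X l.succ : MvPolynomial (Fin (K + 1)) (R (K + 1))) else 0 := by
            intro j
            rw [ma14_D_mul, ma14_D_C, ma14_D_X, mul_zero, add_zero]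
            by_cases h : j = l
            · rw [if_pos h, h, pderiv_X_self, C_1, one_mul]
            · rw [if_neg h, pderiv_X_of_ne (fun h2 => h (Fin.succ_injective _ h2)), map_zero,
                zero_mul]
          simp only [h1]
          rw [Finset.sum_ite_eq' Finset.univ l, if_pos (Finset.mem_univ _), add_neg_cancel]
        · rw [ma14_T_w, ma14_D_mul, ma14_D_C, ma14_D_X, mul_zero, add_zero,
            pderiv_X_of_ne (Fin.succ_ne_zero l).symm, map_zero, zero_mul]
    rw [Derivation.leibniz, map_add, map_mul, ma14_D_mul, ← hp, ← hgen]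
    simp only [smul_eq_mul, map_mul]
    ring

theorem ma14_coeff_D (l : Fin K) (f : MvPolynomial (Fin (K + 1)) (R (K + 1)))
    (m : Fin (K + 1) →₀ ℕ) : coeff m (ma14_D l f) = pderiv l.succ (coeff m f) +
      (if l.succ ∈ m.support then
        coeff (m - Finsupp.single l.succ 1 + Finsupp.single 0 1) f * ((m 0 : R (K + 1)) + 1)
        else 0) := by
  classical
  unfold ma14_D
  rw [coeff_add, ma14_coeff_dc, coeff_X_mul']
  congr 1
  split_ifs with h
  · rw [coeff_pderiv]
    congr 2
    rw [Finsupp.tsub_apply, Finsupp.single_eq_of_ne (Fin.succ_ne_zero l).symm]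
    simp
  · rfl

theorem ma14_add_le {M : ℕ} {a b c : Fin M → ℕ} (h : toLex (a + c) ≤ toLex (b + c)) :
    toLex a ≤ toLex b := by
  rw [toLex_add, toLex_add] at h
  exact le_of_add_le_add_right h

theorem ma14_add_le' {M : ℕ} {a b : Fin M → ℕ} (c : Fin M → ℕ) (h : toLex a ≤ toLex b) :
    toLex (a + c) ≤ toLex (b + c) := by
  rw [toLex_add, toLex_add]
  exact add_le_add_left h _

/-- Block ma14: derivatives lower the first entry of the lowest exponent. -/
theorem low_deriv {K : ℕ} (u : A (K + 1)) (e : Fin (K + 1) → ℕ) (h : IsLow (T K u) e)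
    (he : 1 ≤ e 0) (l : Fin K) :
    IsLow (T K (pderiv (Sum.inl l.succ) u)) (e - Pi.single 0 1 + Pi.single l.succ 1) := by
  obtain ⟨h1, h2⟩ := h
  rw [ma14_T_pderiv]
  set f := T K u with hf
  set e' : Fin (K + 1) → ℕ := e - Pi.single 0 1 + Pi.single l.succ 1 with he'
  have hl0 : (l.succ : Fin (K + 1)) ≠ 0 := Fin.succ_ne_zero l
  have hrel : e' + Pi.single 0 1 = e + Pi.single l.succ 1 := by
    funext j
    rw [he']
    simp only [Pi.add_apply, Pi.sub_apply]
    by_cases hj : j = 0
    · subst hj
      rw [Pi.single_eq_same, Pi.single_eq_of_ne hl0.symm]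
      omega
    · rw [Pi.single_eq_of_ne hj]
      omega
  have hlt : toLex e' < toLex e := by
    refine ⟨0, fun j hj => absurd hj (Fin.not_lt_zero j), ?_⟩
    have := congrFun hrel 0
    simp only [Pi.add_apply, Pi.single_eq_same, Pi.single_eq_of_ne hl0.symm] at this
    change e' 0 < e 0
    omega
  constructor
  · rw [ma14_coeff_D]
    have hz : coeff (Finsupp.equivFunOnFinite.symm e') f = 0 := by
      by_contra hne
      have := h2 _ hne
      exact absurd (lt_of_le_of_lt this hlt) (lt_irrefl _)
    have hmem : l.succ ∈ (Finsupp.equivFunOnFinite.symm e').support := by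
      rw [Finsupp.mem_support_iff]
      change e' l.succ ≠ 0
      rw [he']
      simp
    rw [hz, map_zero, zero_add, if_pos hmem]
    have hexp : Finsupp.equivFunOnFinite.symm e' - Finsupp.single l.succ 1 +
        Finsupp.single 0 1 = Finsupp.equivFunOnFinite.symm e := by
      ext j
      have hj := congrFun hrel j
      simp only [Pi.add_apply] at hj
      rw [Finsupp.add_apply, Finsupp.tsub_apply, Finsupp.single_apply, Finsupp.single_apply]
      change e' j - _ + _ = e j
      rw [Pi.single_apply, Pi.single_apply] at hj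
      have hl1 : 1 ≤ e' l.succ := by
        rw [he']
        simp
      by_cases hj1 : l.succ = j
      · subst hj1
        rw [if_neg hl0, if_pos rfl] at hj
        rw [if_pos rfl, if_neg hl0.symm]
        omega
      · by_cases hj2 : 0 = j
        · subst hj2
          rw [if_pos rfl, if_neg hl0.symm] at hj
          rw [if_neg hj1, if_pos rfl]
          omega
        · rw [if_neg (Ne.symm hj2), if_neg (Ne.symm hj1)] at hj
          rw [if_neg hj1, if_neg hj2]
          omega
    rw [hexp]
    refine mul_ne_zero h1 ?_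
    exact Nat.cast_add_one_ne_zero _
  · intro m hm
    rw [ma14_coeff_D] at hm
    by_cases hc : coeff m f = 0
    · rw [hc, map_zero, zero_add] at hm
      have hmem : l.succ ∈ m.support := by
        by_contra hne
        rw [if_neg hne] at hm
        exact hm rfl
      rw [if_pos hmem] at hm
      obtain ⟨m', hm'⟩ : ∃ m' : Fin (K + 1) →₀ ℕ,
        m' = m - Finsupp.single l.succ 1 + Finsupp.single 0 1 := ⟨_, rfl⟩
      rw [← hm'] at hm
      have h3 := h2 _ (left_ne_zero_of_mul hm)
      have h4 : (⇑m' : Fin (K + 1) → ℕ) + Pi.single l.succ 1 = ⇑m + Pi.single 0 1 := by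
        funext j
        rw [Finsupp.mem_support_iff] at hmem
        have hj : m' j = m j - (if l.succ = j then 1 else 0) + (if 0 = j then 1 else 0) := by
          rw [hm', Finsupp.add_apply, Finsupp.tsub_apply, Finsupp.single_apply,
            Finsupp.single_apply]
        rw [Pi.add_apply, Pi.add_apply, Pi.single_apply, Pi.single_apply, hj]
        by_cases hj1 : l.succ = j
        · subst hj1
          simp only [if_true, if_neg hl0.symm, if_neg hl0]
          omega
        · rw [if_neg hj1, if_neg (Ne.symm hj1)]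
          by_cases hj2 : 0 = j
          · rw [if_pos hj2, if_pos hj2.symm]
            omega
          · rw [if_neg hj2, if_neg (Ne.symm hj2)]
            omega
      have h5 := ma14_add_le' (Pi.single l.succ 1) h3
      rw [h4, ← hrel] at h5
      exact ma14_add_le h5
    · exact hlt.le.trans (h2 m hc)

end ma14

end Pool.Agent.Lib_helper49.Mac
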