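import Pool.Agent.Lib_helper49.Mac.Defs2
import Pool.Agent.Lib_helper49.Mac.B11
import Pool.Agent.Lib_helper49.Mac.B14

/-!
# Block ma15: the growth step
-/

namespace Pool.Agent.Lib_helper49.Mac

open MvPolynomial Pool.Agent.Lib_helper26.Ebe Pool.Agent.Lib_helper26.SOS
open Pool.Agent.Lib_helper49.Dang

theorem ma15_same {σ τ : Type*} (f : σ → τ) (hf : Function.Injective f) (l : σ)
    (p : MvPolynomial σ ℂ) : pderiv (f l) (rename f p) = rename f (pderiv l p) := by
  classical
  induction p using MvPolynomial.induction_on with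
  | C a => simp
  | add p q hp hq => rw [map_add, map_add, map_add, map_add, hp, hq]
  | mul_X p i hp =>
    rw [map_mul, Derivation.leibniz, Derivation.leibniz, map_add, hp, rename_X, pderiv_X,
      pderiv_X]
    simp only [smul_eq_mul, map_mul, rename_X]
    congr 1
    by_cases h : i = l
    · subst h; simp
    · rw [Pi.single_eq_of_ne h, Pi.single_eq_of_ne (fun h' => h (hf h'))]; simp

theorem ma15_other {σ τ : Type*} (f : σ → τ) (m : τ) (hm : ∀ i, f i ≠ m)
    (p : MvPolynomial σ ℂ) : pderiv m (rename f p) = 0 := by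
  classical
  induction p using MvPolynomial.induction_on with
  | C a => simp
  | add p q hp hq => rw [map_add, map_add, hp, hq, add_zero]
  | mul_X p i hp =>
    rw [map_mul, Derivation.leibniz, hp, rename_X, pderiv_X, Pi.single_eq_of_ne (hm i)]
    simp

/-- Block ma15: the growth step. Uses ma10, ma11, ma12, ma14. -/
theorem pderiv_pair {M N : ℕ} (ψ h : Fin (N + 1) → R M) (l : Fin M) :
    pderiv (Sum.inl l) (pair ψ h) = pair (dv l ψ) h := by
  unfold pair
  rw [map_sum]
  refine Finset.sum_congr rfl fun i _ => ?_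
  rw [Derivation.leibniz, Derivation.leibniz, pderiv_C, ma15_same Sum.inl Sum.inl_injective l,
    ma15_other Sum.inr (Sum.inl l) (fun _ => Sum.inr_ne_inl)]
  simp only [dv, smul_eq_mul, mul_zero, add_zero, zero_add]
  ring

theorem pderiv_pair_right {M N : ℕ} (ψ h : Fin (N + 1) → R M) (l : Fin M) :
    pderiv (Sum.inr l) (pair ψ h) = pair ψ (dv l h) := by
  unfold pair
  rw [map_sum]
  refine Finset.sum_congr rfl fun i _ => ?_
  rw [Derivation.leibniz, Derivation.leibniz, pderiv_C, ma15_same Sum.inr Sum.inr_injective l,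
    ma15_other Sum.inl (Sum.inr l) (fun _ => Sum.inl_ne_inr)]
  simp only [dv, smul_eq_mul, mul_zero, add_zero]

theorem low_step {K N : ℕ} (V V' : Submodule (R (K + 1)) (Fin (N + 1) → R (K + 1)))
    (h : Fin (N + 1) → R (K + 1)) (hle : V ≤ V')
    (hd : ∀ ψ ∈ V, ∀ l : Fin K, dv l.succ ψ ∈ V') (hq : ∀ ψ ∈ V, q (K + 1) ∣ pair ψ h)
    (B B' : Finset (Fin (K + 1) → ℕ)) (hB : ∀ e ∈ B, e ∈ low V h)
    (hB' : ∀ e ∈ low V' h, e ∈ B') : (up Finset.univ B).card ≤ B'.card := by
  classical
  have hsub : up Finset.univ B ⊆ B'.image (fun e => e + Pi.single 0 1) := by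
    intro e he
    unfold up at he
    rw [Finset.mem_biUnion] at he
    obtain ⟨l, -, he⟩ := he
    rw [Finset.mem_image] at he
    obtain ⟨b, hb, rfl⟩ := he
    obtain ⟨ψ, hψ, hlow⟩ := hB b hb
    have hb0 : 1 ≤ b 0 := by
      have h1 := ord_of_dvd 1 (pair ψ h) (by rw [pow_one]; exact hq ψ hψ)
        (Finsupp.equivFunOnFinite.symm b) hlow.1
      simpa using h1
    rw [Finset.mem_image]
    refine Fin.cases ?_ (fun j => ?_) l
    · exact ⟨b, hB' b ⟨ψ, hle hψ, hlow⟩, rfl⟩
    · refine ⟨b - Pi.single 0 1 + Pi.single j.succ 1, hB' _ ⟨dv j.succ ψ, hd ψ hψ j, ?_⟩, ?_⟩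
      · rw [← pderiv_pair]
        exact low_deriv _ b hlow hb0 j
      · funext m
        simp only [Pi.add_apply, Pi.sub_apply]
        by_cases hm : m = 0
        · subst hm
          simp only [Pi.single_eq_same]
          omega
        · rw [Pi.single_eq_of_ne hm]
          omega
  exact (Finset.card_le_card hsub).trans Finset.card_image_le

example : type_of% @pderiv_pair := @pderiv_pair
example : type_of% @pderiv_pair_right := @pderiv_pair_right
example : type_of% @low_step := @low_step

end Pool.Agent.Lib_helper49.Mac
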