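import Pool.Agent.Lib_helper49.Mac.Defs2

/-!
# Block ma16: independence can be checked at a point
-/

namespace Pool.Agent.Lib_helper49.Mac

open MvPolynomial Pool.Agent.Lib_helper26.Ebe Pool.Agent.Lib_helper26.SOS
open Pool.Agent.Lib_helper49.Dang

/-- Polynomials in `(x, w)` as polynomials in `w` over the polynomials in `x`. -/
noncomputable def ma16_iter (M : ℕ) : A M →ₐ[ℂ] MvPolynomial (Fin M) (R M) :=
  aeval (Sum.elim (fun l => C (X l)) X)

theorem ma16_sl {M : ℕ} (ξ : Fin M → ℂ) (f : A M) :
    sl ξ f = MvPolynomial.map (eval ξ) (ma16_iter M f) := by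
  unfold sl ma16_iter
  induction f using MvPolynomial.induction_on with
  | C a =>
    have h1 : (C a : A M) = algebraMap ℂ (A M) a := rfl
    rw [h1, AlgHom.commutes, AlgHom.commutes]
    have h2 : algebraMap ℂ (MvPolynomial (Fin M) (R M)) a = C (C a) := rfl
    rw [h2, map_C, eval_C]
    rfl
  | add p q hp hq => rw [map_add, map_add, map_add, hp, hq]
  | mul_X p i hp =>
    rw [map_mul, map_mul, map_mul, hp]
    rcases i with i | i <;> simp

theorem ma16_inl {M : ℕ} (p : R M) : ma16_iter M (rename Sum.inl p) = C p := by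
  unfold ma16_iter
  induction p using MvPolynomial.induction_on with
  | C a =>
    rw [rename_C]
    have h1 : (C a : A M) = algebraMap ℂ (A M) a := rfl
    rw [h1, AlgHom.commutes]
    rfl
  | add p q hp hq => rw [map_add, map_add, hp, hq, C_add]
  | mul_X p i hp => rw [map_mul, map_mul, hp, rename_X, aeval_X, C_mul]; rfl

/-- Block ma16: independence can be checked at a point. -/
theorem indep_of_eval {M : ℕ} {ι : Type*} [Fintype ι] (u : ι → A M) (ξ : Fin M → ℂ)
    (h : LinearIndependent ℂ (fun c => sl ξ (u c))) (p : ι → R M)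
    (hp : ∑ c, rename Sum.inl (p c) * u c = 0) : p = 0 := by
  classical
  let S : Finset (Fin M →₀ ℕ) := Finset.univ.biUnion fun c => (ma16_iter M (u c)).support
  let e := Fintype.equivFin ι
  let v : Fin (Fintype.card ι) → S → R M := fun k α => coeff α.1 (ma16_iter M (u (e.symm k)))
  have hv : LinearIndependent ℂ (fun k α => eval ξ (v k α)) := by
    rw [Fintype.linearIndependent_iff]
    intro g hg k
    have h1 : ∑ c, g (e c) • sl ξ (u c) = 0 := by
      refine MvPolynomial.ext _ _ fun α => ?_
      rw [coeff_sum, coeff_zero]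
      by_cases hα : α ∈ S
      · have h2 := congrFun hg ⟨α, hα⟩
        rw [Finset.sum_apply, Pi.zero_apply] at h2
        rw [← h2, ← e.symm.sum_comp]
        refine Finset.sum_congr rfl fun c _ => ?_
        rw [coeff_smul, ma16_sl, coeff_map, Equiv.apply_symm_apply]
        rfl
      · refine Finset.sum_eq_zero fun c _ => ?_
        rw [coeff_smul, ma16_sl, coeff_map]
        have h2 : coeff α (ma16_iter M (u c)) = 0 := by
          by_contra h3
          exact hα (Finset.mem_biUnion.2 ⟨c, Finset.mem_univ c, mem_support_iff.2 h3⟩)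
        rw [h2, map_zero, smul_zero]
    have h2 := Fintype.linearIndependent_iff.1 h (fun c => g (e c)) h1 (e.symm k)
    simpa using h2
  have h1 := da29_independent v ξ hv
  rw [Fintype.linearIndependent_iff] at h1
  have hp1 : ∑ c, C (p c) * ma16_iter M (u c) = 0 := by
    have h2 := congrArg (ma16_iter M) hp
    rw [map_zero, map_sum] at h2
    rw [← h2]
    refine Finset.sum_congr rfl fun c _ => ?_
    rw [map_mul, ma16_inl]
  have h3 := h1 (fun k => algebraMap (R M) (FractionRing (R M)) (p (e.symm k))) (by
    funext α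
    rw [Finset.sum_apply, Pi.zero_apply]
    have h4 := congrArg (coeff α.1) hp1
    rw [coeff_sum, coeff_zero] at h4
    have h5 := congrArg (algebraMap (R M) (FractionRing (R M))) h4
    rw [map_zero, map_sum, ← e.symm.sum_comp] at h5
    rw [← h5]
    refine Finset.sum_congr rfl fun k _ => ?_
    rw [coeff_C_mul, map_mul]
    rfl)
  funext c
  have h4 := h3 (e c)
  rw [Equiv.symm_apply_apply] at h4
  exact IsFractionRing.injective (R M) (FractionRing (R M)) (by rw [h4, Pi.zero_apply, map_zero])

end Pool.Agent.Lib_helper49.Mac
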