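import Pool.Agent.Lib_helper49.Mac.Defs2

/-!
# Block ma17: divisibility by powers of `q` and derivatives
-/

namespace Pool.Agent.Lib_helper49.Mac

open MvPolynomial Pool.Agent.Lib_helper26.Ebe Pool.Agent.Lib_helper26.SOS
open Pool.Agent.Lib_helper49.Dang

theorem ma17_pderiv_inl {M : ℕ} (l : Fin M) : pderiv (Sum.inl l) (q M) = X (Sum.inr l) := by
  classical
  unfold q
  rw [map_sum, Finset.sum_eq_single l]
  · rw [Derivation.leibniz, pderiv_X_self, pderiv_X_of_ne (by simp)]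
    simp
  · intro j _ hj
    rw [Derivation.leibniz, pderiv_X_of_ne (i := Sum.inl l) (j := Sum.inr j) (by simp),
      pderiv_X_of_ne (i := Sum.inl l) (j := Sum.inl j) (fun h => hj (Sum.inl.inj h))]
    simp
  · simp

theorem ma17_pderiv_inr {M : ℕ} (l : Fin M) : pderiv (Sum.inr l) (q M) = X (Sum.inl l) := by
  classical
  unfold q
  rw [map_sum, Finset.sum_eq_single l]
  · rw [Derivation.leibniz, pderiv_X_self, pderiv_X_of_ne (by simp)]
    simp
  · intro j _ hj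
    rw [Derivation.leibniz, pderiv_X_of_ne (i := Sum.inr l) (j := Sum.inl j) (by simp),
      pderiv_X_of_ne (i := Sum.inr l) (j := Sum.inr j) (fun h => hj (Sum.inr.inj h))]
    simp
  · simp

theorem ma17_pderiv_pow {M : ℕ} (k : ℕ) (g : A M) (l : Fin M ⊕ Fin M) :
    pderiv l (q M ^ (k + 1) * g) =
      q M ^ k * (((k + 1 : ℕ) : A M) * pderiv l (q M) * g) + q M ^ (k + 1) * pderiv l g := by
  rw [Derivation.leibniz, Derivation.leibniz_pow, Nat.add_sub_cancel]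
  simp only [smul_eq_mul, nsmul_eq_mul]
  ring

theorem ma17_step {M : ℕ} (hM : 2 ≤ M) (k : ℕ) (hk : 1 ≤ k) (u : A M) (hu : q M ^ k ∣ u)
    (l : Fin M ⊕ Fin M) (hnd : ¬ q M ∣ pderiv l (q M)) (hl : q M ^ k ∣ pderiv l u) :
    q M ^ (k + 1) ∣ u := by
  obtain ⟨g, rfl⟩ := hu
  obtain ⟨k, rfl⟩ : ∃ k', k = k' + 1 := ⟨k - 1, by omega⟩
  have hq0 : q M ≠ 0 := q_ne_zero (by omega)
  rw [ma17_pderiv_pow, dvd_add_left (dvd_mul_right _ _), pow_succ] at hl
  have h1 := (mul_dvd_mul_iff_left (pow_ne_zero k hq0)).1 hl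
  have hp : Prime (q M) := q_prime hM
  have h2 : q M ∣ g := by
    rcases hp.dvd_or_dvd h1 with h2 | h2
    · rcases hp.dvd_or_dvd h2 with h3 | h3
      · exfalso
        apply hp.not_isUnit
        refine isUnit_of_dvd_unit h3 ?_
        have h4 : (((k + 1 : ℕ) : A M)) = C ((k + 1 : ℕ) : ℂ) := (map_natCast C (k + 1)).symm
        rw [h4]
        exact (IsUnit.mk0 _ (Nat.cast_ne_zero.2 (by omega))).map C
      · exact absurd h3 hnd
    · exact h2
  rw [pow_succ]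
  exact mul_dvd_mul_left _ h2

/-- Block ma17: two divisibility lemmas. -/
theorem dvd_succ_inl {M : ℕ} (hM : 2 ≤ M) (k : ℕ) (hk : 1 ≤ k) (u : A M) (hu : q M ^ k ∣ u)
    (l : Fin M) (hl : q M ^ k ∣ pderiv (Sum.inl l) u) : q M ^ (k + 1) ∣ u := by
  classical
  refine ma17_step hM k hk u hu (Sum.inl l) ?_ hl
  rw [ma17_pderiv_inl]
  rintro ⟨g, hg⟩
  have h1 := congrArg (eval (Sum.elim (0 : Fin M → ℂ) (Pi.single l (1 : ℂ)))) hg
  rw [map_mul, eval_q] at h1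
  simp at h1

theorem dvd_succ_inr {M : ℕ} (hM : 2 ≤ M) (k : ℕ) (hk : 1 ≤ k) (u : A M) (hu : q M ^ k ∣ u)
    (l : Fin M) (hl : q M ^ k ∣ pderiv (Sum.inr l) u) : q M ^ (k + 1) ∣ u := by
  classical
  refine ma17_step hM k hk u hu (Sum.inr l) ?_ hl
  rw [ma17_pderiv_inr]
  rintro ⟨g, hg⟩
  have h1 := congrArg (eval (Sum.elim (Pi.single l (1 : ℂ)) (0 : Fin M → ℂ))) hg
  rw [map_mul, eval_q] at h1
  simp at h1

theorem dvd_pred {M : ℕ} (k : ℕ) (u : A M) (hu : q M ^ (k + 1) ∣ u) (l : Fin M ⊕ Fin M) :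
    q M ^ k ∣ pderiv l u := by
  obtain ⟨g, rfl⟩ := hu
  rw [ma17_pderiv_pow, pow_succ]
  exact dvd_add (dvd_mul_right _ _) ((dvd_mul_right _ _).mul_right _)

end Pool.Agent.Lib_helper49.Mac
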