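import Pool.Agent.Lib_helper49.Mac.Defs2
import Pool.Agent.Lib_helper49.Mac.B15
import Pool.Agent.Lib_helper49.Mac.B17

/-!
# Block ma18: the divisibility of the pairing along a tower
-/

namespace Pool.Agent.Lib_helper49.Mac

open MvPolynomial Pool.Agent.Lib_helper26.Ebe Pool.Agent.Lib_helper26.SOS
open Pool.Agent.Lib_helper49.Dang

/-- Block ma18: the divisibility of the pairing along a tower. Uses ma15, ma17. -/
theorem dvd_of_tower {M N : ℕ} (hM : 2 ≤ M)
    (V : ℕ → Submodule (R M) (Fin (N + 1) → R M)) (h : Fin (N + 1) → R M)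
    (hV : ∀ i, V (i + 1) ≤ V i) (hd : ∀ i, ∀ ψ ∈ V (i + 1), ∀ l, dv l ψ ∈ V i)
    (hq : ∀ ψ ∈ V 0, q M ∣ pair ψ h) (i : ℕ) (ψ : Fin (N + 1) → R M) (hψ : ψ ∈ V i) :
    q M ^ (i + 1) ∣ pair ψ h := by
  induction i generalizing ψ with
  | zero =>
    rw [zero_add, pow_one]
    exact hq ψ hψ
  | succ i ih =>
    have h1 := ih ψ (hV i hψ)
    have l : Fin M := ⟨0, by omega⟩
    have h2 := ih (dv l ψ) (hd i ψ hψ l)
    rw [← pderiv_pair] at h2
    exact dvd_succ_inl hM (i + 1) (by omega) _ h1 l h2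

example : type_of% @dvd_of_tower := @dvd_of_tower

end Pool.Agent.Lib_helper49.Mac
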