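import Pool.Agent.Lib_helper49.Mac.Defs2

/-!
# Block ma20: specialization commutes with derivatives
-/

namespace Pool.Agent.Lib_helper49.Mac

open MvPolynomial Pool.Agent.Lib_helper26.Ebe Pool.Agent.Lib_helper26.SOS
open Pool.Agent.Lib_helper49.Dang

section common

variable {n M N d : ℕ} {P : Fin (N + 1) → MvPolynomial (Fin n) ℂ}

theorem ma20_sp_inl (a : Fin n → ℂ) (B : Fin M → Fin n → ℂ) (j : Fin n) :
    sp a B (X (Sum.inl j)) = C (a j) := by
  unfold sp
  rw [aeval_X]
  rfl

theorem ma20_sp_inr (a : Fin n → ℂ) (B : Fin M → Fin n → ℂ) (j : Fin n) :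
    sp a B (X (Sum.inr j)) = ∑ l, C (B l j) * X l := by
  unfold sp
  rw [aeval_X]
  rfl

theorem ma20_sp_C (a : Fin n → ℂ) (B : Fin M → Fin n → ℂ) (c : ℂ) :
    sp a B (C c) = C c := by
  unfold sp
  rw [algHom_C]
  rfl

theorem pderiv_sp (a : Fin n → ℂ) (B : Fin M → Fin n → ℂ) (l : Fin M) (f : A n) :
    pderiv l (sp a B f) = sp a B (Dx (B l) f) := by
  induction f using MvPolynomial.induction_on with
  | C c =>
    have h : Dx (B l) (C c : A n) = 0 := by
      exact (Dx (B l)).map_algebraMap c
    rw [ma20_sp_C, pderiv_C, h, map_zero]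
  | add p q hp hq => rw [map_add, map_add, map_add, map_add, hp, hq]
  | mul_X p i hp =>
    rw [map_mul, Derivation.leibniz, Derivation.leibniz, map_add, smul_eq_mul, smul_eq_mul,
      smul_eq_mul, smul_eq_mul, map_mul, map_mul, hp]
    congr 2
    rcases i with j | j
    · rw [ma20_sp_inl, pderiv_C, da05_Dx_inl, map_zero]
    · rw [ma20_sp_inr, da05_Dx_inr, ma20_sp_C, map_sum, Finset.sum_eq_single l]
      · rw [Derivation.leibniz, pderiv_C, pderiv_X_self]
        simp
      · intro i _ hi
        rw [Derivation.leibniz, pderiv_C, pderiv_X_of_ne hi]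
        simp
      · intro h
        exact absurd (Finset.mem_univ l) h

theorem eval_sp (a : Fin n → ℂ) (B : Fin M → Fin n → ℂ) (ξ : Fin M → ℂ) (f : A n) :
    eval ξ (sp a B f) = eval (Sum.elim a (∑ l, ξ l • B l)) f := by
  induction f using MvPolynomial.induction_on with
  | C c => rw [ma20_sp_C, eval_C, eval_C]
  | add p q hp hq => rw [map_add, map_add, map_add, hp, hq]
  | mul_X p i hp =>
    rw [map_mul, map_mul, map_mul, hp, eval_X]
    congr 1
    rcases i with j | j
    · rw [ma20_sp_inl, eval_C, Sum.elim_inl]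
    · rw [ma20_sp_inr, map_sum, Sum.elim_inr, Finset.sum_apply]
      refine Finset.sum_congr rfl fun l _ => ?_
      rw [map_mul, eval_C, eval_X, Pi.smul_apply, smul_eq_mul, mul_comm]

end common

end Pool.Agent.Lib_helper49.Mac
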