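import Pool.Agent.Lib_helper49.Mac.Defs2
import Pool.Agent.Lib_helper49.Mac.B20

/-! Block ma21 (helper14). -/

set_option autoImplicit false

namespace Pool.Agent.Lib_helper49.Mac

open MvPolynomial Pool.Agent.Lib_helper26.Ebe Pool.Agent.Lib_helper26.SOS
open Pool.Agent.Lib_helper49.Dang

section common

variable {n M N d : ℕ} {P : Fin (N + 1) → MvPolynomial (Fin n) ℂ}

/-- Block ma21: the tower. Uses ma20, da14_step, da05. -/
theorem Vs_succ_le (d : ℕ) (a : Fin n → ℂ) (B : Fin M → Fin n → ℂ) (i : ℕ) :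
    Vs P d a B (i + 1) ≤ Vs P d a B i := by
  unfold Vs
  refine Submodule.span_mono (Set.image_mono ?_)
  rintro ψ ⟨g, hg, c, hc⟩
  exact ⟨g, fun t ht k => hg t (by omega) k, c, hc⟩

theorem ma21_step (hP : SMap n N d P) (y : Fin n → ℂ) (i : ℕ) (ψ : Fin (N + 1) → A n)
    (hψ : ψ ∈ Ls P d (i + 1)) : (fun k => Dx y (ψ k)) ∈ Ls P d i := by
  obtain ⟨g, hg, c, rfl⟩ := hψ
  obtain ⟨h1, h2⟩ := da14_step (Fc P) d (Dx y) (Da y) (fun k => Dang.Dx_Fc_zero y k)
    (fun r k => Dang.Da_Fc y r k)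
    (fun r hr => funext fun k => Dang.Fc_eq_zero (fun i => hP.deg_le i) hr k) i g hg
  refine ⟨_, h1, Dx y c - Da y (g 0), ?_⟩
  funext k
  rw [map_add, h2 k, Derivation.leibniz, Dang.Dx_Fc_zero, smul_eq_mul, smul_eq_mul, mul_zero]
  ring

theorem dv_mem_Vs (hP : SMap n N d P) (a : Fin n → ℂ) (B : Fin M → Fin n → ℂ) (i : ℕ)
    (ψ : Fin (N + 1) → R M) (hψ : ψ ∈ Vs P d a B (i + 1)) (l : Fin M) :
    dv l ψ ∈ Vs P d a B i := by
  have hle := Vs_succ_le (P := P) d a B i
  have hψ' : ψ ∈ Submodule.span (R M) ((fun ψ k => sp a B (ψ k)) '' Ls P d (i + 1)) := hψ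
  have key : ∀ x ∈ Submodule.span (R M) ((fun ψ k => sp a B (ψ k)) '' Ls P d (i + 1)),
      dv l x ∈ Vs P d a B i := by
    intro x hx
    induction hx using Submodule.span_induction with
    | mem x h =>
      obtain ⟨ψ0, h0, rfl⟩ := h
      refine Submodule.subset_span ⟨_, ma21_step hP (B l) i ψ0 h0, ?_⟩
      funext k
      exact (pderiv_sp a B l (ψ0 k)).symm
    | zero =>
      rw [dv_zero]
      exact Submodule.zero_mem _
    | add x y _ _ hx hy =>
      rw [dv_add]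
      exact Submodule.add_mem _ hx hy
    | smul c x h hx =>
      rw [dv_smul]
      exact Submodule.add_mem _ (Submodule.smul_mem _ _ hx)
        (Submodule.smul_mem _ _ (hle h))
  exact key ψ hψ'

end common

end Pool.Agent.Lib_helper49.Mac
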