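import Pool.Agent.Lib_helper49.Mac.Defs2
import Pool.Agent.Lib_helper49.Mac.B20

/-! Block ma22 (helper14). -/

set_option autoImplicit false

namespace Pool.Agent.Lib_helper49.Mac

open MvPolynomial Pool.Agent.Lib_helper26.Ebe Pool.Agent.Lib_helper26.SOS
open Pool.Agent.Lib_helper49.Dang

section common

variable {n M N d : ℕ} {P : Fin (N + 1) → MvPolynomial (Fin n) ℂ}

theorem mem_span_Fs (d : ℕ) (a : Fin n → ℂ) (B : Fin M → Fin n → ℂ)
    (ψ : Fin (N + 1) → R M) (hψ : ψ ∈ Vs P d a B 0) :
    ψ ∈ Submodule.span (R M) (Set.range (Fs P a B)) := by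
  have key : Vs P d a B 0 ≤ Submodule.span (R M) (Set.range (Fs P a B)) := by
    unfold Vs
    rw [Submodule.span_le]
    rintro _ ⟨ψ, ⟨g, -, c, rfl⟩, rfl⟩
    have h1 : (fun k => sp a B (phi (Fc P) d g k + c * Fc P 0 k)) =
        ∑ r ∈ Finset.range d, sp a B (g r) • Fs P a B (r + 1) + sp a B c • Fs P a B 0 := by
      funext k
      rw [map_add, map_mul, phi, map_sum, Pi.add_apply, Finset.sum_apply]
      simp only [map_mul, Pi.smul_apply, smul_eq_mul, Fs]
    show (fun k => sp a B (phi (Fc P) d g k + c * Fc P 0 k)) ∈ _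
    rw [h1]
    refine Submodule.add_mem _ (Submodule.sum_mem _ fun r _ => ?_) ?_
    · exact Submodule.smul_mem _ _ (Submodule.subset_span ⟨_, rfl⟩)
    · exact Submodule.smul_mem _ _ (Submodule.subset_span ⟨_, rfl⟩)
  exact key hψ

/-- Block ma22: values of the elements of the tower. Uses ma20. -/
theorem ev_mem_span (d : ℕ) (a : Fin n → ℂ) (B : Fin M → Fin n → ℂ)
    (ψ : Fin (N + 1) → R M) (hψ : ψ ∈ Vs P d a B 0) (ξ : Fin M → ℂ) :
    ev ψ ξ ∈ Submodule.span ℂ (Set.range (Fv P a (∑ l, ξ l • B l))) := by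
  have h := mem_span_Fs d a B ψ hψ
  have key : ∀ x ∈ Submodule.span (R M) (Set.range (Fs P a B)),
      ev x ξ ∈ Submodule.span ℂ (Set.range (Fv P a (∑ l, ξ l • B l))) := by
    intro x hx
    induction hx using Submodule.span_induction with
    | mem x h =>
      obtain ⟨r, rfl⟩ := h
      refine Submodule.subset_span ⟨r, ?_⟩
      funext i
      simp only [ev, Fs, Fv]
      rw [eval_sp]
    | zero =>
      rw [ev_zero]
      exact Submodule.zero_mem _
    | add x y _ _ hx hy =>
      rw [ev_add]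
      exact Submodule.add_mem _ hx hy
    | smul c x _ hx =>
      rw [ev_smul]
      exact Submodule.smul_mem _ _ hx
  exact key ψ h

end common

end Pool.Agent.Lib_helper49.Mac
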