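import Pool.Agent.Lib_helper49.Mac.Defs2
import Pool.Agent.Lib_helper49.Dang.G23
import Pool.Agent.Lib_helper49.Dang.G24
import Pool.Agent.Lib_helper49.Dang.G28
import Pool.Agent.Lib_helper49.Mac.B22

/-!
# Block ma30: divisibility (uses ma22, da24, da27)
-/

namespace Pool.Agent.Lib_helper49.Mac

open MvPolynomial Pool.Agent.Lib_helper26.Ebe Pool.Agent.Lib_helper26.SOS
open Pool.Agent.Lib_helper49.Dang

theorem ma30_sum_idB {n : ℕ} (ξ : Fin n → ℂ) : ∑ l, ξ l • idB n l = ξ := by
  funext j
  simp [idB, Finset.sum_apply, Pi.single_apply]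

section partA

variable {K N d : ℕ} {P : Fin (N + 1) → MvPolynomial (Fin (K + 1)) ℂ}

theorem A_dvd (hK : 1 ≤ K) (hP : SMap (K + 1) N d P) {a : Fin (K + 1) → ℂ} (ha : OnSphere a)
    (ψ : Fin (N + 1) → R (K + 1)) (hψ : ψ ∈ Vs P d a (idB (K + 1)) 0) :
    q (K + 1) ∣ pair ψ (fun i => hcj a d (P i)) := by
  refine q_dvd_of_vanish (by omega) (∑ j, C (a j) * X j) ?_ _ ?_
  · intro h
    have h1 : ∀ j, a j = 0 := by
      intro j
      have h2 := congrArg (eval (Pi.single j (1 : ℂ))) h
      rw [map_sum, map_zero, Finset.sum_eq_single j] at h2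
      · simpa using h2
      · intro i _ hi
        rw [map_mul, eval_X, Pi.single_eq_of_ne hi, mul_zero]
      · intro hj
        exact absurd (Finset.mem_univ j) hj
    simp [OnSphere, h1] at ha
  · intro x w hxw hs
    have h1 := ev_mem_span (P := P) d a (idB (K + 1)) ψ hψ x
    rw [ma30_sum_idB] at h1
    have haw : ∑ i, a i * w i ≠ 0 := by
      intro h
      apply hs
      rw [map_sum, ← h]
      refine Finset.sum_congr rfl fun i _ => ?_
      rw [map_mul, eval_C, eval_X]
    have h2 : eval (Sum.elim x w) (pair ψ (fun i => hcj a d (P i))) =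
        eval w (pra P a d (ev ψ x)) := by
      rw [da28_eval_pra]
      unfold pair ev
      rw [map_sum]
      refine Finset.sum_congr rfl fun i _ => ?_
      rw [map_mul, map_mul, eval_C, eval_rename, eval_rename]
      rfl
    rw [h2]
    have hae : ∀ p : R (K + 1), aeval w p = eval w p := fun p => rfl
    have h3 : Submodule.span ℂ (Set.range (Fv P a x)) ≤
        LinearMap.ker ((MvPolynomial.aeval w).toLinearMap ∘ₗ pra P a d) := by
      rw [Submodule.span_le]
      rintro _ ⟨r, rfl⟩
      rw [SetLike.mem_coe, LinearMap.mem_ker]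
      have h4 := pra_vanish hP a x w hxw haw r
      rw [LinearMap.comp_apply, AlgHom.toLinearMap_apply, hae]
      exact h4
    have h5 := h3 h1
    rw [LinearMap.mem_ker, LinearMap.comp_apply, AlgHom.toLinearMap_apply, hae] at h5
    exact h5

end partA

end Pool.Agent.Lib_helper49.Mac
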