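import Pool.Agent.Lib_helper49.Mac.Defs2
import Pool.Agent.Lib_helper49.Mac.B10
import Pool.Agent.Lib_helper49.Mac.B22

/-!
# Block ma31: the rank is at most `τ`
-/

namespace Pool.Agent.Lib_helper49.Mac

open MvPolynomial Pool.Agent.Lib_helper26.Ebe Pool.Agent.Lib_helper26.SOS
open Pool.Agent.Lib_helper49.Dang

section ma31

variable {K N d : ℕ} {P : Fin (N + 1) → MvPolynomial (Fin (K + 1)) ℂ}

theorem ma31_sum_idB (ξ : Fin (K + 1) → ℂ) : ∑ l, ξ l • idB (K + 1) l = ξ := by
  funext j
  simp [idB, Finset.sum_apply, Pi.single_apply]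

theorem ma31_Fv_zero (a y : Fin (K + 1) → ℂ) : Fv P a y 0 = fun i => eval a (P i) := by
  funext i
  simp only [Fv, Fc_zero, eval_rename]
  rfl

theorem ma31_lin_ne_zero {a : Fin (K + 1) → ℂ} (ha : OnSphere a) :
    (∑ j, C (a j) * X j : R (K + 1)) ≠ 0 := by
  intro h0
  have h1 := congrArg (eval fun j => (starRingEnd ℂ) (a j)) h0
  rw [da23_lin, map_zero] at h1
  have h2 : ∑ j, a j * (starRingEnd ℂ) (a j) = ((∑ j, ‖a j‖ ^ 2 : ℝ) : ℂ) := by
    rw [Complex.ofReal_sum]
    refine Finset.sum_congr rfl fun j _ => ?_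
    rw [Complex.mul_conj, Complex.normSq_eq_norm_sq]
  rw [h2] at h1
  have h3 : (∑ j, ‖a j‖ ^ 2 : ℝ) = 1 := ha
  rw [h3] at h1
  simp at h1

theorem ma31_pra_zero (hP : SMap (K + 1) N d P) {a : Fin (K + 1) → ℂ} (ha : OnSphere a) :
    pra P a d (fun i => eval a (P i)) = 0 := by
  have h1 : (∑ j, C (a j) * X j : R (K + 1)) * pra P a d (fun i => eval a (P i)) = 0 := by
    refine MvPolynomial.funext fun w => ?_
    rw [map_mul, map_zero, da23_lin]
    by_cases h : ∑ j, a j * w j = 0
    · rw [h, zero_mul]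
    · rw [← ma31_Fv_zero a 0, pra_vanish hP a 0 w (by simp) h 0, mul_zero]
  exact (mul_eq_zero.mp h1).resolve_left (ma31_lin_ne_zero ha)

theorem ma31_pair_cv (v : Fin (N + 1) → ℂ) (a : Fin (K + 1) → ℂ) :
    pair (cv v) (fun i => hcj a d (P i)) = rename Sum.inr (pra P a d v) := by
  unfold pair pra cv
  rw [LinearMap.sum_apply, map_sum]
  refine Finset.sum_congr rfl fun i _ => ?_
  simp only [LinearMap.comp_apply, LinearMap.proj_apply, LinearMap.toSpanSingleton_apply]
  rw [MvPolynomial.smul_eq_C_mul, MvPolynomial.smul_eq_C_mul, map_mul, map_mul, rename_C,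
    rename_C, rename_C]
  ring

theorem A_rank (hK : 1 ≤ K) (hP : SMap (K + 1) N d P) {τ : ℕ}
    (hfin : Module.finrank (FractionRing (A (K + 1)))
      (Submodule.span (FractionRing (A (K + 1)))
        (Set.range fun (r : ℕ) (i : Fin (N + 1)) =>
          algebraMap (A (K + 1)) (FractionRing (A (K + 1))) (Fc P r i))) = τ + 1)
    {a : Fin (K + 1) → ℂ} (ha : OnSphere a) (ha0 : (fun i => eval a (P i)) ≠ 0)
    (ψ : Fin (τ + 1) → Fin (N + 1) → R (K + 1))
    (hψ : ∀ c, ψ c ∈ Vs P d a (idB (K + 1)) 0) :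
    ¬ LinearIndependent (R (K + 1)) (fun c => LL (fun i => hcj a d (P i)) (ψ c)) := by
  classical
  intro hLI
  rw [Fintype.linearIndependent_iff] at hLI
  obtain ⟨i0, hi0⟩ : ∃ i, eval a (P i) ≠ 0 := by
    by_contra hc
    push Not at hc
    exact ha0 (funext hc)
  -- the extended family
  have hw : LinearIndependent (R (K + 1))
      (Fin.cons (cv fun i => eval a (P i)) ψ : Fin (τ + 2) → Fin (N + 1) → R (K + 1)) := by
    rw [Fintype.linearIndependent_iff]
    intro g hg
    rw [Fin.sum_univ_succ] at hg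
    simp only [Fin.cons_zero, Fin.cons_succ] at hg
    have h1 := congrArg (LL fun i => hcj a d (P i)) hg
    rw [map_add, map_smul, map_sum, map_zero, LL_apply, ma31_pair_cv, ma31_pra_zero hP ha,
      map_zero, map_zero, smul_zero, zero_add] at h1
    simp only [map_smul] at h1
    have h2 := hLI (fun c => g c.succ) h1
    intro k
    refine Fin.cases ?_ (fun c => h2 c) k
    rw [Finset.sum_eq_zero (fun c _ => by rw [h2 c, zero_smul]), add_zero] at hg
    have h3 := congrFun hg i0
    simp only [Pi.smul_apply, Pi.zero_apply, smul_eq_mul, cv] at h3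
    refine (mul_eq_zero.mp h3).resolve_right fun h4 => hi0 ?_
    exact C_eq_zero.mp h4
  have hwF : LinearIndependent (FractionRing (R (K + 1)))
      (fun k j => algebraMap (R (K + 1)) (FractionRing (R (K + 1)))
        ((Fin.cons (cv fun i => eval a (P i)) ψ :
          Fin (τ + 2) → Fin (N + 1) → R (K + 1)) k j)) := by
    rw [← LinearIndependent.iff_fractionRing (R := R (K + 1))]
    exact hw.map' ((Algebra.linearMap (R (K + 1)) (FractionRing (R (K + 1)))).compLeft
      (Fin (N + 1))) (by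
        rw [LinearMap.ker_eq_bot]
        intro f g hfg
        funext j
        exact IsFractionRing.injective (R (K + 1)) (FractionRing (R (K + 1)))
          (congrFun hfg j))
  obtain ⟨Φ, hΦ0, hΦ⟩ := Pool.Agent.Lib_helper97.Ebe.gen_linearIndependent _ hwF
  obtain ⟨x, hx⟩ := exists_eval_ne_zero hΦ0
  have hli := hΦ x hx
  have hmem : ∀ k : Fin (τ + 2), (fun j => eval x
      ((Fin.cons (cv fun i => eval a (P i)) ψ :
        Fin (τ + 2) → Fin (N + 1) → R (K + 1)) k j)) ∈
      Submodule.span ℂ (Set.range (Fv P a x)) := by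
    intro k
    refine Fin.cases ?_ (fun c => ?_) k
    · refine Submodule.subset_span ⟨0, ?_⟩
      rw [ma31_Fv_zero]
      funext j
      simp [cv]
    · have h1 := ev_mem_span d a (idB (K + 1)) (ψ c) (hψ c) x
      rw [ma31_sum_idB] at h1
      exact h1
  have h1 : Fintype.card (Fin (τ + 2)) ≤
      Module.finrank ℂ (Submodule.span ℂ (Set.range (Fv P a x))) := by
    have h2 : LinearIndependent ℂ (fun k : Fin (τ + 2) =>
        (⟨_, hmem k⟩ : Submodule.span ℂ (Set.range (Fv P a x)))) := by
      refine LinearIndependent.of_comp (Submodule.subtype _) ?_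
      exact hli
    exact h2.fintype_card_le_finrank
  rw [Fintype.card_fin] at h1
  have h2 := rank_le hfin a x
  omega

end ma31

end Pool.Agent.Lib_helper49.Mac
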