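import Pool.Agent.Lib_helper49.Mac.Defs2
import Pool.Agent.Lib_helper49.Mac.B10
import Pool.Agent.Lib_helper49.Mac.B16
import Pool.Agent.Lib_helper49.Mac.B20

/-!
# Block ma32: independence
-/

namespace Pool.Agent.Lib_helper49.Mac

open MvPolynomial Pool.Agent.Lib_helper26.Ebe Pool.Agent.Lib_helper26.SOS
open Pool.Agent.Lib_helper49.Dang

variable {K N d : ℕ} {P : Fin (N + 1) → MvPolynomial (Fin (K + 1)) ℂ}

theorem ma32_idB {M : ℕ} (x : Fin M → ℂ) : ∑ l, x l • idB M l = x := by
  classical
  funext j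
  rw [Finset.sum_apply, Finset.sum_eq_single j]
  · simp [idB]
  · intro l _ hl
    simp [idB, Pi.single_eq_of_ne hl.symm]
  · simp

theorem ma32_sl_inl {M : ℕ} (x : Fin M → ℂ) (p : R M) :
    sl x (rename Sum.inl p) = C (eval x p) := by
  unfold sl
  induction p using MvPolynomial.induction_on with
  | C a => simp
  | add p q hp hq => rw [map_add, map_add, hp, hq, map_add, C_add]
  | mul_X p i hp => rw [map_mul, map_mul, hp, rename_X, aeval_X, map_mul, eval_X, C_mul]; rfl

theorem ma32_sl_inr {M : ℕ} (x : Fin M → ℂ) (p : R M) : sl x (rename Sum.inr p) = p := by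
  unfold sl
  induction p using MvPolynomial.induction_on with
  | C a => simp
  | add p q hp hq => rw [map_add, map_add, hp, hq]
  | mul_X p i hp => rw [map_mul, map_mul, hp, rename_X, aeval_X]; rfl

theorem ma32_sl_C {M : ℕ} (x : Fin M → ℂ) (c : ℂ) : sl x (C c) = C c := by
  unfold sl
  simp

theorem ma32_sl_pair (a x : Fin (K + 1) → ℂ) (ψ : Fin (N + 1) → A (K + 1)) :
    sl x (pair (fun i => sp a (idB (K + 1)) (ψ i)) (fun i => hcj a d (P i))) =
      pra P a d (fun i => eval (Sum.elim a x) (ψ i)) := by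
  unfold pair pra
  rw [map_sum, LinearMap.sum_apply]
  refine Finset.sum_congr rfl fun i _ => ?_
  rw [map_mul, map_mul, ma32_sl_inl, ma32_sl_inr, ma32_sl_C, eval_sp, ma32_idB,
    LinearMap.comp_apply, LinearMap.proj_apply, LinearMap.toSpanSingleton_apply,
    MvPolynomial.smul_eq_C_mul, MvPolynomial.smul_eq_C_mul]
  ring

/-- Block ma32: independence. Uses ma10, ma16, da28. -/
theorem A_indep (hP : SMap (K + 1) N d P) {a x : Fin (K + 1) → ℂ} (ha : OnSphere a)
    (hx : ip x a = 0) {ι : Type*} [Fintype ι] (ψ : ι → Fin (N + 1) → A (K + 1))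
    (hψ : ∀ c, (fun i => eval (Sum.elim a x) (ψ c i)) ∈
      Submodule.span ℂ (Set.range (Fv P a x)))
    (hli : LinearIndependent ℂ (fun o : Option ι =>
      o.elim (Fv P a x 0) (fun c i => eval (Sum.elim a x) (ψ c i)))) :
    LinearIndependent (R (K + 1)) (fun c =>
      LL (fun i => hcj a d (P i)) (fun i => sp a (idB (K + 1)) (ψ c i))) := by
  classical
  have h0 : Fv P a x 0 ≠ 0 := hli.ne_zero none
  have hsl : LinearIndependent ℂ (fun c => sl x (pair (fun i => sp a (idB (K + 1)) (ψ c i))
      (fun i => hcj a d (P i)))) := by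
    rw [Fintype.linearIndependent_iff]
    intro g hg c
    simp only [ma32_sl_pair, ← map_smul] at hg
    rw [← map_sum] at hg
    have h1 : ∑ c, g c • (fun i => eval (Sum.elim a x) (ψ c i)) ∈
        Submodule.span ℂ (Set.range (Fv P a x)) :=
      Submodule.sum_mem _ fun c _ => Submodule.smul_mem _ _ (hψ c)
    have h2 := mem_span_of_pra_eq_zero hP ha hx _ h1 hg h0
    obtain ⟨s, hs⟩ := Submodule.mem_span_singleton.1 h2
    have h3 := Fintype.linearIndependent_iff.1 hli (fun o => o.elim (-s) g) (by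
      rw [Fintype.sum_option]
      simp only [Option.elim]
      rw [← hs, neg_smul, neg_add_cancel]) (some c)
    exact h3
  rw [Fintype.linearIndependent_iff]
  intro p hp c
  have h1 : ∑ c, rename Sum.inl (p c) * pair (fun i => sp a (idB (K + 1)) (ψ c i))
      (fun i => hcj a d (P i)) = 0 := by
    apply T_injective K
    rw [map_zero, map_sum, ← hp]
    refine Finset.sum_congr rfl fun c _ => ?_
    rw [map_mul, T_inl, LL_apply, MvPolynomial.smul_eq_C_mul]
  exact congrFun (indep_of_eval _ x hsl p h1) c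

end Pool.Agent.Lib_helper49.Mac
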