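import Pool.Agent.Lib_helper49.Mac.Defs2

/-!
# Block ma40: an orthonormal basis of the complex tangent space
-/

namespace Pool.Agent.Lib_helper49.Mac

open MvPolynomial Pool.Agent.Lib_helper26.Ebe Pool.Agent.Lib_helper26.SOS
open Pool.Agent.Lib_helper49.Dang

theorem ma40_inner {n : ℕ} (x y : EuclideanSpace ℂ (Fin n)) :
    inner ℂ y x = ip (fun i => x i) (fun i => y i) := by
  rw [PiLp.inner_apply]
  unfold ip
  exact Finset.sum_congr rfl fun i _ => by
    rw [RCLike.inner_apply]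

theorem exists_basis {K : ℕ} {a : Fin (K + 2) → ℂ} (ha : OnSphere a) :
    ∃ u : Fin (K + 1) → Fin (K + 2) → ℂ, (∀ l, ip (u l) a = 0) ∧
      (∀ l l', ip (u l) (u l') = if l = l' then 1 else 0) ∧
      ∀ x, ip x a = 0 → ∃ ξ : Fin (K + 1) → ℂ, x = ∑ l, ξ l • u l := by
  set a' : EuclideanSpace ℂ (Fin (K + 2)) := WithLp.toLp 2 a with ha'
  have ha0 : a' ≠ 0 := by
    intro h
    have h1 : ∀ i, a i = 0 := fun i => by
      have := congrArg (fun z : EuclideanSpace ℂ (Fin (K + 2)) => z i) h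
      simpa [ha'] using this
    unfold OnSphere at ha
    simp [h1] at ha
  have hfact : Fact (Module.finrank ℂ (EuclideanSpace ℂ (Fin (K + 2))) = (K + 1) + 1) :=
    ⟨by rw [finrank_euclideanSpace, Fintype.card_fin]⟩
  have hS : Module.finrank ℂ (ℂ ∙ a')ᗮ = K + 1 :=
    Submodule.finrank_orthogonal_span_singleton ha0
  let b : OrthonormalBasis (Fin (K + 1)) ℂ (ℂ ∙ a')ᗮ :=
    (stdOrthonormalBasis ℂ (ℂ ∙ a')ᗮ).reindex (finCongr hS)
  refine ⟨fun l i => ((b l : (ℂ ∙ a')ᗮ) : EuclideanSpace ℂ (Fin (K + 2))) i, ?_, ?_, ?_⟩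
  · intro l
    have h1 : inner ℂ a' ((b l : (ℂ ∙ a')ᗮ) : EuclideanSpace ℂ (Fin (K + 2))) = 0 :=
      Submodule.mem_orthogonal_singleton_iff_inner_right.1 (b l).2
    rw [ma40_inner] at h1
    exact h1
  · intro l l'
    have h1 := orthonormal_iff_ite.1 b.orthonormal l' l
    rw [Submodule.coe_inner, ma40_inner] at h1
    rw [h1]
    by_cases h : l = l'
    · rw [if_pos h, if_pos h.symm]
    · rw [if_neg h, if_neg (Ne.symm h)]
  · intro x hx
    set x' : EuclideanSpace ℂ (Fin (K + 2)) := WithLp.toLp 2 x with hx'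
    have h1 : x' ∈ (ℂ ∙ a')ᗮ := by
      rw [Submodule.mem_orthogonal_singleton_iff_inner_right, ma40_inner]
      exact hx
    refine ⟨fun l => b.repr ⟨x', h1⟩ l, ?_⟩
    have h2 := b.sum_repr ⟨x', h1⟩
    have h3 := congrArg (fun z : (ℂ ∙ a')ᗮ => (z : EuclideanSpace ℂ (Fin (K + 2)))) h2
    simp only [Submodule.coe_sum, Submodule.coe_smul] at h3
    funext i
    have h4 := congrArg (fun z : EuclideanSpace ℂ (Fin (K + 2)) => z i) h3
    simp only [WithLp.ofLp_sum, Finset.sum_apply] at h4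
    rw [Finset.sum_apply]
    exact h4.symm

end Pool.Agent.Lib_helper49.Mac
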