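import Pool.Agent.Lib_helper49.Mac.Defs2

/-!
# Block ma41: evaluation of the pairing
-/

namespace Pool.Agent.Lib_helper49.Mac

open MvPolynomial Pool.Agent.Lib_helper26.Ebe Pool.Agent.Lib_helper26.SOS
open Pool.Agent.Lib_helper49.Dang

section partP

theorem eval_pair {M N : ℕ} (ψ h : Fin (N + 1) → R M) (ξ η : Fin M → ℂ) :
    eval (Sum.elim ξ η) (pair ψ h) = ∑ i, sg i * eval ξ (ψ i) * eval η (h i) := by
  unfold pair
  rw [map_sum]
  refine Finset.sum_congr rfl fun i _ => ?_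
  rw [map_mul, map_mul, eval_C, eval_rename, eval_rename, Sum.elim_comp_inl, Sum.elim_comp_inr]

theorem eval_pair_cj {M N : ℕ} (ψ ψ' : Fin (N + 1) → R M) (ξ η : Fin M → ℂ) :
    eval (Sum.elim ξ η) (pair ψ (cj ψ')) =
      hf (ev ψ ξ) (ev ψ' (fun l => (starRingEnd ℂ) (η l))) := by
  rw [eval_pair, hf_eq_sum]
  refine Finset.sum_congr rfl fun i _ => ?_
  have h := Pool.Agent.Lib_helper26.SOS.eval_cj (ψ' i) (fun l => (starRingEnd ℂ) (η l))
  simp only [Complex.conj_conj] at h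
  have h2 : eval η (cj ψ' i) = (starRingEnd ℂ) (eval (fun l => (starRingEnd ℂ) (η l)) (ψ' i)) := h
  rw [h2]
  rfl

end partP

end Pool.Agent.Lib_helper49.Mac
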