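import Pool.Agent.Lib_helper49.Mac.Defs2
import Pool.Agent.Lib_helper49.Mac.B22
import Pool.Agent.Lib_helper49.Mac.B41

/-!
# Block ma42 (helper34): divisibility by `q`
-/

namespace Pool.Agent.Lib_helper49.Mac

open MvPolynomial Pool.Agent.Lib_helper26.Ebe Pool.Agent.Lib_helper26.SOS
open Pool.Agent.Lib_helper49.Dang

section ma42

variable {n M N d : ℕ} {P : Fin (N + 1) → MvPolynomial (Fin n) ℂ} {a : Fin n → ℂ}
  {u : Fin M → Fin n → ℂ}

theorem ma42_span {S T : Set (Fin (N + 1) → ℂ)} (h : ∀ v ∈ S, ∀ w ∈ T, hf v w = 0) :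
    ∀ v ∈ Submodule.span ℂ S, ∀ w ∈ Submodule.span ℂ T, hf v w = 0 := by
  have hadd : ∀ v v' w : Fin (N + 1) → ℂ, hf (v + v') w = hf v w + hf v' w := by
    intro v v' w
    simp only [hf_eq_sum, Pi.add_apply]
    rw [← Finset.sum_add_distrib]
    exact Finset.sum_congr rfl fun i _ => by ring
  have hsmul : ∀ (c : ℂ) (v w : Fin (N + 1) → ℂ), hf (c • v) w = c * hf v w := by
    intro c v w
    simp only [hf_eq_sum, Pi.smul_apply, smul_eq_mul, Finset.mul_sum]
    exact Finset.sum_congr rfl fun i _ => by ring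
  have hadd' : ∀ v w w' : Fin (N + 1) → ℂ, hf v (w + w') = hf v w + hf v w' := by
    intro v w w'
    simp only [hf_eq_sum, Pi.add_apply, map_add]
    rw [← Finset.sum_add_distrib]
    exact Finset.sum_congr rfl fun i _ => by ring
  have hsmul' : ∀ (c : ℂ) (v w : Fin (N + 1) → ℂ),
      hf v (c • w) = (starRingEnd ℂ) c * hf v w := by
    intro c v w
    simp only [hf_eq_sum, Pi.smul_apply, smul_eq_mul, Finset.mul_sum, map_mul]
    exact Finset.sum_congr rfl fun i _ => by ring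
  have hz : ∀ w : Fin (N + 1) → ℂ, hf 0 w = 0 := by
    intro w
    simp [hf_eq_sum]
  have hz' : ∀ v : Fin (N + 1) → ℂ, hf v 0 = 0 := by
    intro v
    simp [hf_eq_sum]
  intro v hv w hw
  have h1 : ∀ v ∈ S, hf v w = 0 := by
    intro v hv
    induction hw using Submodule.span_induction with
    | mem w hw => exact h v hv w hw
    | zero => exact hz' v
    | add w w' _ _ h1 h2 => rw [hadd', h1, h2, add_zero]
    | smul c w _ h1 => rw [hsmul', h1, mul_zero]
  induction hv using Submodule.span_induction with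
  | mem v hv => exact h1 v hv
  | zero => exact hz w
  | add v v' _ _ h1 h2 => rw [hadd, h1, h2, add_zero]
  | smul c v _ h1 => rw [hsmul, h1, mul_zero]

theorem ma42_ip_sum (ξ : Fin M → ℂ) (y : Fin n → ℂ) :
    ip (∑ l, ξ l • u l) y = ∑ l, ξ l * ip (u l) y := by
  unfold ip
  simp only [Finset.sum_apply, Pi.smul_apply, smul_eq_mul, Finset.sum_mul, Finset.mul_sum]
  rw [Finset.sum_comm]
  exact Finset.sum_congr rfl fun l _ => Finset.sum_congr rfl fun j _ => by ring

theorem ma42_ip_conj (x y : Fin n → ℂ) : ip x y = (starRingEnd ℂ) (ip y x) := by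
  unfold ip
  rw [map_sum]
  exact Finset.sum_congr rfl fun j _ => by rw [map_mul, Complex.conj_conj, mul_comm]

theorem ma42_tan (hua : ∀ l, ip (u l) a = 0) (ξ : Fin M → ℂ) : ip (∑ l, ξ l • u l) a = 0 := by
  rw [ma42_ip_sum]
  exact Finset.sum_eq_zero fun l _ => by rw [hua, mul_zero]

theorem ma42_ip2 (huu : ∀ l l', ip (u l) (u l') = if l = l' then 1 else 0) (ξ η : Fin M → ℂ) :
    ip (∑ l, ξ l • u l) (∑ l, (starRingEnd ℂ) (η l) • u l) = ∑ l, ξ l * η l := by
  rw [ma42_ip_sum]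
  refine Finset.sum_congr rfl fun l _ => ?_
  rw [ma42_ip_conj, ma42_ip_sum, map_sum]
  congr 1
  rw [Finset.sum_eq_single l]
  · rw [huu, if_pos rfl, mul_one, Complex.conj_conj]
  · intro l' _ hl
    rw [huu, if_neg hl, mul_zero, map_zero]
  · intro h; exact absurd (Finset.mem_univ l) h

theorem ma42_orth (hP : SMap n N d P) (ha : OnSphere a) {x y : Fin n → ℂ} (hx : ip x a = 0)
    (hy : ip y a = 0) (hxy : ip x y = 0) {v w : Fin (N + 1) → ℂ}
    (hv : v ∈ Submodule.span ℂ (Set.range (Fv P a x)))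
    (hw : w ∈ Submodule.span ℂ (Set.range (Fv P a y))) : hf v w = 0 := by
  refine ma42_span ?_ v hv w hw
  rintro _ ⟨r, rfl⟩ _ ⟨s, rfl⟩
  exact orth hP ha hx hy hxy r s

theorem ma42_P_mem (hP : SMap n N d P) (x : Fin n → ℂ) :
    (fun i => eval (a + x) (P i)) ∈ Submodule.span ℂ (Set.range (Fv P a x)) := by
  have h1 : (fun i => eval (a + x) (P i)) = ∑ r ∈ Finset.range (d + 1), Fv P a x r := by
    funext i
    have := sum_Fv hP.deg_le a x 1 i
    rw [one_smul] at this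
    rw [← this, Finset.sum_apply]
    exact Finset.sum_congr rfl fun r _ => by rw [one_pow, mul_one]
  rw [h1]
  exact Submodule.sum_mem _ fun r _ => Submodule.subset_span ⟨r, rfl⟩

theorem ma42_ev_Pa (ξ : Fin M → ℂ) :
    ev (Pa P a u) ξ = fun i => eval (a + ∑ l, ξ l • u l) (P i) := by
  funext i
  unfold ev Pa
  have h : (eval ξ).comp (aeval (fun j => C (a j) + ∑ l, C (u l j) * X l) :
      MvPolynomial (Fin n) ℂ →ₐ[ℂ] R M).toRingHom = eval (a + ∑ l, ξ l • u l) := by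
    refine MvPolynomial.ringHom_ext (fun r => ?_) (fun j => ?_)
    · simp [MvPolynomial.algebraMap_eq]
    · simp only [AlgHom.toRingHom_eq_coe, RingHom.coe_comp, RingHom.coe_coe, Function.comp_apply,
        aeval_X, map_add, map_sum, map_mul, eval_C, eval_X, Pi.add_apply, Finset.sum_apply,
        Pi.smul_apply, smul_eq_mul]
      congr 1
      exact Finset.sum_congr rfl fun l _ => by ring
  exact congrArg (fun φ => φ (P i)) h

theorem q_dvd_pair_cj (hM : 2 ≤ M) (hP : SMap n N d P) (ha : OnSphere a)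
    (hua : ∀ l, ip (u l) a = 0) (huu : ∀ l l', ip (u l) (u l') = if l = l' then 1 else 0)
    (ψ ψ' : Fin (N + 1) → R M) (hψ : ψ ∈ Vs P d a u 0) (hψ' : ψ' ∈ Vs P d a u 0) :
    q M ∣ pair ψ (cj ψ') := by
  refine q_dvd_of_vanish hM 1 one_ne_zero _ fun ξ η hξη _ => ?_
  rw [eval_pair_cj]
  exact ma42_orth hP ha (ma42_tan hua _) (ma42_tan hua _) ((ma42_ip2 huu ξ η).trans hξη)
    (ev_mem_span d a u ψ hψ ξ) (ev_mem_span d a u ψ' hψ' _)

theorem q_dvd_pair_Pa (hM : 2 ≤ M) (hP : SMap n N d P) (ha : OnSphere a)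
    (hua : ∀ l, ip (u l) a = 0) (huu : ∀ l l', ip (u l) (u l') = if l = l' then 1 else 0)
    (ψ : Fin (N + 1) → R M) (hψ : ψ ∈ Vs P d a u 0) :
    q M ∣ pair ψ (cj (Pa P a u)) := by
  refine q_dvd_of_vanish hM 1 one_ne_zero _ fun ξ η hξη _ => ?_
  rw [eval_pair_cj, ma42_ev_Pa]
  exact ma42_orth hP ha (ma42_tan hua _) (ma42_tan hua _) ((ma42_ip2 huu ξ η).trans hξη)
    (ev_mem_span d a u ψ hψ ξ) (ma42_P_mem hP _)

theorem orth0_Vs (hP : SMap n N d P) (ha : OnSphere a) (hua : ∀ l, ip (u l) a = 0) :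
    Orth0 (fun i => eval a (P i)) (Vs P d a u 0) := by
  intro ψ hψ ξ
  have h1 : (fun i => eval a (P i)) ∈ Submodule.span ℂ (Set.range (Fv P a 0)) := by
    have := ma42_P_mem (a := a) hP 0
    rwa [add_zero] at this
  have h0 : ip (0 : Fin n → ℂ) a = 0 := by simp [ip]
  have h2 : ip (∑ l, ξ l • u l) (0 : Fin n → ℂ) = 0 := by simp [ip]
  exact ma42_orth hP ha (ma42_tan hua ξ) h0 h2 (ev_mem_span d a u ψ hψ ξ) h1

end ma42

end Pool.Agent.Lib_helper49.Mac
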