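import Pool.Agent.Lib_helper49.Mac.Defs2

namespace Pool.Agent.Lib_helper49.Mac

open MvPolynomial Pool.Agent.Lib_helper26.Ebe Pool.Agent.Lib_helper26.SOS
open Pool.Agent.Lib_helper49.Dang

/-- The scaling `w ↦ t w` (`t` is the polynomial variable). -/
noncomputable def ma43_sg (M : ℕ) : A M →ₐ[ℂ] Polynomial (A M) :=
  aeval (Sum.elim (fun l => Polynomial.C (X (Sum.inl l)))
    (fun l => Polynomial.C (X (Sum.inr l)) * Polynomial.X))

/-- The scaling `x ↦ t x`. -/
noncomputable def ma43_rh (M : ℕ) : R M →ₐ[ℂ] Polynomial (R M) :=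
  aeval (fun l => Polynomial.C (X l) * Polynomial.X)

theorem ma43_sg_inl {M : ℕ} (p : R M) :
    ma43_sg M (rename Sum.inl p) = Polynomial.C (rename Sum.inl p) := by
  induction p using MvPolynomial.induction_on with
  | C c =>
    rw [rename_C, ma43_sg, aeval_C]
    rfl
  | add p p' hp hp' => rw [map_add, map_add, hp, hp', map_add]
  | mul_X p l hp =>
    rw [map_mul, map_mul, hp, rename_X, map_mul]
    congr 1
    rw [ma43_sg, aeval_X, Sum.elim_inl]

theorem ma43_sg_inr {M : ℕ} (p : R M) :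
    ma43_sg M (rename Sum.inr p) =
      Polynomial.map ((rename Sum.inr : R M →ₐ[ℂ] A M) : R M →+* A M) (ma43_rh M p) := by
  induction p using MvPolynomial.induction_on with
  | C c =>
    rw [rename_C, ma43_sg, aeval_C, ma43_rh, aeval_C]
    change Polynomial.C (C c) = Polynomial.map _ (Polynomial.C (C c))
    rw [Polynomial.map_C]
    simp
  | add p p' hp hp' => rw [map_add, map_add, hp, hp', map_add, Polynomial.map_add]
  | mul_X p l hp =>
    rw [map_mul, map_mul, hp, rename_X, map_mul, Polynomial.map_mul]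
    congr 1
    rw [ma43_sg, aeval_X, Sum.elim_inr, ma43_rh, aeval_X, Polynomial.map_mul, Polynomial.map_C,
      Polynomial.map_X]
    simp

theorem ma43_rh_cj {M : ℕ} (p : R M) :
    ma43_rh M (MvPolynomial.map (starRingEnd ℂ) p) =
      Polynomial.map (MvPolynomial.map (starRingEnd ℂ)) (ma43_rh M p) := by
  induction p using MvPolynomial.induction_on with
  | C c =>
    rw [map_C, ma43_rh, aeval_C, aeval_C]
    change Polynomial.C (C _) = Polynomial.map _ (Polynomial.C (C c))
    rw [Polynomial.map_C, map_C]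
  | add p p' hp hp' => rw [map_add, map_add, hp, hp', map_add, Polynomial.map_add]
  | mul_X p l hp =>
    rw [map_mul, map_mul, hp, map_X, map_mul, Polynomial.map_mul]
    congr 1
    rw [ma43_rh, aeval_X, Polynomial.map_mul, Polynomial.map_C, Polynomial.map_X, map_X]

theorem ma43_rh_Pa {n N M : ℕ} (P : Fin (N + 1) → MvPolynomial (Fin n) ℂ) (a : Fin n → ℂ)
    (B : Fin M → Fin n → ℂ) (i : Fin (N + 1)) :
    ma43_rh M (Pa P a B i) =
      Polynomial.map ((sp a B : A n →ₐ[ℂ] R M) : A n →+* R M) (tay (P i)) := by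
  unfold Pa
  generalize P i = p
  induction p using MvPolynomial.induction_on with
  | C c =>
    rw [aeval_C, tay, aeval_C]
    change ma43_rh M (C c) = Polynomial.map _ (Polynomial.C (C c))
    rw [Polynomial.map_C, ma43_rh, aeval_C]
    simp [sp]
  | add p p' hp hp' => rw [map_add, map_add, hp, hp', map_add, Polynomial.map_add]
  | mul_X p l hp =>
    have e0 : ma43_rh M (aeval (fun j => C (a j) + ∑ l', C (B l' j) * X l')
        (X l : MvPolynomial (Fin n) ℂ)) =
        Polynomial.map ((sp a B : A n →ₐ[ℂ] R M) : A n →+* R M)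
          (tay (X l : MvPolynomial (Fin n) ℂ)) := by
      rw [aeval_X, tay, aeval_X, map_add, map_sum, Polynomial.map_add, Polynomial.map_mul,
        Polynomial.map_C, Polynomial.map_C, Polynomial.map_X]
      have e1 : ma43_rh M (C (a l)) = Polynomial.C (((sp a B : A n →ₐ[ℂ] R M) : A n →+* R M)
          (X (Sum.inl l))) := by
        rw [ma43_rh, aeval_C]
        simp [sp]
      have e2 : ∑ x, ma43_rh M (C (B x l) * X x) =
          Polynomial.C (((sp a B : A n →ₐ[ℂ] R M) : A n →+* R M) (X (Sum.inr l))) *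
            Polynomial.X := by
        have h1 : ((sp a B : A n →ₐ[ℂ] R M) : A n →+* R M) (X (Sum.inr l)) =
            ∑ l', C (B l' l) * X l' := by
          simp [sp]
        rw [h1, map_sum, Finset.sum_mul]
        refine Finset.sum_congr rfl fun l' _ => ?_
        rw [map_mul, ma43_rh, aeval_C, aeval_X, map_mul, mul_assoc]
        rfl
      rw [e1, e2]
    rw [map_mul (aeval _), map_mul (ma43_rh M), hp, map_mul tay, Polynomial.map_mul, e0]

theorem ma43_coeff {n N M : ℕ} (P : Fin (N + 1) → MvPolynomial (Fin n) ℂ) (a : Fin n → ℂ)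
    (B : Fin M → Fin n → ℂ) (ψ : Fin (N + 1) → R M) (s : ℕ) :
    (ma43_sg M (pair ψ (cj (Pa P a B)))).coeff s = pair ψ (cj (Fs P a B s)) := by
  unfold pair
  rw [map_sum, Polynomial.finsetSum_coeff]
  refine Finset.sum_congr rfl fun i _ => ?_
  rw [map_mul, map_mul, ma43_sg_inl, ma43_sg_inr]
  have h1 : ma43_sg M (C (sg i)) = Polynomial.C (C (sg i)) := by
    rw [ma43_sg, aeval_C]
    rfl
  rw [h1, ← map_mul, Polynomial.coeff_C_mul, Polynomial.coeff_map]
  congr 1
  change (rename Sum.inr) ((ma43_rh M (cj (Pa P a B) i)).coeff s) = _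
  congr 1
  unfold cj
  rw [ma43_rh_cj, Polynomial.coeff_map, ma43_rh_Pa, Polynomial.coeff_map]
  rfl

theorem ma43_q (M : ℕ) : ma43_sg M (q M) = Polynomial.C (q M) * Polynomial.X := by
  unfold q
  rw [map_sum, map_sum, Finset.sum_mul]
  refine Finset.sum_congr rfl fun l _ => ?_
  rw [map_mul, ma43_sg, aeval_X, aeval_X, map_mul, mul_assoc]
  rfl

variable {n M N d : ℕ} {P : Fin (N + 1) → MvPolynomial (Fin n) ℂ} {a : Fin n → ℂ}
  {u : Fin M → Fin n → ℂ}

theorem dvd_pair_Fs (hM : 2 ≤ M) (hP : SMap n N d P) (ψ : Fin (N + 1) → R M) (k : ℕ)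
    (h : q M ^ k ∣ pair ψ (cj (Pa P a u))) (s : ℕ) :
    q M ^ k ∣ pair ψ (cj (Fs P a u s)) := by
  obtain ⟨g, hg⟩ := h
  rw [← ma43_coeff, hg, map_mul, map_pow, ma43_q, mul_pow, ← Polynomial.C_pow, mul_assoc,
    Polynomial.coeff_C_mul]
  exact Dvd.intro _ rfl

end Pool.Agent.Lib_helper49.Mac
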