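import Pool.Agent.Lib_helper49.Mac.Defs2
import Pool.Agent.Lib_helper49.Mac.B15
import Pool.Agent.Lib_helper49.Mac.B17
import Pool.Agent.Lib_helper49.Mac.B21
import Pool.Agent.Lib_helper49.Mac.B22
import Pool.Agent.Lib_helper49.Mac.B43

/-! Block ma44 (helper14). -/

set_option autoImplicit false

namespace Pool.Agent.Lib_helper49.Mac

open MvPolynomial Pool.Agent.Lib_helper26.Ebe Pool.Agent.Lib_helper26.SOS
open Pool.Agent.Lib_helper49.Dang

variable {n M N d : ℕ} {P : Fin (N + 1) → MvPolynomial (Fin n) ℂ} {a : Fin n → ℂ}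
  {u : Fin M → Fin n → ℂ}

/-- Block ma44: the order of the pairings. Uses ma17, ma21, ma22, ma43, ma15. -/
theorem dvd_pair_Vs0 (hM : 2 ≤ M) (hP : SMap n N d P) (ψ : Fin (N + 1) → R M) (k : ℕ)
    (h : q M ^ k ∣ pair ψ (cj (Pa P a u))) (ψ' : Fin (N + 1) → R M)
    (hψ' : ψ' ∈ Vs P d a u 0) : q M ^ k ∣ pair ψ (cj ψ') := by
  have h1 := mem_span_Fs d a u ψ' hψ'
  have key : ∀ x ∈ Submodule.span (R M) (Set.range (Fs P a u)),
      q M ^ k ∣ pair ψ (cj x) := by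
    intro x hx
    induction hx using Submodule.span_induction with
    | mem x hx =>
      obtain ⟨r, rfl⟩ := hx
      exact dvd_pair_Fs hM hP ψ k h r
    | zero =>
      rw [cj_zero, pair_zero_right]
      exact dvd_zero _
    | add x y _ _ hx hy =>
      rw [cj_add, pair_add_right]
      exact dvd_add hx hy
    | smul c x _ hx =>
      rw [cj_smul, pair_smul_right]
      exact hx.mul_left _
  exact key ψ' h1

theorem ma44_cj_dv (l : Fin M) (ψ : Fin (N + 1) → R M) : dv l (cj ψ) = cj (dv l ψ) := by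
  funext i
  simp only [dv, cj]
  exact pderiv_map

theorem dvd_pair_Vs1 (hM : 2 ≤ M) (hP : SMap n N d P) (ψ : Fin (N + 1) → R M) (k : ℕ)
    (hk : 1 ≤ k) (h : q M ^ k ∣ pair ψ (cj (Pa P a u))) (ψ' : Fin (N + 1) → R M)
    (hψ' : ψ' ∈ Vs P d a u 1) : q M ^ (k + 1) ∣ pair ψ (cj ψ') := by
  have h0 : ψ' ∈ Vs P d a u 0 := Vs_succ_le d a u 0 hψ'
  have h1 := dvd_pair_Vs0 hM hP ψ k h ψ' h0
  let l : Fin M := ⟨0, by omega⟩
  refine dvd_succ_inr hM k hk _ h1 l ?_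
  rw [pderiv_pair_right, ma44_cj_dv]
  exact dvd_pair_Vs0 hM hP ψ k h _ (dv_mem_Vs hP a u 0 ψ' hψ' l)

end Pool.Agent.Lib_helper49.Mac
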