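import Pool.Agent.Lib_helper49.Mac.Defs2
import Pool.Agent.Lib_helper49.Mac.B10

/-! Block ma45 (helper14). -/

set_option autoImplicit false

namespace Pool.Agent.Lib_helper49.Mac

open MvPolynomial Pool.Agent.Lib_helper26.Ebe Pool.Agent.Lib_helper26.SOS
open Pool.Agent.Lib_helper49.Dang

variable {N : ℕ}

/-- the orthogonality functional -/
noncomputable def ma45_lam {K : ℕ} (u0 : Fin (N + 1) → ℂ) :
    (Fin (N + 1) → R (K + 1)) →ₗ[R (K + 1)] R (K + 1) :=
  ∑ i, (C (sg i * (starRingEnd ℂ) (u0 i)) : R (K + 1)) • LinearMap.proj i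

theorem ma45_lam_apply {K : ℕ} (u0 : Fin (N + 1) → ℂ) (ψ : Fin (N + 1) → R (K + 1)) :
    ma45_lam u0 ψ = ∑ i, C (sg i * (starRingEnd ℂ) (u0 i)) * ψ i := by
  simp [ma45_lam]

/-- Block ma45: the rank is at most `N - 1`. Uses ma10. -/
theorem rank_lt_N {K : ℕ} (V : Submodule (R (K + 1)) (Fin (N + 1) → R (K + 1)))
    (h : Fin (N + 1) → R (K + 1)) (u0 : Fin (N + 1) → ℂ) (hu0 : hf u0 u0 = 0) (h0 : u0 ≠ 0)
    (hV : Orth0 u0 V) (hh : pair (cv u0) h = 0) (r : ℕ) (hr : N ≤ r + 1)
    (ψ : Fin (r + 1) → Fin (N + 1) → R (K + 1)) (hψ : ∀ c, ψ c ∈ V) :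
    ¬ LinearIndependent (R (K + 1)) (fun c => LL h (ψ c)) := by
  intro hli
  rw [Fintype.linearIndependent_iff] at hli
  have h00 : u0 0 ≠ 0 := fun h => h0 (da18_zero u0 h hu0)
  have hcv : LL h (cv u0) = 0 := by
    rw [LL_apply, hh, map_zero]
  -- everything is in the kernel of the functional
  have hlam : ∀ c, ma45_lam u0 (ψ c) = 0 := by
    intro c
    rw [ma45_lam_apply]
    exact (orth0_iff u0 (ψ c)).1 (hV (ψ c) (hψ c))
  have hlam0 : ma45_lam u0 (cv u0 : Fin (N + 1) → R (K + 1)) = 0 := by
    rw [ma45_lam_apply]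
    refine (orth0_iff u0 _).1 fun ξ => ?_
    rw [ev_cv]
    exact hu0
  -- the projection is injective on the kernel
  have hinj : ∀ x : Fin (N + 1) → R (K + 1), ma45_lam u0 x = 0 → (∀ i : Fin N, x i.succ = 0) →
      x = 0 := by
    intro x hx hs
    rw [ma45_lam_apply, Fin.sum_univ_succ] at hx
    simp only [hs, mul_zero, Finset.sum_const_zero, add_zero] at hx
    have h1 : (C (sg (0 : Fin (N + 1)) * (starRingEnd ℂ) (u0 0)) : R (K + 1)) ≠ 0 := by
      intro h2
      rw [MvPolynomial.C_eq_zero] at h2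
      have h3 : (sg (0 : Fin (N + 1)) : ℂ) = -1 := by simp [sg]
      rw [h3] at h2
      have h4 : (starRingEnd ℂ) (u0 0) = 0 := by
        have := neg_eq_zero.1 (by simpa using h2 : -((starRingEnd ℂ) (u0 0)) = 0)
        exact this
      exact h00 (by simpa using h4)
    have h2 : x 0 = 0 := (mul_eq_zero.1 hx).resolve_left h1
    funext i
    refine Fin.cases ?_ (fun j => ?_) i
    · exact h2
    · exact hs j
  -- the independent family
  let v : Option (Fin (r + 1)) → Fin (N + 1) → R (K + 1) := fun o => o.elim (cv u0) ψ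
  have hlamv : ∀ o, ma45_lam u0 (v o) = 0 := by
    rintro (_ | c)
    · exact hlam0
    · exact hlam c
  have hind : LinearIndependent (R (K + 1)) (fun (o : Option (Fin (r + 1))) (i : Fin N) =>
      v o i.succ) := by
    rw [Fintype.linearIndependent_iff]
    intro g hg
    have hx : ∑ o, g o • v o = 0 := by
      refine hinj _ ?_ ?_
      · rw [map_sum]
        refine Finset.sum_eq_zero fun o _ => ?_
        rw [map_smul, hlamv, smul_zero]
      · intro i
        have h1 := congrFun hg i
        rw [Finset.sum_apply] at h1 ⊢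
        exact h1
    rw [Fintype.sum_option] at hx
    have h1 : ∑ c, g (some c) • LL h (ψ c) = 0 := by
      have h2 := congrArg (LL h) hx
      rw [map_add, map_smul, map_sum, map_zero] at h2
      have h3 : LL h (v none) = 0 := hcv
      rw [h3, smul_zero, zero_add] at h2
      rw [← h2]
      refine Finset.sum_congr rfl fun c _ => ?_
      rw [map_smul]
      rfl
    have h2 := hli (fun c => g (some c)) h1
    rintro (_ | c)
    · have h3 : g none • (cv u0 : Fin (N + 1) → R (K + 1)) = 0 := by
        rw [← hx]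
        simp only [h2, zero_smul, Finset.sum_const_zero, add_zero]
        rfl
      have h4 := congrFun h3 0
      rw [Pi.smul_apply, Pi.zero_apply, smul_eq_mul, cv] at h4
      refine (mul_eq_zero.1 h4).resolve_right ?_
      intro h5
      rw [MvPolynomial.C_eq_zero] at h5
      exact h00 h5
    · exact h2 c
  have hcard := hind.fintype_card_le_finrank
  rw [Module.finrank_fin_fun, Fintype.card_option, Fintype.card_fin] at hcard
  omega

end Pool.Agent.Lib_helper49.Mac
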