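import Pool.Agent.Lib_helper49.Mac.Defs2
import Pool.Agent.Lib_helper49.Mac.B22
import Pool.Agent.Lib_helper49.Mac.B41

/-!
# Block ma46: positivity
-/

namespace Pool.Agent.Lib_helper49.Mac

open MvPolynomial Pool.Agent.Lib_helper26.Ebe Pool.Agent.Lib_helper26.SOS
open Pool.Agent.Lib_helper49.Dang

variable {n M N d : ℕ} {P : Fin (N + 1) → MvPolynomial (Fin n) ℂ} {a : Fin n → ℂ}
  {u : Fin M → Fin n → ℂ}

theorem ma46_ev_Pa (η : Fin M → ℂ) :
    ev (Pa P a u) η = fun i => eval (a + ∑ l, η l • u l) (P i) := by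
  funext i
  simp only [ev, Pa]
  rw [aeval_def, eval_eval₂, MvPolynomial.eval₂_eq', MvPolynomial.eval_eq']
  refine Finset.sum_congr rfl fun m _ => ?_
  congr 1
  · simp
  · refine Finset.prod_congr rfl fun j _ => ?_
    congr 1
    simp only [map_add, map_sum, map_mul, eval_C, eval_X, Pi.add_apply, Finset.sum_apply,
      Pi.smul_apply, smul_eq_mul]
    congr 1
    exact Finset.sum_congr rfl fun l _ => mul_comm _ _

theorem ma46_ip_self (ha : OnSphere a) : ip a a = 1 := by
  have h1 : ip a a = ((∑ j, ‖a j‖ ^ 2 : ℝ) : ℂ) := by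
    unfold ip
    simp only [Complex.mul_conj, Complex.normSq_eq_norm_sq]
    push_cast
    rfl
  rw [h1, show ∑ j, ‖a j‖ ^ 2 = 1 from ha]
  norm_num

theorem ma46_conj (x y : Fin n → ℂ) : ip x y = (starRingEnd ℂ) (ip y x) := by
  unfold ip
  rw [map_sum]
  exact Finset.sum_congr rfl fun i _ => by rw [map_mul, Complex.conj_conj, mul_comm]

theorem ma46_ip_sum (hua : ∀ l, ip (u l) a = 0) (η : Fin M → ℂ) :
    ip (∑ l, η l • u l) a = 0 := by
  have h : ip (∑ l, η l • u l) a = ∑ l, η l * ip (u l) a := by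
    unfold ip
    simp only [Finset.sum_apply, Pi.smul_apply, smul_eq_mul, Finset.sum_mul, Finset.mul_sum]
    rw [Finset.sum_comm]
    exact Finset.sum_congr rfl fun l _ => Finset.sum_congr rfl fun i _ => by ring
  rw [h]
  exact Finset.sum_eq_zero fun l _ => by rw [hua, mul_zero]

theorem ma46_null (hP : SMap n N d P) (ha : OnSphere a) (hua : ∀ l, ip (u l) a = 0)
    (η : Fin M → ℂ) :
    hf (fun i => eval a (P i)) (ev (Pa P a u) η) = 0 := by
  rw [ma46_ev_Pa]
  apply da07_pol hP
  have h1 : ip a (a + ∑ l, η l • u l) = ip a a + ip a (∑ l, η l • u l) := by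
    unfold ip
    rw [← Finset.sum_add_distrib]
    exact Finset.sum_congr rfl fun i _ => by rw [Pi.add_apply, map_add, mul_add]
  rw [h1, ma46_ip_self ha, ma46_conj a (∑ l, η l • u l), ma46_ip_sum hua, map_zero, add_zero]

theorem pair_cv_Pa (hP : SMap n N d P) (ha : OnSphere a) (hua : ∀ l, ip (u l) a = 0) :
    pair (cv fun i => eval a (P i)) (cj (Pa P a u)) = 0 := by
  apply MvPolynomial.funext
  intro x
  rw [map_zero, ← Sum.elim_comp_inl_inr x, eval_pair_cj, ev_cv]
  exact ma46_null hP ha hua _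

theorem pair_Pa_eq_zero (hP : SMap n N d P) (ha : OnSphere a)
    (ha0 : (fun i => eval a (P i)) ≠ 0)
    (hua : ∀ l, ip (u l) a = 0) (huu : ∀ l l', ip (u l) (u l') = if l = l' then 1 else 0)
    (ψ : Fin (N + 1) → R M) (hψ : ψ ∈ Vs P d a u 0) (h : pair ψ (cj ψ) = 0) :
    pair ψ (cj (Pa P a u)) = 0 := by
  have hF0 : Fv P a 0 0 = fun i => eval a (P i) := by
    funext i
    have h1 := sum_Fv hP.deg_le a 0 0 i
    rw [Finset.sum_eq_single 0] at h1
    · simpa using h1
    · intro r _ hr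
      rw [zero_pow hr, mul_zero]
    · intro hr
      exact absurd (Finset.mem_range.2 (Nat.succ_pos d)) hr
  have key : ∀ ξ : Fin M → ℂ, ∃ c : ℂ, ev ψ ξ = c • (fun i => eval a (P i)) := by
    intro ξ
    apply da18_lorentz _ _ ha0
    · have := da07_pol hP a a (ma46_ip_self ha)
      exact this
    · have h1 := ev_mem_span d a u ψ hψ ξ
      generalize ev ψ ξ = w at h1
      induction h1 using Submodule.span_induction with
      | mem y hy =>
        obtain ⟨r, rfl⟩ := hy
        rw [← hF0]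
        exact orth hP ha (ma46_ip_sum hua ξ) (by simp [ip]) (by simp [ip]) r 0
      | zero => simp [hf]
      | add y z _ _ hy hz => rw [da18_add_left, hy, hz, add_zero]
      | smul c y _ hy => rw [da18_smul_left, hy, mul_zero]
    · have h2 := eval_pair_cj ψ ψ ξ (fun l => (starRingEnd ℂ) (ξ l))
      rw [h, map_zero] at h2
      simp only [Complex.conj_conj] at h2
      exact h2.symm
  apply MvPolynomial.funext
  intro x
  rw [map_zero, ← Sum.elim_comp_inl_inr x, eval_pair_cj]
  obtain ⟨c, hc⟩ := key (x ∘ Sum.inl)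
  rw [hc, da18_smul_left, ma46_null hP ha hua, mul_zero]

end Pool.Agent.Lib_helper49.Mac
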