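import Pool.Agent.Lib_helper49.Mac.Defs2

/-!
# Block ma47: separation of exponents
-/

namespace Pool.Agent.Lib_helper49.Mac

open MvPolynomial Pool.Agent.Lib_helper26.Ebe Pool.Agent.Lib_helper26.SOS
open Pool.Agent.Lib_helper49.Dang

theorem ma47_degreeOf_inl {M : ℕ} (p : R M) (l : Fin M) :
    (rename Sum.inl p : A M).degreeOf (Sum.inr l) = 0 := by
  classical
  rw [degreeOf_eq_sup]
  refine Nat.le_zero.mp (Finset.sup_le fun m hm => ?_)
  rw [support_rename_of_injective Sum.inl_injective, Finset.mem_image] at hm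
  obtain ⟨m', _, rfl⟩ := hm
  rw [Finsupp.mapDomain_of_notMem_range]
  rintro ⟨x, hx⟩
  exact Sum.inl_ne_inr hx

theorem degreeOf_pair {M N : ℕ} (ψ h : Fin (N + 1) → R M) (l : Fin M) (D : ℕ)
    (hD : ∀ i, (h i).degreeOf l ≤ D) : (pair ψ h).degreeOf (Sum.inr l) ≤ D := by
  unfold pair
  refine (degreeOf_sum_le _ _ _).trans (Finset.sup_le fun i _ => ?_)
  refine (degreeOf_mul_le _ _ _).trans ?_
  have h1 : (C (sg i) * rename Sum.inl (ψ i) : A M).degreeOf (Sum.inr l) ≤ 0 :=
    (degreeOf_C_mul_le _ _ _).trans (ma47_degreeOf_inl _ _).le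
  have h2 : (rename Sum.inr (h i) : A M).degreeOf (Sum.inr l) = (h i).degreeOf l :=
    degreeOf_rename_of_injective Sum.inr_injective l
  have h3 := hD i
  omega

theorem degreeOf_cj {M N : ℕ} (ψ : Fin (N + 1) → R M) (l : Fin M) (i : Fin (N + 1)) :
    (cj ψ i).degreeOf l ≤ (ψ i).degreeOf l := by
  unfold cj
  rw [degreeOf_eq_sup, degreeOf_eq_sup]
  exact Finset.sup_mono (support_map_subset _ _)

theorem kron {K : ℕ} {ι : Type*} [Fintype ι] (idx : ι → ℕ) (hidx : Function.Injective idx)
    (D : ℕ) (p : ι → A (K + 1)) (hp : ∀ c, (p c).degreeOf (Sum.inr 0) < D)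
    (h : ∑ c, X (Sum.inr 0) ^ (D * idx c) * p c = 0) (c : ι) : p c = 0 := by
  classical
  by_contra hne
  obtain ⟨e, he⟩ := MvPolynomial.ne_zero_iff.mp hne
  have heD : e (Sum.inr 0) < D :=
    (monomial_le_degreeOf (Sum.inr 0) (mem_support_iff.mpr he)).trans_lt (hp c)
  have h1 := congrArg (coeff (Finsupp.single (Sum.inr 0) (D * idx c) + e)) h
  rw [coeff_sum, coeff_zero, Finset.sum_eq_single c] at h1
  · rw [X_pow_eq_monomial, coeff_monomial_mul, one_mul] at h1
    exact he h1
  · intro c' _ hc'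
    rw [X_pow_eq_monomial, coeff_monomial_mul', one_mul]
    split_ifs with hle
    · by_contra hcoeff
      have ht := (monomial_le_degreeOf (Sum.inr 0) (mem_support_iff.mpr hcoeff)).trans_lt (hp c')
      have hle0 := hle (Sum.inr 0)
      simp only [Finsupp.coe_tsub, Finsupp.coe_add, Pi.sub_apply, Pi.add_apply,
        Finsupp.single_eq_same] at ht hle0
      apply hc'
      apply hidx
      rcases lt_trichotomy (idx c') (idx c) with hlt | heq | hgt
      · exfalso
        have : D * (idx c' + 1) ≤ D * idx c := Nat.mul_le_mul le_rfl hlt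
        rw [mul_add, mul_one] at this
        omega
      · exact heq
      · exfalso
        have : D * (idx c + 1) ≤ D * idx c' := Nat.mul_le_mul le_rfl hgt
        rw [mul_add, mul_one] at this
        omega
    · rfl
  · intro hc
    exact absurd (Finset.mem_univ c) hc


end Pool.Agent.Lib_helper49.Mac
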