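import Pool.Agent.Lib_helper49.Mac.Defs2
import Pool.Agent.Lib_helper49.Mac.B10
import Pool.Agent.Lib_helper49.Mac.B16
import Pool.Agent.Lib_helper49.Mac.B22
import Pool.Agent.Lib_helper49.Mac.B41

/-!
# Block ma50: independence
-/

namespace Pool.Agent.Lib_helper49.Mac

open MvPolynomial Pool.Agent.Lib_helper26.Ebe Pool.Agent.Lib_helper26.SOS
open Pool.Agent.Lib_helper49.Dang

section partP

variable {n M N d : ℕ} {P : Fin (N + 1) → MvPolynomial (Fin n) ℂ} {a : Fin n → ℂ}

theorem ma50_sl {M : ℕ} (ξ η : Fin M → ℂ) (f : A M) :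
    eval η (sl ξ f) = eval (Sum.elim ξ η) f := by
  unfold sl
  induction f using MvPolynomial.induction_on with
  | C c => rw [algHom_C, eval_C, algebraMap_eq, eval_C]
  | add p q hp hq => rw [map_add, map_add, map_add, hp, hq]
  | mul_X p i hp =>
    rw [map_mul, map_mul, map_mul, hp, eval_X, aeval_X]
    congr 1
    rcases i with j | j
    · rw [Sum.elim_inl, Sum.elim_inl, eval_C]
    · rw [Sum.elim_inr, Sum.elim_inr, eval_X]

theorem ma50_Pa {M : ℕ} (u : Fin M → Fin n → ℂ) (η : Fin M → ℂ) (i : Fin (N + 1)) :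
    ev (Pa P a u) η i = eval (a + ∑ l, η l • u l) (P i) := by
  unfold ev Pa
  induction P i using MvPolynomial.induction_on with
  | C c => rw [algHom_C, eval_C, algebraMap_eq, eval_C]
  | add p q hp hq => rw [map_add, map_add, map_add, hp, hq]
  | mul_X p j hp =>
    rw [map_mul, map_mul, map_mul, hp, eval_X, aeval_X, map_add, eval_C, map_sum, Pi.add_apply,
      Finset.sum_apply]
    congr 2
    refine Finset.sum_congr rfl fun l _ => ?_
    rw [map_mul, eval_C, eval_X, Pi.smul_apply, smul_eq_mul, mul_comm]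

/-- a vector orthogonal to `P(a + t x)` for all `t` is orthogonal to the span of the Taylor
coefficients -/
theorem ma50_orth (hd : ∀ i, (P i).totalDegree ≤ d) (x : Fin n → ℂ) (v : Fin (N + 1) → ℂ)
    (h : ∀ t : ℂ, hf v (fun i => eval (a + t • x) (P i)) = 0) (r : ℕ) :
    hf v (Fv P a x r) = 0 := by
  by_cases hr : r ≤ d
  · have h1 : ∀ s : ℂ, ∑ r ∈ Finset.range (d + 1), hf v (Fv P a x r) * s ^ r = 0 := by
      intro s
      rw [← h ((starRingEnd ℂ) s)]
      have h2 : (fun i => eval (a + (starRingEnd ℂ) s • x) (P i)) =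
          ∑ r ∈ Finset.range (d + 1), ((starRingEnd ℂ) s) ^ r • Fv P a x r := by
        funext i
        rw [← sum_Fv hd a x ((starRingEnd ℂ) s) i, Finset.sum_apply]
        refine Finset.sum_congr rfl fun r _ => ?_
        rw [Pi.smul_apply, smul_eq_mul, mul_comm]
      rw [h2, da18_sum_right]
      refine Finset.sum_congr rfl fun r _ => ?_
      rw [map_pow, Complex.conj_conj, mul_comm]
    exact da28_coeff d _ h1 r hr
  · have h2 : Fv P a x r = 0 := by
      funext i
      unfold Fv
      rw [Fc_eq_zero hd (not_le.1 hr) i, map_zero]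
      rfl
    rw [h2]
    simp [hf]

theorem ma50_span (v : Fin (N + 1) → ℂ) (S : Set (Fin (N + 1) → ℂ)) (h : ∀ w ∈ S, hf v w = 0)
    (w : Fin (N + 1) → ℂ) (hw : w ∈ Submodule.span ℂ S) : hf v w = 0 := by
  induction hw using Submodule.span_induction with
  | mem x hx => exact h x hx
  | zero => simp [hf]
  | add x y _ _ hx hy =>
    have h1 : hf v (x + y) = hf v x + hf v y := by
      rw [da18_conj, da18_add_left, map_add, ← da18_conj, ← da18_conj]
    rw [h1, hx, hy, add_zero]
  | smul c x _ hx => rw [da18_smul_right, hx, mul_zero]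

/-- Block ma50: independence. -/
theorem P_indep {K : ℕ} {u : Fin (K + 1) → Fin n → ℂ} (hP : SMap n N d P) (ha : OnSphere a)
    (hua : ∀ l, ip (u l) a = 0) (huu : ∀ l l', ip (u l) (u l') = if l = l' then 1 else 0)
    (ξ : Fin (K + 1) → ℂ) {ι : Type*} [Fintype ι] (ψ : ι → Fin (N + 1) → R (K + 1))
    (hψ : ∀ c, ψ c ∈ Vs P d a u 0)
    (hli : LinearIndependent ℂ (fun o : Option ι =>
      o.elim (fun i => eval a (P i)) (fun c => ev (ψ c) ξ))) :
    LinearIndependent (R (K + 1)) (fun c => LL (cj (Pa P a u)) (ψ c)) := by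
  classical
  set h := cj (Pa P a u) with hh
  set u0 : Fin (N + 1) → ℂ := fun i => eval a (P i) with hu0
  have hB : LinearIndependent ℂ (fun c => sl ξ (pair (ψ c) h)) := by
    rw [Fintype.linearIndependent_iff]
    intro β hβ
    set v : Fin (N + 1) → ℂ := ∑ c, β c • ev (ψ c) ξ with hv
    have h1 : ∀ η : Fin (K + 1) → ℂ, hf v (ev (Pa P a u) η) = 0 := by
      intro η
      have h2 := congrArg (eval (fun l => (starRingEnd ℂ) (η l))) hβ
      rw [map_sum, map_zero] at h2
      rw [hv, da18_sum_left, ← h2]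
      refine Finset.sum_congr rfl fun c _ => ?_
      rw [smul_eval, ma50_sl, hh, eval_pair_cj]
      simp only [Complex.conj_conj]
    have h2 : ∀ t : ℂ, hf v (fun i => eval (a + t • ∑ l, ξ l • u l) (P i)) = 0 := by
      intro t
      rw [← h1 (t • ξ)]
      congr 1
      funext i
      rw [ma50_Pa, Finset.smul_sum]
      simp only [Pi.smul_apply, smul_eq_mul, mul_smul]
    have h3 := ma50_orth hP.deg_le (∑ l, ξ l • u l) v h2
    have hvmem : v ∈ Submodule.span ℂ (Set.range (Fv P a (∑ l, ξ l • u l))) :=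
      Submodule.sum_mem _ fun c _ => Submodule.smul_mem _ _ (ev_mem_span d a u (ψ c) (hψ c) ξ)
    have hvv : hf v v = 0 := by
      refine ma50_span v _ ?_ v hvmem
      rintro _ ⟨r, rfl⟩
      exact h3 r
    have hvu : hf v u0 = 0 := by
      rw [← h2 0, zero_smul, add_zero]
    have hu00 : u0 ≠ 0 := hli.ne_zero none
    obtain ⟨c0, hc0⟩ := da18_lorentz u0 v hu00 (hP.null a ha) hvu hvv
    have h4 := (Fintype.linearIndependent_iff.1 hli) (fun o => o.elim (-c0) β) (by
      rw [Fintype.sum_option]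
      simp only [Option.elim]
      rw [← hv, hc0, neg_smul, neg_add_cancel])
    intro c
    exact h4 (some c)
  rw [Fintype.linearIndependent_iff]
  intro p hp c
  have h1 : ∑ c, rename Sum.inl (p c) * pair (ψ c) h = 0 := by
    apply T_injective K
    rw [map_zero, map_sum, ← hp]
    refine Finset.sum_congr rfl fun c _ => ?_
    rw [map_mul, T_inl, LL_apply, smul_eq_C_mul]
  have h2 := indep_of_eval (fun c => pair (ψ c) h) ξ hB p h1
  rw [h2]
  rfl

end partP

end Pool.Agent.Lib_helper49.Mac
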