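import Pool.Agent.Lib_helper49.Mac.Defs2
import Pool.Agent.Lib_helper49.Dang.B03

/-!
# Block ma52: frames avoiding a hypersurface
-/

namespace Pool.Agent.Lib_helper49.Mac

open MvPolynomial Pool.Agent.Lib_helper26.Ebe Pool.Agent.Lib_helper26.SOS
open Pool.Agent.Lib_helper49.Dang

theorem exists_frame {K : ℕ} (hK : 1 ≤ K) (Φ : R (K + 1)) (hΦ : Φ ≠ 0) :
    ∃ b : Fin (K + 1) → Fin (K + 1) → ℂ, (∀ i, eval (b i) Φ ≠ 0) ∧ (∀ i, b i ≠ 0) ∧
      ∀ i j, i ≠ j → ip (b i) (b j) = 0 := by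
  obtain ⟨x, hx⟩ : ∃ x, eval x Φ ≠ 0 := by
    by_contra h
    push Not at h
    exact hΦ (MvPolynomial.funext fun x => by rw [h x, map_zero])
  have hev : ∀ x : Fin (K + 1) → ℂ, eval (Sum.elim (0 : Fin (K + 1) → ℂ) x)
      (rename Sum.inr Φ) = eval x Φ := fun x => by
    rw [eval_rename]
    rfl
  obtain ⟨b, _, h2, h3, h4⟩ := da03_main (rename Sum.inr Φ) (0 : Fin (K + 1) → ℂ) (K + 1) ⊤
    (by rw [finrank_top, Module.finrank_fin_fun]) ⟨x, Submodule.mem_top, by rwa [hev]⟩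
  exact ⟨b, fun i => by rw [← hev]; exact h4 i, h2, h3⟩

end Pool.Agent.Lib_helper49.Mac
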