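import Pool.Agent.Lib_helper49.Mac.Defs2

namespace Pool.Agent.Lib_helper49.Mac

open MvPolynomial Pool.Agent.Lib_helper26.Ebe Pool.Agent.Lib_helper26.SOS
open Pool.Agent.Lib_helper49.Dang

theorem weight_pow {σ : Type*} [Fintype σ] (p G : MvPolynomial σ ℂ) (ω : σ → ℕ)
    (hp : ∀ e : σ →₀ ℕ, coeff e p ≠ 0 → 1 ≤ ∑ i, ω i * e i) (k : ℕ) (e : σ →₀ ℕ)
    (he : coeff e (p ^ k * G) ≠ 0) : k ≤ ∑ i, ω i * e i := by
  classical
  induction k generalizing e with
  | zero => exact Nat.zero_le _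
  | succ k ih =>
    rw [pow_succ', mul_assoc, coeff_mul] at he
    obtain ⟨x, hx, hne⟩ := Finset.exists_ne_zero_of_sum_ne_zero he
    have h1 := hp x.1 (left_ne_zero_of_mul hne)
    have h2 := ih x.2 (right_ne_zero_of_mul hne)
    have h3 : x.1 + x.2 = e := Finset.HasAntidiagonal.mem_antidiagonal.1 hx
    have h4 : ∑ i, ω i * e i = ∑ i, ω i * x.1 i + ∑ i, ω i * x.2 i := by
      rw [← h3, ← Finset.sum_add_distrib]
      refine Finset.sum_congr rfl fun i _ => ?_
      rw [Finsupp.add_apply]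
      ring
    omega

end Pool.Agent.Lib_helper49.Mac
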