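import Pool.Agent.Lib_helper49.Mac.Defs2
import Pool.Agent.Lib_helper49.Mac.B43

/-!
# Block ma54 (helper34): orthogonality of the coefficient vectors
-/

namespace Pool.Agent.Lib_helper49.Mac

open MvPolynomial Pool.Agent.Lib_helper26.Ebe Pool.Agent.Lib_helper26.SOS
open Pool.Agent.Lib_helper49.Dang

section ma54

variable {n M N d : ℕ} {P : Fin (N + 1) → MvPolynomial (Fin n) ℂ} {a : Fin n → ℂ}
  {u : Fin M → Fin n → ℂ}

/-- the substitution `ξ = b_i + ∑ ε_r b_r`, `η = c` -/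
noncomputable def ma54_th (b : Fin M → Fin M → ℂ) (i : Fin M) (c : Fin M → ℂ) : A M →ₐ[ℂ] R M :=
  aeval (Sum.elim (fun l => C (b i l) + ∑ r, C (b r l) * X r) (fun l => C (c l)))

theorem ma54_th_inl (b : Fin M → Fin M → ℂ) (i : Fin M) (c : Fin M → ℂ) (f : R M) :
    ma54_th b i c (rename Sum.inl f) = sft b i f := by
  have h : (ma54_th b i c).comp (rename Sum.inl) = sft b i := by
    refine MvPolynomial.algHom_ext fun j => ?_
    simp [ma54_th, sft]
  exact congrArg (fun φ => φ f) h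

theorem ma54_th_inr (b : Fin M → Fin M → ℂ) (i : Fin M) (c : Fin M → ℂ) (f : R M) :
    ma54_th b i c (rename Sum.inr f) = C (eval c f) := by
  have h : (ma54_th b i c).comp (rename Sum.inr) =
      (Algebra.ofId ℂ (R M)).comp (aeval c : R M →ₐ[ℂ] ℂ) := by
    refine MvPolynomial.algHom_ext fun j => ?_
    simp [ma54_th, Algebra.ofId_apply, MvPolynomial.algebraMap_eq]
  have h1 := congrArg (fun φ => φ f) h
  simp only [AlgHom.comp_apply, Algebra.ofId_apply, MvPolynomial.algebraMap_eq] at h1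
  rw [h1]
  rfl

theorem ma54_th_q (b : Fin M → Fin M → ℂ) (hb : ∀ i j, i ≠ j → ip (b i) (b j) = 0) (i l : Fin M)
    (hil : i ≠ l) :
    ma54_th b i (fun j => (starRingEnd ℂ) (b l j)) (q M) = C (ip (b l) (b l)) * X l := by
  unfold q ma54_th
  rw [map_sum]
  simp only [map_mul, aeval_X, Sum.elim_inl, Sum.elim_inr]
  have h1 : ∀ j : Fin M, (C (b i j) + ∑ r, C (b r j) * X r : R M) *
      C ((starRingEnd ℂ) (b l j)) = C (b i j * (starRingEnd ℂ) (b l j)) +
        ∑ r, C (b r j * (starRingEnd ℂ) (b l j)) * X r := by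
    intro j
    rw [add_mul, Finset.sum_mul, ← C_mul]
    congr 1
    refine Finset.sum_congr rfl fun r _ => ?_
    rw [C_mul]
    ring
  rw [Finset.sum_congr rfl fun j _ => h1 j, Finset.sum_add_distrib, Finset.sum_comm]
  have h2 : ∑ j, (C (b i j * (starRingEnd ℂ) (b l j)) : R M) = 0 := by
    rw [← map_sum]
    have : ∑ j, b i j * (starRingEnd ℂ) (b l j) = ip (b i) (b l) := rfl
    rw [this, hb i l hil, C_0]
  rw [h2, zero_add, Finset.sum_eq_single l]
  · rw [← Finset.sum_mul, ← map_sum]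
    rfl
  · intro r _ hr
    rw [← Finset.sum_mul, ← map_sum]
    have : ∑ j, b r j * (starRingEnd ℂ) (b l j) = ip (b r) (b l) := rfl
    rw [this, hb r l hr, C_0, zero_mul]
  · intro h; exact absurd (Finset.mem_univ l) h

theorem ma54_coeff (l : Fin M) (k : ℕ) (p : R M) (e : Fin M →₀ ℕ) (he : e l < k) :
    coeff e (X l ^ k * p) = 0 := by
  rw [X_pow_eq_monomial, coeff_monomial_mul', if_neg]
  intro h
  have := h l
  rw [Finsupp.single_eq_same] at this
  omega

theorem ma54_conj (f : R M) (v : Fin M → ℂ) :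
    eval (fun j => (starRingEnd ℂ) (v j)) (MvPolynomial.map (starRingEnd ℂ) f) =
      (starRingEnd ℂ) (eval v f) := by
  rw [da07_conj]
  simp

theorem vc_orth_Fs (hM : 2 ≤ M) (hP : SMap n N d P) (b : Fin M → Fin M → ℂ)
    (hb : ∀ i j, i ≠ j → ip (b i) (b j) = 0) (ψ : Fin (N + 1) → R M) (k : ℕ)
    (h : q M ^ k ∣ pair ψ (cj (Pa P a u))) (i l : Fin M) (hil : i ≠ l) (α : Fin M → ℕ)
    (hα : α l < k) (s : ℕ) : hf (vc b i ψ α) (ev (Fs P a u s) (b l)) = 0 := by
  obtain ⟨G, hG⟩ := dvd_pair_Fs hM hP ψ k h s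
  have h1 := congrArg (ma54_th b i (fun j => (starRingEnd ℂ) (b l j))) hG
  rw [map_mul, map_pow, ma54_th_q b hb i l hil, mul_pow] at h1
  have h2 := congrArg (coeff (Finsupp.equivFunOnFinite.symm α)) h1
  have h3 : (C (ip (b l) (b l)) ^ k * X l ^ k *
      ma54_th b i (fun j => (starRingEnd ℂ) (b l j)) G : R M) =
      X l ^ k * (C (ip (b l) (b l)) ^ k *
        ma54_th b i (fun j => (starRingEnd ℂ) (b l j)) G) := by ring
  rw [h3, ma54_coeff l k _ _ (by simpa using hα)] at h2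
  rw [hf_eq_sum, ← h2]
  unfold pair
  rw [map_sum, coeff_sum]
  refine Finset.sum_congr rfl fun t _ => ?_
  rw [map_mul, map_mul, ma54_th_inl, ma54_th_inr]
  have h4 : ma54_th b i (fun j => (starRingEnd ℂ) (b l j)) (C (sg t)) = C (sg t) := by
    have : (C (sg t) : A M) = algebraMap ℂ (A M) (sg t) := rfl
    rw [this, AlgHom.commutes]
    rfl
  have h5 : (C (sg t) * sft b i (ψ t) *
      C (eval (fun j => (starRingEnd ℂ) (b l j)) (cj (Fs P a u s) t)) : R M) =
      C (sg t * eval (fun j => (starRingEnd ℂ) (b l j)) (cj (Fs P a u s) t)) *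
        sft b i (ψ t) := by
    rw [C_mul]; ring
  rw [h4, h5, coeff_C_mul]
  unfold vc ev cj
  rw [ma54_conj]
  ring

theorem vc_orth_u0 (b : Fin M → Fin M → ℂ) (u0 : Fin (N + 1) → ℂ)
    (V : Submodule (R M) (Fin (N + 1) → R M)) (hV : Orth0 u0 V) (ψ : Fin (N + 1) → R M)
    (hψ : ψ ∈ V) (i : Fin M) (α : Fin M → ℕ) : hf (vc b i ψ α) u0 = 0 := by
  have h1 := (orth0_iff u0 ψ).1 (hV ψ hψ)
  have h2 := congrArg (fun f => coeff (Finsupp.equivFunOnFinite.symm α) (sft b i f)) h1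
  simp only [map_zero, coeff_zero, map_sum, map_mul, coeff_sum] at h2
  rw [hf_eq_sum, ← h2]
  refine Finset.sum_congr rfl fun t _ => ?_
  have h4 : ∀ c : ℂ, sft b i (C c) = C c := by
    intro c
    have : (C c : R M) = algebraMap ℂ (R M) c := rfl
    rw [this, AlgHom.commutes]
  rw [h4, h4, ← C_mul, coeff_C_mul]
  unfold vc
  ring

end ma54

end Pool.Agent.Lib_helper49.Mac
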