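import Pool.Agent.Lib_helper49.Mac.Defs2

/-!
# MAC, block ma56: the pairing of the coefficient vectors
-/

namespace Pool.Agent.Lib_helper49.Mac

open MvPolynomial Pool.Agent.Lib_helper26.Ebe Pool.Agent.Lib_helper26.SOS
open Pool.Agent.Lib_helper49.Dang

theorem ma56_ip_ne {M : ℕ} {x : Fin M → ℂ} (hx : x ≠ 0) : ip x x ≠ 0 := by
  intro h
  apply hx
  have h1 : ip x x = ((∑ i, Complex.normSq (x i) : ℝ) : ℂ) := by
    unfold ip
    push_cast
    refine Finset.sum_congr rfl fun i _ => ?_
    rw [Complex.mul_conj]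
  rw [h1] at h
  have h2 : ∑ i, Complex.normSq (x i) = 0 := by exact_mod_cast h
  rw [Finset.sum_eq_zero_iff_of_nonneg (fun i _ => Complex.normSq_nonneg _)] at h2
  funext i
  exact Complex.normSq_eq_zero.mp (h2 i (Finset.mem_univ i))

/-- `x ↦ b_i + ∑ ε_r b_r`, `w ↦ ` the point with coordinates `y`; the variables `ε` are outer,
the variables `y` are in the coefficients -/
noncomputable def ma56Phi {M : ℕ} (b : Fin M → Fin M → ℂ) (i : Fin M) :
    A M →ₐ[ℂ] MvPolynomial (Fin M) (R M) :=
  aeval (Sum.elim (fun l => C (C (b i l)) + ∑ r, C (C (b r l)) * X r)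
    (fun l => C (∑ r ∈ Finset.univ.erase i,
      C ((starRingEnd ℂ) (b r l) / (ip (b r) (b r))) * X r)))

theorem ma56_inl {M : ℕ} (b : Fin M → Fin M → ℂ) (i : Fin M) (p : R M) :
    ma56Phi b i (rename Sum.inl p) = MvPolynomial.map C (sft b i p) := by
  induction p using MvPolynomial.induction_on with
  | C a =>
    rw [rename_C]
    have h1 : (C a : A M) = algebraMap ℂ (A M) a := rfl
    have h2 : (C a : R M) = algebraMap ℂ (R M) a := rfl
    rw [h1, AlgHom.commutes, h2, AlgHom.commutes]
    show _ = MvPolynomial.map C (C a)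
    rw [map_C]
    rfl
  | add p q hp hq => simp only [map_add, hp, hq]
  | mul_X p l hp =>
    simp only [map_mul, hp, rename_X]
    congr 1
    unfold ma56Phi sft
    rw [aeval_X, aeval_X]
    simp

theorem ma56_inr {M : ℕ} (b : Fin M → Fin M → ℂ) (i : Fin M) (p : R M) :
    ma56Phi b i (rename Sum.inr p) = C (ycoord b i p) := by
  induction p using MvPolynomial.induction_on with
  | C a =>
    rw [rename_C]
    have h1 : (C a : A M) = algebraMap ℂ (A M) a := rfl
    have h2 : (C a : R M) = algebraMap ℂ (R M) a := rfl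
    rw [h1, AlgHom.commutes, h2, AlgHom.commutes]
    rfl
  | add p q hp hq => simp only [map_add, hp, hq]
  | mul_X p l hp =>
    simp only [map_mul, hp, rename_X]
    congr 1
    unfold ma56Phi ycoord
    rw [aeval_X, aeval_X]
    simp

theorem ma56_Phi_inl {M : ℕ} (b : Fin M → Fin M → ℂ) (i l : Fin M) :
    ma56Phi b i (X (Sum.inl l)) = C (C (b i l)) + ∑ r, C (C (b r l)) * X r := by
  unfold ma56Phi
  rw [aeval_X, Sum.elim_inl]

theorem ma56_Phi_inr {M : ℕ} (b : Fin M → Fin M → ℂ) (i l : Fin M) :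
    ma56Phi b i (X (Sum.inr l)) = C (∑ r ∈ Finset.univ.erase i,
      C ((starRingEnd ℂ) (b r l) / (ip (b r) (b r))) * X r) := by
  unfold ma56Phi
  rw [aeval_X, Sum.elim_inr]

theorem ma56_zero_X {M : ℕ} (b : Fin M → Fin M → ℂ) (i : Fin M) (l : Fin M ⊕ Fin M) :
    constantCoeff (ma56Phi b i (X l)) = ycoord b i (sl (b i) (X l)) := by
  rcases l with l | l
  · rw [ma56_Phi_inl, map_add, constantCoeff_C, map_sum]
    have h2 : ∑ r, constantCoeff (C (C (b r l)) * X r : MvPolynomial (Fin M) (R M)) = 0 :=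
      Finset.sum_eq_zero fun r _ => by rw [map_mul, constantCoeff_X, mul_zero]
    rw [h2, add_zero]
    unfold sl
    rw [aeval_X, Sum.elim_inl]
    have h3 : (C (b i l) : MvPolynomial (Fin M) ℂ) = algebraMap ℂ (R M) (b i l) := rfl
    rw [h3, AlgHom.commutes]
  · rw [ma56_Phi_inr, constantCoeff_C]
    unfold sl ycoord
    rw [aeval_X, Sum.elim_inr, aeval_X]

/-- the constant term in `ε` -/
theorem ma56_zero {M : ℕ} (b : Fin M → Fin M → ℂ) (i : Fin M) (G : A M) :
    constantCoeff (ma56Phi b i G) = ycoord b i (sl (b i) G) := by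
  induction G using MvPolynomial.induction_on with
  | C a =>
    have h1 : (C a : A M) = algebraMap ℂ (A M) a := rfl
    rw [h1, AlgHom.commutes, AlgHom.commutes, AlgHom.commutes]
    have h3 : (algebraMap ℂ (MvPolynomial (Fin M) (R M)) a) = C (C a) := rfl
    rw [h3, constantCoeff_C]
    rfl
  | add p q hp hq => simp only [map_add, hp, hq]
  | mul_X p l hp =>
    rw [map_mul, map_mul, map_mul, map_mul, hp, ma56_zero_X b i l]

/-- the form `q` -/
theorem ma56_q {M : ℕ} (b : Fin M → Fin M → ℂ) (hb : ∀ i j, i ≠ j → ip (b i) (b j) = 0)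
    (hb0 : ∀ i, b i ≠ 0) (i : Fin M) :
    ma56Phi b i (q M) = ∑ s, C (if s = i then (0 : R M) else X s) * X s := by
  unfold q
  rw [map_sum]
  have h1 : ∀ l : Fin M, ma56Phi b i (X (Sum.inl l) * X (Sum.inr l)) =
      ∑ s ∈ Finset.univ.erase i, (C (C (b i l * (starRingEnd ℂ) (b s l) / ip (b s) (b s)) * X s) +
        ∑ r, C (C (b r l * (starRingEnd ℂ) (b s l) / ip (b s) (b s)) * X s) * X r) := by
    intro l
    rw [map_mul, ma56_Phi_inl, ma56_Phi_inr, map_sum, Finset.mul_sum]
    refine Finset.sum_congr rfl fun s _ => ?_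
    rw [add_mul, Finset.sum_mul]
    have e1 : ∀ r : Fin M, (C (C (b r l * (starRingEnd ℂ) (b s l) / ip (b s) (b s)) * X s : R M) :
        MvPolynomial (Fin M) (R M)) =
        C (C (b r l)) * C (C ((starRingEnd ℂ) (b s l) / (ip (b s) (b s))) * X s) := by
      intro r
      rw [← C_mul, ← mul_assoc, ← C_mul, mul_div_assoc]
    have e2 : ∀ r : Fin M, (C (C (b r l)) * X r : MvPolynomial (Fin M) (R M)) *
        C (C ((starRingEnd ℂ) (b s l) / (ip (b s) (b s))) * X s) =
        C (C (b r l * (starRingEnd ℂ) (b s l) / ip (b s) (b s)) * X s) * X r := by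
      intro r
      rw [e1 r]
      ring
    rw [← e1 i, Finset.sum_congr rfl fun r _ => e2 r]
  rw [Finset.sum_congr rfl fun l _ => h1 l, Finset.sum_comm]
  have h2 : ∀ s ∈ Finset.univ.erase i, ∑ l : Fin M,
      (C (C (b i l * (starRingEnd ℂ) (b s l) / ip (b s) (b s)) * X s : R M) +
        ∑ r, C (C (b r l * (starRingEnd ℂ) (b s l) / ip (b s) (b s)) * X s) * X r :
          MvPolynomial (Fin M) (R M)) = C (X s) * X s := by
    intro s hs
    have hsi : i ≠ s := (Finset.ne_of_mem_erase hs).symm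
    rw [Finset.sum_add_distrib, Finset.sum_comm]
    have h3 : ∀ r : Fin M, ∑ l : Fin M,
        (C (C (b r l * (starRingEnd ℂ) (b s l) / ip (b s) (b s)) * X s : R M) :
          MvPolynomial (Fin M) (R M)) = C (C (ip (b r) (b s) / ip (b s) (b s)) * X s) := by
      intro r
      rw [← map_sum, ← Finset.sum_mul, ← map_sum, ← Finset.sum_div]
      rfl
    rw [h3 i, hb i s hsi]
    have h4 : ∀ r : Fin M, ∑ l : Fin M,
        C (C (b r l * (starRingEnd ℂ) (b s l) / ip (b s) (b s)) * X s : R M) * X r =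
        (C (C (ip (b r) (b s) / ip (b s) (b s)) * X s) * X r : MvPolynomial (Fin M) (R M)) := by
      intro r
      rw [← Finset.sum_mul, h3 r]
    rw [Finset.sum_congr rfl fun r _ => h4 r]
    rw [Finset.sum_eq_single s]
    · rw [div_self (ma56_ip_ne (hb0 s))]
      simp
    · intro r _ hr
      rw [hb r s hr]
      simp
    · intro h
      exact absurd (Finset.mem_univ s) h
  rw [Finset.sum_congr rfl h2]
  rw [← Finset.sum_erase_add _ _ (Finset.mem_univ i)]
  simp only [if_true, map_zero, zero_mul, add_zero]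
  refine Finset.sum_congr rfl fun s hs => ?_
  rw [if_neg (Finset.ne_of_mem_erase hs)]

/-- the coefficient of a power of a linear form times a polynomial -/
theorem ma56_coeff {M k : ℕ} {S : Type*} [CommRing S] (c : Fin M → S)
    (P : MvPolynomial (Fin M) S) (α : Fin M → ℕ) (hα : ∑ r, α r = k) :
    coeff (Finsupp.equivFunOnFinite.symm α) ((∑ s, C (c s) * X s) ^ k * P) =
      (Nat.multinomial Finset.univ α : S) * (∏ s, c s ^ α s) * constantCoeff P := by
  classical
  rw [Finset.sum_pow_eq_sum_piAntidiag, Finset.sum_mul, coeff_sum]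
  have h1 : ∀ β ∈ Finset.piAntidiag (Finset.univ : Finset (Fin M)) k,
      coeff (Finsupp.equivFunOnFinite.symm α)
        (((Nat.multinomial Finset.univ β : MvPolynomial (Fin M) S) *
          ∏ s, (C (c s) * X s) ^ β s) * P) =
      if β = α then (Nat.multinomial Finset.univ α : S) * (∏ s, c s ^ α s) * constantCoeff P
        else 0 := by
    intro β hβ
    rw [Finset.mem_piAntidiag] at hβ
    have h2 : (Nat.multinomial Finset.univ β : MvPolynomial (Fin M) S) *
          ∏ s, (C (c s) * X s) ^ β s =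
        monomial (Finsupp.equivFunOnFinite.symm β)
          ((Nat.multinomial Finset.univ β : S) * ∏ s, c s ^ β s) := by
      rw [Finset.prod_congr rfl fun s _ => mul_pow (C (c s) : MvPolynomial (Fin M) S) (X s) (β s),
        Finset.prod_mul_distrib]
      rw [MvPolynomial.monomial_eq, Finsupp.prod_fintype _ _ (fun s => by simp)]
      simp only [Finsupp.equivFunOnFinite_symm_apply_apply, map_mul, map_prod, map_pow, map_natCast]
      ring
    rw [h2, coeff_monomial_mul']
    by_cases hba : β = α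
    · rw [if_pos hba, hba, if_pos le_rfl, tsub_self]
      rfl
    · rw [if_neg hba, if_neg]
      intro hle
      apply hba
      have h3 : ∀ s, β s ≤ α s := fun s => by
        have := hle s
        simpa using this
      have h4 : ∑ s, β s = ∑ s, α s := by rw [hβ.1, hα]
      funext s
      exact (Finset.sum_eq_sum_iff_of_le (fun s _ => h3 s)).mp h4 s (Finset.mem_univ s)
  rw [Finset.sum_congr rfl h1, Finset.sum_ite_eq' _ α, if_pos]
  rw [Finset.mem_piAntidiag]
  exact ⟨hα, fun i _ => Finset.mem_univ i⟩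

/-- Block ma56: the pairing of the coefficient vectors. Uses ma41. -/
theorem vc_pair {M N : ℕ} (b : Fin M → Fin M → ℂ) (hb : ∀ i j, i ≠ j → ip (b i) (b j) = 0)
    (hb0 : ∀ i, b i ≠ 0) (ψ h : Fin (N + 1) → R M) (k : ℕ) (G : A M)
    (hG : pair ψ h = q M ^ k * G) (i : Fin M) (α : Fin M → ℕ) (hα : ∑ r, α r = k)
    (hαi : α i = 0) :
    ∑ t, C (sg t * vc b i ψ α t) * ycoord b i (h t) =
      C (Nat.multinomial Finset.univ α : ℂ) *
        monomial (Finsupp.equivFunOnFinite.symm α) 1 * ycoord b i (sl (b i) G) := by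
  have h1 : coeff (Finsupp.equivFunOnFinite.symm α) (ma56Phi b i (pair ψ h)) =
      coeff (Finsupp.equivFunOnFinite.symm α) (ma56Phi b i (q M ^ k * G)) := by rw [hG]
  rw [map_mul, map_pow, ma56_q b hb hb0 i, ma56_coeff _ _ α hα, ma56_zero] at h1
  have h2 : coeff (Finsupp.equivFunOnFinite.symm α) (ma56Phi b i (pair ψ h)) =
      ∑ t, C (sg t * vc b i ψ α t) * ycoord b i (h t) := by
    unfold pair
    rw [map_sum, coeff_sum]
    refine Finset.sum_congr rfl fun t _ => ?_
    rw [map_mul, map_mul, ma56_inl, ma56_inr, mul_comm _ (C (ycoord b i (h t))), coeff_C_mul]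
    have h3 : (C (sg t) : A M) = algebraMap ℂ (A M) (sg t) := rfl
    rw [h3, AlgHom.commutes]
    have h4 : (algebraMap ℂ (MvPolynomial (Fin M) (R M)) (sg t)) = C (C (sg t)) := rfl
    rw [h4, coeff_C_mul, coeff_map, C_mul, mul_comm]
    rfl
  rw [← h2, h1]
  have h5 : (∏ s, (if s = i then (0 : R M) else X s) ^ α s) =
      monomial (Finsupp.equivFunOnFinite.symm α) (1 : ℂ) := by
    rw [MvPolynomial.monomial_eq, Finsupp.prod_fintype _ _ (fun s => by simp), map_one, one_mul]
    refine Finset.prod_congr rfl fun s _ => ?_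
    simp only [Finsupp.equivFunOnFinite_symm_apply_apply]
    by_cases hs : s = i
    · rw [hs, hαi, pow_zero, pow_zero]
    · rw [if_neg hs]
  rw [h5, ← map_natCast (C : ℂ →+* R M)]

end Pool.Agent.Lib_helper49.Mac
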