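import Pool.Agent.Lib_helper49.Mac.Defs2
import Pool.Agent.Lib_helper49.Mac.B10

/-!
# Block ma57: independence of the leading forms at a frame vector
-/

namespace Pool.Agent.Lib_helper49.Mac

open MvPolynomial Pool.Agent.Lib_helper26.Ebe Pool.Agent.Lib_helper26.SOS
open Pool.Agent.Lib_helper49.Dang

/-- expansion in an orthogonal frame -/
theorem ma57_expand {M : ℕ} (b : Fin M → Fin M → ℂ)
    (hb : ∀ i j, i ≠ j → ip (b i) (b j) = 0) (hb0 : ∀ i, ip (b i) (b i) ≠ 0)
    (W : Fin M → ℂ) (l : Fin M) :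
    W l = ∑ r, (∑ m, b r m * W m) * ((starRingEnd ℂ) (b r l) / (ip (b r) (b r))) := by
  classical
  set B : Matrix (Fin M) (Fin M) ℂ := Matrix.of fun r m => b r m with hB
  set C' : Matrix (Fin M) (Fin M) ℂ :=
    Matrix.of fun l r => (starRingEnd ℂ) (b r l) / (ip (b r) (b r)) with hC
  have h1 : B * C' = 1 := by
    ext r r'
    rw [Matrix.mul_apply]
    simp only [hB, hC, Matrix.of_apply]
    have h2 : ∑ m, b r m * ((starRingEnd ℂ) (b r' m) / ip (b r') (b r')) =
        ip (b r) (b r') / ip (b r') (b r') := by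
      unfold ip
      rw [Finset.sum_div]
      exact Finset.sum_congr rfl fun m _ => by ring
    rw [h2]
    by_cases h : r = r'
    · subst h
      rw [Matrix.one_apply_eq, div_self (hb0 r)]
    · rw [hb r r' h, zero_div, Matrix.one_apply_ne h]
  have h3 : C' * B = 1 := mul_eq_one_comm.1 h1
  have h4 : (C' * B).mulVec W = W := by rw [h3, Matrix.one_mulVec]
  have h5 := congrFun h4 l
  rw [← Matrix.mulVec_mulVec] at h5
  rw [← h5]
  simp only [Matrix.mulVec, dotProduct, hB, hC, Matrix.of_apply]
  exact Finset.sum_congr rfl fun r _ => by ring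

theorem ma57_ip_ne {M : ℕ} {v : Fin M → ℂ} (hv : v ≠ 0) : ip v v ≠ 0 := by
  intro h
  apply hv
  unfold ip at h
  have h1 : ∀ i, v i * (starRingEnd ℂ) (v i) = ((Complex.normSq (v i) : ℝ) : ℂ) :=
    fun i => Complex.mul_conj _
  rw [Finset.sum_congr rfl fun i _ => h1 i, ← Complex.ofReal_sum, Complex.ofReal_eq_zero,
    Finset.sum_eq_zero_iff_of_nonneg fun i _ => Complex.normSq_nonneg _] at h
  funext i
  exact Complex.normSq_eq_zero.1 (h i (Finset.mem_univ i))

/-- the value of `ycoord` -/
theorem ma57_ycoord {K : ℕ} (b : Fin (K + 1) → Fin (K + 1) → ℂ)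
    (hb : ∀ i j, i ≠ j → ip (b i) (b j) = 0) (hb0 : ∀ i, b i ≠ 0) (i : Fin (K + 1))
    (W : Fin (K + 1) → ℂ) (hW : ∑ l, b i l * W l = 0) (g : R (K + 1))
    (hg : ycoord b i g = 0) : eval W g = 0 := by
  have h1 : eval (fun r => ∑ m, b r m * W m) (ycoord b i g) = eval W g := by
    unfold ycoord
    have h2 : ((aeval (R := ℂ) (fun r => ∑ m, b r m * W m)).comp
        (aeval fun l => ∑ r ∈ Finset.univ.erase i,
          C ((starRingEnd ℂ) (b r l) / (ip (b r) (b r))) * X r) :
        R (K + 1) →ₐ[ℂ] ℂ) = aeval W := by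
      apply MvPolynomial.algHom_ext
      intro l
      rw [AlgHom.comp_apply, aeval_X, aeval_X, map_sum]
      have h3 := ma57_expand b hb (fun i => ma57_ip_ne (hb0 i)) W l
      rw [← Finset.add_sum_erase _ _ (Finset.mem_univ i), hW, zero_mul, zero_add] at h3
      rw [h3]
      refine Finset.sum_congr rfl fun r _ => ?_
      rw [map_mul, aeval_X, aeval_C]
      simp only [Algebra.algebraMap_self, RingHom.id_apply]
      ring
    have h4 := AlgHom.congr_fun h2 g
    rw [AlgHom.comp_apply] at h4
    simpa [coe_aeval_eq_eval] using h4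
  rw [← h1, hg, map_zero]

/-- evaluation at `x = ξ`, `z = 0` -/
noncomputable def ma57_ev {K : ℕ} (ξ : Fin (K + 1) → ℂ) (w : Fin K → ℂ) :
    MvPolynomial (Fin (K + 1)) (R (K + 1)) →+* ℂ :=
  eval₂Hom (eval ξ) (Fin.cases 0 w)

theorem ma57_ev_T {K : ℕ} (ξ : Fin (K + 1) → ℂ) (w : Fin K → ℂ) (G : A (K + 1)) :
    ma57_ev ξ w (T K G) = eval (Fin.cases (-∑ j : Fin K, ξ j.succ * w j)
      (fun j => ξ 0 * w j) : Fin (K + 1) → ℂ) (sl ξ G) := by
  have h : (ma57_ev ξ w).comp (T K : A (K + 1) →+* MvPolynomial (Fin (K + 1)) (R (K + 1))) =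
      (eval (Fin.cases (-∑ j : Fin K, ξ j.succ * w j)
      (fun j => ξ 0 * w j) : Fin (K + 1) → ℂ)).comp (sl ξ : A (K + 1) →+* R (K + 1)) := by
    apply MvPolynomial.ringHom_ext
    · intro r
      rw [RingHom.comp_apply, RingHom.comp_apply]
      have h1 : (C r : A (K + 1)) = algebraMap ℂ (A (K + 1)) r := rfl
      rw [h1, RingHom.coe_coe, RingHom.coe_coe, AlgHom.commutes, AlgHom.commutes]
      have h2 : algebraMap ℂ (MvPolynomial (Fin (K + 1)) (R (K + 1))) r = C (C r) := rfl
      have h3 : algebraMap ℂ (R (K + 1)) r = C r := rfl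
      rw [h2, h3, eval_C]
      unfold ma57_ev
      rw [coe_eval₂Hom, eval₂_C, eval_C]
    · intro i
      rw [RingHom.comp_apply, RingHom.comp_apply, RingHom.coe_coe, RingHom.coe_coe]
      rcases i with l | l
      · rw [ma10_T_inl_X]
        unfold ma57_ev sl
        rw [coe_eval₂Hom, eval₂_C, eval_X, aeval_X, Sum.elim_inl, eval_C]
      · refine Fin.cases ?_ (fun j => ?_) l
        · rw [ma10_T_inr_zero, map_sub, map_sum]
          have h3 : ∀ j : Fin K, ma57_ev ξ w (C (X j.succ) * X j.succ) =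
              ξ j.succ * w j := by
            intro j
            rw [map_mul]
            unfold ma57_ev
            rw [coe_eval₂Hom, eval₂_C, eval₂_X, eval_X]
            rfl
          have h4 : ma57_ev ξ w (X 0) = 0 := by
            unfold ma57_ev
            rw [coe_eval₂Hom, eval₂_X]
            rfl
          rw [Finset.sum_congr rfl fun j _ => h3 j, h4]
          unfold sl
          rw [aeval_X, Sum.elim_inr, eval_X]
          simp
        · rw [ma10_T_inr_succ, map_mul]
          unfold ma57_ev sl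
          rw [coe_eval₂Hom, eval₂_C, eval₂_X, eval_X, aeval_X, Sum.elim_inr, eval_X]
          rfl
  have h2 := RingHom.congr_fun h G
  exact h2

theorem ma57_coeff_zero {K : ℕ} (ξ : Fin (K + 1) → ℂ) (H : MvPolynomial (Fin (K + 1)) (R (K + 1)))
    (h : ∀ w : Fin K → ℂ, ma57_ev ξ w H = 0) (f : Fin (K + 1) →₀ ℕ) (hf : f 0 = 0) :
    eval ξ (coeff f H) = 0 := by
  -- the polynomial with coefficients evaluated at `ξ` and `z = 0`
  have h1 : ∀ w : Fin K → ℂ, eval w (aeval (Fin.cases 0 X : Fin (K + 1) → MvPolynomial (Fin K) ℂ)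
      (map (eval ξ) H)) = 0 := by
    intro w
    rw [← h w]
    unfold ma57_ev
    rw [coe_eval₂Hom, aeval_def, ← coe_eval₂Hom, MvPolynomial.eval₂Hom_map_hom,
      ← RingHom.comp_apply, MvPolynomial.comp_eval₂Hom, coe_eval₂Hom]
    congr 1
    · ext r
      · simp
      · simp
    · funext l
      refine Fin.cases ?_ (fun j => ?_) l
      · simp
      · simp
  have h2 : aeval (Fin.cases 0 X : Fin (K + 1) → MvPolynomial (Fin K) ℂ)
      (map (eval ξ) H) = 0 := by
    apply MvPolynomial.funext
    intro w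
    rw [h1 w, map_zero]
  have h3 : ∀ (Q : MvPolynomial (Fin (K + 1)) ℂ) (f : Fin (K + 1) →₀ ℕ), f 0 = 0 →
      coeff (Finsupp.tail f) (aeval (Fin.cases 0 X : Fin (K + 1) → MvPolynomial (Fin K) ℂ) Q) =
        coeff f Q := by
    intro Q f hf
    induction Q using MvPolynomial.induction_on' with
    | monomial e a =>
      rw [aeval_monomial, coeff_monomial]
      have h4 : (e.prod fun l k => (Fin.cases 0 X : Fin (K + 1) → MvPolynomial (Fin K) ℂ) l ^ k) =
          (0 : MvPolynomial (Fin K) ℂ) ^ (e 0) * monomial (Finsupp.tail e) 1 := by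
        rw [Finsupp.prod_fintype _ _ (fun l => pow_zero _), Fin.prod_univ_succ]
        congr 1
        rw [MvPolynomial.monomial_eq, C_1, one_mul,
          Finsupp.prod_fintype _ _ (fun l => pow_zero _)]
        rfl
      rw [h4]
      by_cases he : e 0 = 0
      · rw [he, pow_zero, one_mul]
        have h5 : algebraMap ℂ (MvPolynomial (Fin K) ℂ) a = C a := rfl
        rw [h5, coeff_C_mul, coeff_monomial]
        by_cases hef : e = f
        · subst hef
          simp
        · have h6 : Finsupp.tail e ≠ Finsupp.tail f := by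
            intro h7
            apply hef
            ext l
            refine Fin.cases ?_ (fun j => ?_) l
            · rw [he, hf]
            · have := DFunLike.congr_fun h7 j
              simpa [Finsupp.tail_apply] using this
          rw [if_neg h6, if_neg hef, mul_zero]
      · rw [zero_pow he, zero_mul, mul_zero, coeff_zero]
        have hef : e ≠ f := by
          intro h7
          rw [h7] at he
          exact he hf
        rw [if_neg hef]
    | add p q hp hq => rw [map_add, coeff_add, coeff_add, hp, hq]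
  have h4 := h3 (map (eval ξ) H) f hf
  rw [h2, coeff_zero, coeff_map] at h4
  exact h4.symm

theorem indep_lead {K : ℕ} (b : Fin (K + 1) → Fin (K + 1) → ℂ)
    (hb : ∀ i j, i ≠ j → ip (b i) (b j) = 0) (hb0 : ∀ i, b i ≠ 0) (i : Fin (K + 1))
    (hi0 : b i 0 ≠ 0) {ι : Type*} [Fintype ι] (U G : ι → A (K + 1)) (k : ℕ)
    (hG : ∀ c, U c = q (K + 1) ^ k * G c) (e : ι → Fin (K + 1) → ℕ)
    (he : Function.Injective e) (hlow : ∀ c, IsLow (T K (U c)) (e c)) (hek : ∀ c, e c 0 = k)
    (hc : ∀ c, eval (b i) (coeff (Finsupp.equivFunOnFinite.symm (e c)) (T K (U c))) ≠ 0) :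
    LinearIndependent ℂ (fun c => ycoord b i (sl (b i) (G c))) := by
  classical
  rw [Fintype.linearIndependent_iff]
  intro lam hlam
  by_contra hne
  push Not at hne
  -- the coefficients of `T (U c)` and `T (G c)`
  have hTU : ∀ c, T K (U c) = C (X 0 ^ k) * (X 0 ^ k * T K (G c)) := by
    intro c
    rw [hG c, map_mul, map_pow, T_q, mul_pow, C_pow]
    ring
  set f : ι → Fin (K + 1) →₀ ℕ := fun c =>
    Finsupp.equivFunOnFinite.symm (e c) - Finsupp.single 0 k with hf
  have hfe : ∀ c, Finsupp.single 0 k + f c = Finsupp.equivFunOnFinite.symm (e c) := by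
    intro c
    rw [hf]
    apply add_tsub_cancel_of_le
    rw [Finsupp.single_le_iff]
    exact (hek c).ge
  have hf0 : ∀ c, f c 0 = 0 := by
    intro c
    simp only [hf]
    rw [Finsupp.tsub_apply, Finsupp.single_eq_same, Finsupp.equivFunOnFinite_symm_apply_apply,
      hek c, Nat.sub_self]
  have hco : ∀ c c', coeff (Finsupp.equivFunOnFinite.symm (e c)) (T K (U c')) =
      X 0 ^ k * coeff (f c) (T K (G c')) := by
    intro c c'
    have key : ∀ (Q : MvPolynomial (Fin (K + 1)) (R (K + 1))) (g : Fin (K + 1) →₀ ℕ),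
        coeff (Finsupp.single 0 k + g) (X 0 ^ k * Q) = coeff g Q := by
      intro Q g
      rw [X_pow_eq_monomial, coeff_monomial_mul, one_mul]
    rw [hTU c', coeff_C_mul, ← hfe c, key]
  -- minimal index
  obtain ⟨c₀, hc₀⟩ := hne
  obtain ⟨c, hcs, hmin⟩ := Finset.exists_min_image (Finset.univ.filter fun c => lam c ≠ 0)
    (fun c => toLex (e c)) ⟨c₀, by simpa using hc₀⟩
  rw [Finset.mem_filter] at hcs
  -- the polynomial
  set GG : A (K + 1) := ∑ c, C (lam c) * G c with hGG
  have hT : T K GG = ∑ c, C (C (lam c)) * T K (G c) := by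
    rw [hGG, map_sum]
    refine Finset.sum_congr rfl fun c _ => ?_
    rw [map_mul]
    congr 1
    have h1 : (C (lam c) : A (K + 1)) = algebraMap ℂ (A (K + 1)) (lam c) := rfl
    rw [h1, AlgHom.commutes]
    rfl
  have hy : ycoord b i (sl (b i) GG) = 0 := by
    rw [← hlam, hGG, map_sum, map_sum]
    refine Finset.sum_congr rfl fun c _ => ?_
    have h1 : (C (lam c) : A (K + 1)) * G c = lam c • G c := by
      rw [MvPolynomial.smul_eq_C_mul]
    rw [h1, map_smul, map_smul]
  have hev : ∀ w : Fin K → ℂ, ma57_ev (b i) w (T K GG) = 0 := by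
    intro w
    rw [ma57_ev_T]
    apply ma57_ycoord b hb hb0 i _ _ _ hy
    rw [Fin.sum_univ_succ]
    simp only [Fin.cases_zero, Fin.cases_succ]
    rw [mul_neg, Finset.mul_sum, neg_add_eq_zero]
    exact Finset.sum_congr rfl fun j _ => by ring
  have h0 := ma57_coeff_zero (b i) (T K GG) hev (f c) (hf0 c)
  rw [hT, coeff_sum, map_sum] at h0
  rw [Finset.sum_eq_single c] at h0
  · rw [coeff_C_mul, map_mul, eval_C] at h0
    rcases mul_eq_zero.1 h0 with h | h
    · exact hcs.2 h
    · apply hc c
      rw [hco c c, map_mul, h, mul_zero]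
  · intro c' _ hcc'
    rw [coeff_C_mul]
    by_cases hl : lam c' = 0
    · rw [hl, C_0, zero_mul, map_zero]
    · have h1 : coeff (f c) (T K (G c')) = 0 := by
        by_contra h2
        have h3 : coeff (Finsupp.equivFunOnFinite.symm (e c)) (T K (U c')) ≠ 0 := by
          rw [hco c c']
          exact mul_ne_zero (pow_ne_zero _ (X_ne_zero _)) h2
        have h4 := (hlow c').2 _ h3
        have h5 := hmin c' (by rw [Finset.mem_filter]; exact ⟨Finset.mem_univ _, hl⟩)
        have h6 : toLex (e c') ≤ toLex (e c) := h4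
        have h7 := le_antisymm h6 h5
        exact hcc' (he (toLex.injective h7))
      rw [h1, mul_zero, map_zero]
  · intro h
    exact absurd (Finset.mem_univ c) h

end Pool.Agent.Lib_helper49.Mac
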