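import Pool.Agent.Lib_helper49.Mac.Defs2

/-! Block ma58: orthogonal families of different size in the orthogonal complement of a null
vector -/

namespace Pool.Agent.Lib_helper49.Mac

open MvPolynomial Pool.Agent.Lib_helper26.Ebe Pool.Agent.Lib_helper26.SOS
open Pool.Agent.Lib_helper49.Dang

variable {N : ℕ}

theorem dim_sum {κ : ℕ} (ι : Fin κ → Type) [∀ k, Fintype (ι k)] (u0 : Fin (N + 1) → ℂ)
    (v : ∀ k, ι k → Fin (N + 1) → ℂ) (hu : hf u0 u0 = 0) (hκ : 1 ≤ κ)
    (hv : ∀ k a, hf (v k a) u0 = 0)
    (hort : ∀ k l, k ≠ l → ∀ a b, hf (v k a) (v l b) = 0)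
    (hli : ∀ k, LinearIndependent ℂ (fun o : Option (ι k) => o.elim u0 (v k))) :
    ∑ k, Fintype.card (ι k) + 1 ≤ N := by
  classical
  have hu0 : u0 ≠ 0 := by
    have := (hli ⟨0, hκ⟩).ne_zero none
    simpa using this
  have h0 : u0 0 ≠ 0 := fun h => hu0 (da18_zero u0 h hu)
  -- the family
  set fam : Unit ⊕ (Σ k, ι k) → Fin (N + 1) → ℂ :=
    Sum.elim (fun _ => u0) (fun p => v p.1 p.2) with hfam
  have hLI : LinearIndependent ℂ fam := by
    rw [Fintype.linearIndependent_iff]
    intro g hg
    rw [Fintype.sum_sum_type, Fintype.sum_sigma] at hg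
    simp only [hfam, Sum.elim_inl, Sum.elim_inr, Finset.univ_unique, Finset.sum_singleton] at hg
    set w : Fin κ → Fin (N + 1) → ℂ := fun k => ∑ a, g (Sum.inr ⟨k, a⟩) • v k a with hw
    have hwu : ∀ k, hf (w k) u0 = 0 := by
      intro k
      rw [hw]
      simp only
      rw [da18_sum_left]
      exact Finset.sum_eq_zero fun a _ => by rw [hv, mul_zero]
    have hww : ∀ k l, k ≠ l → hf (w k) (w l) = 0 := by
      intro k l hkl
      rw [hw]
      simp only
      rw [da18_sum_left]
      refine Finset.sum_eq_zero fun a _ => ?_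
      rw [da18_sum_right, Finset.sum_eq_zero, mul_zero]
      intro b _
      rw [hort k l hkl, mul_zero]
    have hkk : ∀ k, hf (w k) (w k) = 0 := by
      intro k
      have e1 : hf (w k) (∑ l, (1 : ℂ) • w l) = hf (w k) (w k) := by
        rw [da18_sum_right, Finset.sum_eq_single k]
        · rw [map_one, one_mul]
        · intro l _ hl
          rw [hww k l hl.symm, mul_zero]
        · intro h; exact absurd (Finset.mem_univ k) h
      have e2 : ∑ l, (1 : ℂ) • w l = (-(g (Sum.inl ()))) • u0 := by
        simp only [one_smul]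
        have : ∑ l, w l = -(g (Sum.inl ()) • u0) := by
          rw [eq_neg_iff_add_eq_zero, add_comm (∑ l, w l)]
          exact hg
        rw [this, neg_smul]
      rw [← e1, e2, da18_smul_right, hwu, mul_zero]
    have hz : ∀ k a, g (Sum.inr ⟨k, a⟩) = 0 := by
      intro k a
      obtain ⟨c, hc⟩ := da18_lorentz u0 (w k) hu0 hu (hwu k) (hkk k)
      have h4 := Fintype.linearIndependent_iff.1 (hli k)
        (fun o : Option (ι k) => o.elim (-c) (fun a => g (Sum.inr ⟨k, a⟩))) (by
          rw [Fintype.sum_option]
          simp only [Option.elim_none, Option.elim_some]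
          have : ∑ a, g (Sum.inr ⟨k, a⟩) • v k a = w k := rfl
          rw [this, hc]
          simp)
      have := h4 (some a)
      simpa using this
    have hw0 : ∀ k, w k = 0 := by
      intro k
      rw [hw]
      simp only
      exact Finset.sum_eq_zero fun a _ => by rw [hz, zero_smul]
    have hg0 : g (Sum.inl ()) • u0 = 0 := by
      have e3 : ∑ k, w k = 0 := Finset.sum_eq_zero fun k _ => hw0 k
      have e4 : g (Sum.inl ()) • u0 + ∑ k, w k = 0 := hg
      rw [e3, add_zero] at e4
      exact e4
    rintro (⟨⟩ | ⟨k, a⟩)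
    · rcases smul_eq_zero.1 hg0 with h | h
      · exact h
      · exact absurd h hu0
    · exact hz k a
  -- they lie in the kernel
  have hker : ∀ x, fam x ∈ LinearMap.ker (da18_lin u0) := by
    rintro (⟨⟩ | ⟨k, a⟩)
    · exact hu
    · exact hv k a
  have hLI' : LinearIndependent ℂ (fun x => (⟨fam x, hker x⟩ : LinearMap.ker (da18_lin u0))) := by
    apply LinearIndependent.of_comp (LinearMap.ker (da18_lin u0)).subtype
    exact hLI
  have hcard := hLI'.fintype_card_le_finrank
  have hfin : Module.finrank ℂ (LinearMap.ker (da18_lin u0)) = N := by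
    have h1 := LinearMap.finrank_range_add_finrank_ker (da18_lin u0)
    have h2 : LinearMap.range (da18_lin u0) = ⊤ := by
      rw [LinearMap.range_eq_top]
      apply LinearMap.surjective
      intro hzero
      have h3 : da18_lin u0 (Pi.single 0 1) = 0 := by rw [hzero]; rfl
      have h4 : da18_lin u0 (Pi.single 0 1) = -(starRingEnd ℂ) (u0 0) := by
        change hf (Pi.single 0 1) u0 = _
        simp [hf]
      rw [h4, neg_eq_zero, map_eq_zero] at h3
      exact h0 h3
    rw [h2, finrank_top, Module.finrank_self, Module.finrank_fin_fun] at h1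
    omega
  rw [hfin, Fintype.card_sum, Fintype.card_sigma, Fintype.card_unit] at hcard
  omega

end Pool.Agent.Lib_helper49.Mac
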