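import Pool.Agent.Lib_helper49.Mac.Defs2
import Pool.Agent.Lib_helper49.Mac.B20
import Pool.Agent.Lib_helper49.Mac.B58

/-!
# Block ma59: the frame count
-/

namespace Pool.Agent.Lib_helper49.Mac

open MvPolynomial Pool.Agent.Lib_helper26.Ebe Pool.Agent.Lib_helper26.SOS
open Pool.Agent.Lib_helper49.Dang

section ma59

variable {n N d : ℕ} {P : Fin (N + 1) → MvPolynomial (Fin n) ℂ} {a : Fin n → ℂ}

/-- The point with coordinates `ξ`. -/
noncomputable def ma59_x {M n : ℕ} (u : Fin M → Fin n → ℂ) (ξ : Fin M → ℂ) : Fin n → ℂ :=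
  ∑ l, ξ l • u l

theorem ma59_ip_left {M n : ℕ} (u : Fin M → Fin n → ℂ) (ξ : Fin M → ℂ) (y : Fin n → ℂ) :
    ip (ma59_x u ξ) y = ∑ l, ξ l * ip (u l) y := by
  unfold ip ma59_x
  simp only [Finset.sum_apply, Pi.smul_apply, smul_eq_mul, Finset.sum_mul, Finset.mul_sum]
  rw [Finset.sum_comm]
  refine Finset.sum_congr rfl fun l _ => Finset.sum_congr rfl fun i _ => ?_
  ring

theorem ma59_ip_conj {n : ℕ} (x y : Fin n → ℂ) : ip y x = (starRingEnd ℂ) (ip x y) := by
  unfold ip
  rw [map_sum]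
  refine Finset.sum_congr rfl fun i _ => ?_
  rw [map_mul, Complex.conj_conj, mul_comm]

theorem ma59_ip_x {M n : ℕ} (u : Fin M → Fin n → ℂ)
    (huu : ∀ l l', ip (u l) (u l') = if l = l' then 1 else 0) (ξ η : Fin M → ℂ) :
    ip (ma59_x u ξ) (ma59_x u η) = ip ξ η := by
  have h1 : ∀ l, ip (u l) (ma59_x u η) = (starRingEnd ℂ) (η l) := by
    intro l
    rw [ma59_ip_conj, ma59_ip_left]
    congr 1
    rw [Finset.sum_eq_single l]
    · rw [huu, if_pos rfl, mul_one]
    · intro l' _ hl'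
      rw [huu, if_neg hl', mul_zero]
    · intro h
      exact absurd (Finset.mem_univ l) h
  rw [ma59_ip_left]
  exact Finset.sum_congr rfl fun l _ => by rw [h1]

/-- The pairing with a fixed vector of polynomials. -/
noncomputable def ma59_L {M N : ℕ} (Y : Fin (N + 1) → R M) :
    (Fin (N + 1) → ℂ) →ₗ[ℂ] R M where
  toFun w := ∑ t, C (sg t * w t) * Y t
  map_add' w w' := by
    rw [← Finset.sum_add_distrib]
    refine Finset.sum_congr rfl fun t _ => ?_
    rw [Pi.add_apply, mul_add, C_add, add_mul]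
  map_smul' c w := by
    rw [RingHom.id_apply, Finset.smul_sum]
    refine Finset.sum_congr rfl fun t _ => ?_
    rw [Pi.smul_apply, smul_eq_mul, smul_eq_C_mul, C_mul, C_mul, C_mul]
    ring

theorem ma59_L_apply {M N : ℕ} (Y : Fin (N + 1) → R M) (w : Fin (N + 1) → ℂ) :
    ma59_L Y w = ∑ t, C (sg t * w t) * Y t := rfl

/-- The conjugate of the evaluation point of `ycoord`. -/
noncomputable def ma59_pt {M : ℕ} (b : Fin M → Fin M → ℂ) (i : Fin M) (η : Fin M → ℂ) :
    Fin M → ℂ :=
  fun l => (starRingEnd ℂ) (∑ r ∈ Finset.univ.erase i,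
    (starRingEnd ℂ) (b r l) / (ip (b r) (b r)) * η r)

theorem ma59_ip_pt {M : ℕ} (b : Fin M → Fin M → ℂ) (hb : ∀ i j, i ≠ j → ip (b i) (b j) = 0)
    (i : Fin M) (η : Fin M → ℂ) : ip (b i) (ma59_pt b i η) = 0 := by
  unfold ip
  simp only [ma59_pt, Complex.conj_conj, Finset.mul_sum]
  rw [Finset.sum_comm]
  refine Finset.sum_eq_zero fun r hr => ?_
  have h1 := hb i r (Finset.ne_of_mem_erase hr).symm
  unfold ip at h1
  calc ∑ l, b i l * ((starRingEnd ℂ) (b r l) / (∑ i, b r i * (starRingEnd ℂ) (b r i)) *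
      η r) = ∑ l, (b i l * (starRingEnd ℂ) (b r l)) *
        (η r / (∑ i, b r i * (starRingEnd ℂ) (b r i))) :=
        Finset.sum_congr rfl fun l _ => by ring
    _ = 0 := by rw [← Finset.sum_mul, h1, zero_mul]

theorem ma59_eval_ycoord {M : ℕ} (b : Fin M → Fin M → ℂ) (i : Fin M) (η : Fin M → ℂ)
    (f : R M) : eval η (ycoord b i f) =
      eval (fun l => (starRingEnd ℂ) (ma59_pt b i η l)) f := by
  have h : (eval η).comp (ycoord b i).toRingHom =
      eval (fun l => (starRingEnd ℂ) (ma59_pt b i η l)) := by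
    refine MvPolynomial.ringHom_ext (fun c => ?_) (fun l => ?_)
    · simp [ycoord, MvPolynomial.algebraMap_eq]
    · simp [ycoord, ma59_pt, map_sum]
  exact congrArg (fun φ => φ f) h

theorem ma59_eval_cj (ξ : Fin n → ℂ) (f : MvPolynomial (Fin n) ℂ) :
    eval (fun l => (starRingEnd ℂ) (ξ l)) (MvPolynomial.map (starRingEnd ℂ) f) =
      (starRingEnd ℂ) (eval ξ f) := by
  have h : (eval (fun l => (starRingEnd ℂ) (ξ l))).comp (MvPolynomial.map (starRingEnd ℂ)) =
      (starRingEnd ℂ).comp (eval ξ) := by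
    refine MvPolynomial.ringHom_ext (fun c => ?_) (fun l => ?_)
    · simp
    · simp
  exact congrArg (fun φ => φ f) h

theorem ma59_eval_Pa {M : ℕ} (u : Fin M → Fin n → ℂ) (ξ : Fin M → ℂ) (t : Fin (N + 1)) :
    eval ξ (Pa P a u t) = eval (a + ma59_x u ξ) (P t) := by
  have h : (eval ξ).comp (aeval (fun j => C (a j) + ∑ l, C (u l j) * X l) :
      MvPolynomial (Fin n) ℂ →ₐ[ℂ] R M).toRingHom = eval (a + ma59_x u ξ) := by
    refine MvPolynomial.ringHom_ext (fun c => ?_) (fun j => ?_)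
    · simp [MvPolynomial.algebraMap_eq]
    · simp [ma59_x, Finset.sum_apply, mul_comm]
  exact congrArg (fun φ => φ (P t)) h

theorem ma59_eval_L {M : ℕ} (u : Fin M → Fin n → ℂ) (b : Fin M → Fin M → ℂ) (i : Fin M)
    (w : Fin (N + 1) → ℂ) (η : Fin M → ℂ) :
    eval η (ma59_L (fun t => ycoord b i (cj (Pa P a u) t)) w) =
      hf w (fun t => eval (a + ma59_x u (ma59_pt b i η)) (P t)) := by
  rw [ma59_L_apply, hf_eq_sum, map_sum]
  refine Finset.sum_congr rfl fun t _ => ?_
  rw [map_mul, eval_C, ma59_eval_ycoord]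
  unfold cj
  rw [ma59_eval_cj, ma59_eval_Pa]

theorem ma59_L_Fv (hP : SMap n N d P) (ha : OnSphere a) {M : ℕ} {u : Fin M → Fin n → ℂ}
    (hua : ∀ l, ip (u l) a = 0)
    (huu : ∀ l l', ip (u l) (u l') = if l = l' then 1 else 0)
    (b : Fin M → Fin M → ℂ) (hb : ∀ i j, i ≠ j → ip (b i) (b j) = 0) (i : Fin M) (r : ℕ) :
    ma59_L (fun t => ycoord b i (cj (Pa P a u) t)) (Fv P a (ma59_x u (b i)) r) = 0 := by
  refine MvPolynomial.funext fun η => ?_
  rw [ma59_eval_L, map_zero]
  have hxa : ∀ ξ : Fin M → ℂ, ip (ma59_x u ξ) a = 0 := by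
    intro ξ
    rw [ma59_ip_left]
    exact Finset.sum_eq_zero fun l _ => by rw [hua, mul_zero]
  have h1 : (fun t => eval (a + ma59_x u (ma59_pt b i η)) (P t)) =
      ∑ s ∈ Finset.range (d + 1), (1 : ℂ) • Fv P a (ma59_x u (ma59_pt b i η)) s := by
    funext t
    have h2 := sum_Fv hP.deg_le a (ma59_x u (ma59_pt b i η)) 1 t
    rw [one_smul] at h2
    rw [← h2, Finset.sum_apply]
    refine Finset.sum_congr rfl fun s _ => ?_
    rw [one_pow, mul_one, Pi.smul_apply, one_smul]
  rw [h1, da18_sum_right]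
  refine Finset.sum_eq_zero fun s _ => ?_
  rw [orth hP ha (hxa _) (hxa _) (by rw [ma59_ip_x u huu, ma59_ip_pt b hb]), mul_zero]

theorem frame_count {K τ : ℕ} {u : Fin (K + 1) → Fin n → ℂ} (hP : SMap n N d P)
    (ha : OnSphere a) (hua : ∀ l, ip (u l) a = 0)
    (huu : ∀ l l', ip (u l) (u l') = if l = l' then 1 else 0)
    (b : Fin (K + 1) → Fin (K + 1) → ℂ) (hb : ∀ i j, i ≠ j → ip (b i) (b j) = 0)
    (hb0 : ∀ i, b i ≠ 0)
    (hosc : ∀ i, LinearIndependent ℂ (fun r : Fin (τ + 1) => ev (Fs P a u r) (b i)))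
    (J : Fin (K + 1) → Type) [∀ i, Fintype (J i)] (v : ∀ i, J i → Fin (N + 1) → ℂ)
    (h1 : ∀ i j, hf (v i j) (fun t => eval a (P t)) = 0)
    (h2 : ∀ i l, i ≠ l → ∀ j s, hf (v i j) (ev (Fs P a u s) (b l)) = 0)
    (h3 : ∀ i l, i ≠ l → ∀ j j', hf (v i j) (v l j') = 0)
    (h4 : ∀ i, LinearIndependent ℂ (fun j : J i =>
      ∑ t, C (sg t * v i j t) * ycoord b i (cj (Pa P a u) t))) :
    (K + 1) * τ + ∑ i, Fintype.card (J i) + 1 ≤ N := by
  classical
  have hev : ∀ r ξ, ev (Fs P a u r) ξ = Fv P a (ma59_x u ξ) r := by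
    intro r ξ
    funext t
    exact eval_sp a u ξ (Fc P r t)
  have hF0 : ∀ y, Fv P a y 0 = fun t => eval a (P t) := by
    intro y
    funext i
    simp only [Fv, Fc_zero, eval_rename]
    rfl
  have hxa : ∀ ξ : Fin (K + 1) → ℂ, ip (ma59_x u ξ) a = 0 := by
    intro ξ
    rw [ma59_ip_left]
    exact Finset.sum_eq_zero fun l _ => by rw [hua, mul_zero]
  have h0a : ip (0 : Fin n → ℂ) a = 0 := by simp [ip]
  have hx0 : ∀ x : Fin n → ℂ, ip x 0 = 0 := by
    intro x
    simp [ip]
  have hkey := dim_sum (fun k => Fin τ ⊕ J k) (fun t => eval a (P t))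
    (fun k => Sum.elim (fun r => Fv P a (ma59_x u (b k)) ((r : ℕ) + 1)) (v k))
    (by
      rw [← hF0 0]
      exact orth hP ha h0a h0a (hx0 0) 0 0)
    (by omega)
    (by
      intro k j
      rcases j with r | j
      · simp only [Sum.elim_inl]
        rw [← hF0 0]
        exact orth hP ha (hxa _) h0a (hx0 _) _ 0
      · exact h1 k j)
    (by
      intro k l hkl j j'
      rcases j with r | j <;> rcases j' with r' | j'
      · simp only [Sum.elim_inl]
        exact orth hP ha (hxa _) (hxa _) (by rw [ma59_ip_x u huu, hb k l hkl]) _ _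
      · simp only [Sum.elim_inl, Sum.elim_inr]
        rw [da18_conj, ← hev, h2 l k (Ne.symm hkl), map_zero]
      · simp only [Sum.elim_inl, Sum.elim_inr]
        rw [← hev]
        exact h2 k l hkl _ _
      · exact h3 k l hkl j j')
    (by
      intro k
      rw [Fintype.linearIndependent_iff]
      intro g hg
      rw [Fintype.sum_option, Fintype.sum_sum_type] at hg
      simp only [Option.elim_none, Option.elim_some, Sum.elim_inl, Sum.elim_inr] at hg
      have hL := congrArg (ma59_L (fun t => ycoord b k (cj (Pa P a u) t))) hg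
      rw [map_add, map_add, map_smul, map_sum, map_sum, map_zero] at hL
      simp only [map_smul] at hL
      rw [← hF0 (ma59_x u (b k)), ma59_L_Fv hP ha hua huu b hb k 0, smul_zero, zero_add,
        Finset.sum_eq_zero (fun r _ => by rw [ma59_L_Fv hP ha hua huu b hb k, smul_zero]),
        zero_add] at hL
      have h5 := (Fintype.linearIndependent_iff.mp (h4 k)) (fun j => g (some (Sum.inr j)))
        (by simpa only [ma59_L_apply] using hL)
      rw [Finset.sum_eq_zero (s := Finset.univ)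
        (f := fun x => g (some (Sum.inr x)) • v k x)
        (fun j _ => by rw [h5 j, zero_smul]), add_zero] at hg
      have h6 := (Fintype.linearIndependent_iff.mp (hosc k))
        (Fin.cons (g none) (fun r => g (some (Sum.inl r))) : Fin (τ + 1) → ℂ) (by
          rw [Fin.sum_univ_succ]
          simp only [Fin.cons_zero, Fin.cons_succ, hev, Fin.val_succ, Fin.val_zero, hF0]
          exact hg)
      intro o
      rcases o with _ | r | j
      · simpa using h6 0
      · simpa using h6 r.succ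
      · exact h5 j)
  simp only [Fintype.card_sum, Fintype.card_fin, Finset.sum_add_distrib, Finset.sum_const,
    Finset.card_univ, smul_eq_mul] at hkey
  exact hkey

end ma59


end Pool.Agent.Lib_helper49.Mac
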