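import Pool.Agent.Lib_helper49.Mac.Defs2
import Pool.Agent.Lib_helper49.Mac.B08
import Pool.Agent.Lib_helper49.Mac.B09
import Pool.Agent.Lib_helper49.Mac.B12
import Pool.Agent.Lib_helper49.Mac.B13

/-!
# MAC, block ma60: many independent products (helper6)
-/

namespace Pool.Agent.Lib_helper49.Mac

open MvPolynomial Pool.Agent.Lib_helper26.Ebe Pool.Agent.Lib_helper26.SOS
open Pool.Agent.Lib_helper49.Dang

variable {M : ℕ}

theorem theta_family {ι : Type} [Fintype ι] (g : ι → R M) (hg : LinearIndependent ℂ g)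
    (Y : Finset (Fin M)) (l : Fin M) (hl : l ∉ Y) (t J r : ℕ) (hY : Y.card = r)
    (hr : 3 * J + 4 ≤ r) (hc : 4 ^ (t - 1) * Fintype.card ι ≤ (r - 1 + J).choose J) :
    ∃ (κ : Type) (_ : Fintype κ) (c : κ → ι → ℂ) (α : κ → Fin M → ℕ),
      4 ^ t * Fintype.card ι ≤ Fintype.card κ ∧
      (∀ j, α j l = 1 ∧ ∑ s, α j s = t + 1 ∧
        ∀ s, s ≠ l → (s ∉ Y → α j s = 0) ∧ α j s ≤ t) ∧
      ∀ ρ : κ → ℂ, (∀ j, ρ j ≠ 0) → LinearIndependent ℂ (fun j =>
        C (ρ j) * monomial (Finsupp.equivFunOnFinite.symm (α j)) 1 * ∑ x, C (c j x) * g x) := by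
  classical
  set V : Submodule ℂ (R M) := Submodule.span ℂ (Set.range g) with hV
  have hfin : Module.finrank ℂ V = Fintype.card ι := finrank_span_eq_card hg
  have hfd : FiniteDimensional ℂ V := FiniteDimensional.span_of_finite ℂ (Set.finite_range g)
  obtain ⟨B, hBr, hB⟩ := exists_low_finset V (Fintype.card ι) (by
    intro f hf hli
    have h1 : LinearIndependent ℂ (fun i => (⟨f i, hf i⟩ : V)) := by
      apply LinearIndependent.of_comp V.subtype
      exact hli
    have h2 := h1.fintype_card_le_finrank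
    rw [hfin, Fintype.card_fin] at h2
    omega)
  have hBge : Fintype.card ι ≤ B.card :=
    card_le_low V g (fun i => Submodule.subset_span ⟨i, rfl⟩) hg B
      (fun f hf e he => (hB e).2 ⟨f, hf, he⟩)
  have hBcard : B.card = Fintype.card ι := le_antisymm hBr hBge
  have hcoef : ∀ e : Fin M → ℕ, ∃ c : ι → ℂ, e ∈ B → IsLow (∑ x, C (c x) * g x) e := by
    intro e
    by_cases he : e ∈ B
    · obtain ⟨f, hf, hlow⟩ := (hB e).1 he
      obtain ⟨c, hc'⟩ := (Submodule.mem_span_range_iff_exists_fun ℂ).1 hf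
      refine ⟨c, fun _ => ?_⟩
      have : ∑ x, C (c x) * g x = f := by
        rw [← hc']
        exact Finset.sum_congr rfl fun x _ => (MvPolynomial.smul_eq_C_mul _ _).symm
      rw [this]
      exact hlow
    · exact ⟨0, fun h => absurd h he⟩
  choose c₀ hc₀ using hcoef
  set Θ : Finset (Fin M → ℕ) := (up Y)^[t] (up {l} B) with hΘ
  have hΘcard : 4 ^ t * Fintype.card ι ≤ Θ.card := by
    have h1 := up_iterate Y r J hY hr (up {l} B) t (by
      rw [card_up_singleton, hBcard]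
      exact hc)
    rwa [card_up_singleton, hBcard] at h1
  have hmem : ∀ θ : Θ, ∃ ε ∈ B, ∃ α : Fin M → ℕ, θ.1 = α + ε ∧ α l = 1 ∧ ∑ s, α s = t + 1 ∧
      ∀ s, s ≠ l → (s ∉ Y → α s = 0) ∧ α s ≤ t := fun θ => mem_up_iterate Y l hl B t θ.1 θ.2
  choose ε hε α hα hα1 hα2 hα3 using hmem
  refine ⟨Θ, inferInstance, fun θ => c₀ (ε θ), α, ?_, fun θ => ⟨hα1 θ, hα2 θ, hα3 θ⟩, ?_⟩
  · rw [Fintype.card_coe]
    exact hΘcard
  · intro ρ hρ
    refine linearIndependent_of_low _ (fun θ : Θ => θ.1) Subtype.val_injective fun θ => ?_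
    show IsLow _ θ.1
    rw [mul_assoc, hα θ]
    exact low_C_mul (low_mul_monomial (hc₀ _ (hε θ)) (α θ)) (ρ θ) (hρ θ)

end Pool.Agent.Lib_helper49.Mac
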