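import Pool.Agent.Lib_helper49.Mac.Defs2

/-!
# MAC, block ma61: arithmetic of the exponential range (helper6)
-/

namespace Pool.Agent.Lib_helper49.Mac

/-- one step -/
theorem ma61_step (M m : ℕ) (h : 4 * (m + 1) ≤ M + 1) :
    4 * M.choose m ≤ (M + 1).choose (m + 1) := by
  have h1 := Nat.add_one_mul_choose_eq M m
  
  have h2 : (m + 1) * (4 * M.choose m) ≤ (m + 1) * (M + 1).choose (m + 1) := by
    calc (m + 1) * (4 * M.choose m) = (4 * (m + 1)) * M.choose m := by ring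
      _ ≤ (M + 1) * M.choose m := Nat.mul_le_mul_right _ h
      _ = (m + 1) * (M + 1).choose (m + 1) := by rw [h1]; ring
  exact Nat.le_of_mul_le_mul_left h2 (by omega)

/-- iterated step -/
theorem ma61_iter (i M m : ℕ) (h : 4 * (m + i) ≤ M + i) :
    4 ^ i * M.choose m ≤ (M + i).choose (m + i) := by
  induction i with
  | zero => simp
  | succ i ih =>
    have h1 : 4 * (m + i) ≤ M + i := by omega
    have h2 := ma61_step (M + i) (m + i) (by omega)
    calc 4 ^ (i + 1) * M.choose m = 4 * (4 ^ i * M.choose m) := by ring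
      _ ≤ 4 * (M + i).choose (m + i) := Nat.mul_le_mul_left _ (ih h1)
      _ ≤ (M + i + 1).choose (m + i + 1) := h2

/-- claim B -/
theorem ma61_compare (n j h : ℕ) (hn : n ≤ 2 * h + 1) (hh : 16 * j ≤ h) (h2 : 2 ≤ n) :
    (n - 2 + j).choose j ≤ (h - 1 + 4 * j).choose (4 * j) := by
  induction j with
  | zero => simp
  | succ j ih =>
    have ih' := ih (by omega)
    have e1 := Nat.add_one_mul_choose_eq (n - 2 + j) j
    have f1 := Nat.add_one_mul_choose_eq (h - 1 + 4 * j) (4 * j)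
    have f2 := Nat.add_one_mul_choose_eq (h - 1 + 4 * j + 1) (4 * j + 1)
    have f3 := Nat.add_one_mul_choose_eq (h - 1 + 4 * j + 2) (4 * j + 2)
    have f4 := Nat.add_one_mul_choose_eq (h - 1 + 4 * j + 3) (4 * j + 3)
    
    have g1 : n - 2 + (j + 1) = n - 2 + j + 1 := by omega
    have g2 : h - 1 + 4 * (j + 1) = h - 1 + 4 * j + 3 + 1 := by omega
    have g3 : 4 * (j + 1) = 4 * j + 3 + 1 := by omega
    rw [g1, g2, g3]
    set A0 := (n - 2 + j).choose j with hA0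
    set A1 := (n - 2 + j + 1).choose (j + 1) with hA1
    set B0 := (h - 1 + 4 * j).choose (4 * j) with hB0
    set B1 := (h - 1 + 4 * j + 1).choose (4 * j + 1) with hB1
    have r2 : (h - 1 + 4 * j + 1 + 1).choose (4 * j + 1 + 1) =
      (h - 1 + 4 * j + 2).choose (4 * j + 2) := rfl
    have r3 : (h - 1 + 4 * j + 2 + 1).choose (4 * j + 2 + 1) =
      (h - 1 + 4 * j + 3).choose (4 * j + 3) := rfl
    rw [r2] at f2
    rw [r3] at f3
    set B2 := (h - 1 + 4 * j + 2).choose (4 * j + 2) with hB2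
    set B3 := (h - 1 + 4 * j + 3).choose (4 * j + 3) with hB3
    set B4 := (h - 1 + 4 * j + 3 + 1).choose (4 * j + 3 + 1) with hB4
    obtain ⟨x, hx⟩ : ∃ x, h = x + 1 := ⟨h - 1, by omega⟩
    subst hx
    simp only [Nat.add_sub_cancel] at f1 f2 f3 f4
    have hprod : (x + 4 * j + 1) * (x + 4 * j + 1 + 1) * (x + 4 * j + 2 + 1) *
        (x + 4 * j + 3 + 1) * B0 =
        (4 * j + 1) * (4 * j + 1 + 1) * (4 * j + 2 + 1) * (4 * j + 3 + 1) * B4 := by
      calc (x + 4 * j + 1) * (x + 4 * j + 1 + 1) * (x + 4 * j + 2 + 1) *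
        (x + 4 * j + 3 + 1) * B0 =
          (x + 4 * j + 1 + 1) * (x + 4 * j + 2 + 1) * (x + 4 * j + 3 + 1) *
            ((x + 4 * j + 1) * B0) := by ring
        _ = (x + 4 * j + 2 + 1) * (x + 4 * j + 3 + 1) * (4 * j + 1) *
            ((x + 4 * j + 1 + 1) * B1) := by rw [f1]; ring
        _ = (x + 4 * j + 3 + 1) * (4 * j + 1) * (4 * j + 1 + 1) *
            ((x + 4 * j + 2 + 1) * B2) := by rw [f2]; ring
        _ = (4 * j + 1) * (4 * j + 1 + 1) * (4 * j + 2 + 1) *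
            ((x + 4 * j + 3 + 1) * B3) := by rw [f3]; ring
        _ = _ := by rw [f4]; ring
    have hineq : (n - 2 + j + 1) * (4 * ((4 * j + 1) * (4 * j + 1 + 1) * (4 * j + 2 + 1))) ≤
        (x + 4 * j + 1) * (x + 4 * j + 1 + 1) * (x + 4 * j + 2 + 1) * (x + 4 * j + 3 + 1) := by
      have a1 : 4 * (4 * j + 1) ≤ x + 4 * j + 1 := by omega
      have a2 : n - 2 + j + 1 ≤ 2 * (x + 4 * j + 1 + 1) := by omega
      have a3 : 2 * (4 * j + 1 + 1) ≤ x + 4 * j + 2 + 1 := by omega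
      have a4 : 4 * j + 2 + 1 ≤ x + 4 * j + 3 + 1 := by omega
      have b1 : (4 * (4 * j + 1)) * (n - 2 + j + 1) * (2 * (4 * j + 1 + 1)) * (4 * j + 2 + 1) ≤
          (x + 4 * j + 1) * (2 * (x + 4 * j + 1 + 1)) * (x + 4 * j + 2 + 1) *
            (x + 4 * j + 3 + 1) :=
        Nat.mul_le_mul (Nat.mul_le_mul (Nat.mul_le_mul a1 a2) a3) a4
      nlinarith [b1]
    have hfin : (4 * ((4 * j + 1) * (4 * j + 1 + 1) * (4 * j + 2 + 1)) * (j + 1)) * A1 ≤
        (4 * ((4 * j + 1) * (4 * j + 1 + 1) * (4 * j + 2 + 1)) * (j + 1)) * B4 := by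
      calc (4 * ((4 * j + 1) * (4 * j + 1 + 1) * (4 * j + 2 + 1)) * (j + 1)) * A1
          = (4 * ((4 * j + 1) * (4 * j + 1 + 1) * (4 * j + 2 + 1))) * (A1 * (j + 1)) := by ring
        _ = ((n - 2 + j + 1) * (4 * ((4 * j + 1) * (4 * j + 1 + 1) * (4 * j + 2 + 1)))) * A0 := by
            rw [← e1]; ring
        _ ≤ ((x + 4 * j + 1) * (x + 4 * j + 1 + 1) * (x + 4 * j + 2 + 1) *
              (x + 4 * j + 3 + 1)) * B0 := Nat.mul_le_mul hineq ih'
        _ = _ := by rw [hprod]; ring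
    exact Nat.le_of_mul_le_mul_left hfin (by positivity)

/-- the weighted geometric sum -/
theorem ma61_geom (j : ℕ) :
    ∑ k ∈ Finset.Icc 2 (j + 1), ((k - 1 : ℕ) : ℝ) / 4 ^ (k - 1) =
      4 / 9 - (3 * j + 4) / (9 * 4 ^ j) := by
  induction j with
  | zero => norm_num
  | succ j ih =>
    rw [Finset.sum_Icc_succ_top (by omega), ih]
    have : j + 1 + 1 - 1 = j + 1 := by omega
    rw [this]
    push_cast
    rw [pow_succ]
    field_simp
    ring

theorem arith_P (n j N τ d : ℕ) (w : ℕ → ℕ) (hj : 1 ≤ j) (hn : 32 * j ≤ n)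
    (hd : d ≤ τ + ∑ k ∈ Finset.Icc 2 (j + 1), (k - 1) * w k)
    (hw : ∀ k, 2 ≤ k → k ≤ j + 1 → w k ≤ (n + j - k).choose (j + 2 - k))
    (hfr : ∀ k, 2 ≤ k → k ≤ j + 1 → ∀ r J c, 3 * J + 4 ≤ r → r + c + 2 ≤ n →
      4 ^ (k - 2) * w k ≤ (r - 1 + J).choose J →
      (n - 1) * τ + c * (4 ^ (k - 1) * w k) + 1 ≤ N) :
    (n - 1) * d + 1 ≤ N := by
  obtain ⟨c, hc⟩ : ∃ c, c = n - 2 - n / 2 := ⟨_, rfl⟩
  have hkey : ∀ k, 2 ≤ k → k ≤ j + 1 → (n - 1) * τ + c * (4 ^ (k - 1) * w k) + 1 ≤ N := by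
    intro k hk1 hk2
    refine hfr k hk1 hk2 (n / 2) (4 * j) c (by omega) (by omega) ?_
    have h1 : 4 ^ (k - 2) * w k ≤ 4 ^ (k - 2) * (n + j - k).choose (j + 2 - k) :=
      Nat.mul_le_mul_left _ (hw k hk1 hk2)
    have h2 := ma61_iter (k - 2) (n + j - k) (j + 2 - k) (by omega)
    have h3 : n + j - k + (k - 2) = n - 2 + j := by omega
    have h4 : j + 2 - k + (k - 2) = j := by omega
    rw [h3, h4] at h2
    exact h1.trans (h2.trans (ma61_compare n j (n / 2) (by omega) (by omega) (by omega)))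
  have hN : (n - 1) * τ + 1 ≤ N := by
    have := hkey 2 le_rfl (by omega)
    omega
  obtain ⟨G, hG⟩ : ∃ G, N = (n - 1) * τ + 1 + G := ⟨N - ((n - 1) * τ + 1), by omega⟩
  have hkG : ∀ k, 2 ≤ k → k ≤ j + 1 → c * (4 ^ (k - 1) * w k) ≤ G := by
    intro k hk1 hk2
    have := hkey k hk1 hk2
    omega
  have hcn : 4 * (n - 1) ≤ 9 * c := by omega
  have hsum : (n - 1) * ∑ k ∈ Finset.Icc 2 (j + 1), (k - 1) * w k ≤ G := by
    have hR : (4 : ℝ) * (((n - 1 : ℕ) : ℝ) * ∑ k ∈ Finset.Icc 2 (j + 1), ((k - 1 : ℕ) : ℝ) * w k)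
        ≤ 4 * G := by
      have hcn' : (4 : ℝ) * ((n - 1 : ℕ) : ℝ) ≤ 9 * c := by exact_mod_cast hcn
      have hS0 : (0 : ℝ) ≤ ∑ k ∈ Finset.Icc 2 (j + 1), ((k - 1 : ℕ) : ℝ) * w k :=
        Finset.sum_nonneg fun _ _ => by positivity
      have hG0 : (0 : ℝ) ≤ G := Nat.cast_nonneg _
      calc (4 : ℝ) * (((n - 1 : ℕ) : ℝ) * ∑ k ∈ Finset.Icc 2 (j + 1), ((k - 1 : ℕ) : ℝ) * w k)
          = (4 * ((n - 1 : ℕ) : ℝ)) * ∑ k ∈ Finset.Icc 2 (j + 1), ((k - 1 : ℕ) : ℝ) * w k := by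
            ring
        _ ≤ (9 * c) * ∑ k ∈ Finset.Icc 2 (j + 1), ((k - 1 : ℕ) : ℝ) * w k :=
            mul_le_mul_of_nonneg_right hcn' hS0
        _ = 9 * ∑ k ∈ Finset.Icc 2 (j + 1), ((k - 1 : ℕ) : ℝ) * (c * w k) := by
            rw [mul_assoc, Finset.mul_sum]
            congr 1
            refine Finset.sum_congr rfl fun k _ => by ring
        _ ≤ 9 * ∑ k ∈ Finset.Icc 2 (j + 1), ((k - 1 : ℕ) : ℝ) / 4 ^ (k - 1) * G := by
            refine mul_le_mul_of_nonneg_left (Finset.sum_le_sum fun k hk => ?_) (by norm_num)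
            rw [Finset.mem_Icc] at hk
            have h1 : (c : ℝ) * (4 ^ (k - 1) * w k) ≤ G := by
              exact_mod_cast hkG k hk.1 hk.2
            have h2 : (c : ℝ) * w k ≤ G / 4 ^ (k - 1) := by
              rw [le_div_iff₀ (by positivity)]
              linarith
            calc ((k - 1 : ℕ) : ℝ) * (c * w k) ≤ ((k - 1 : ℕ) : ℝ) * (G / 4 ^ (k - 1)) :=
                  mul_le_mul_of_nonneg_left h2 (Nat.cast_nonneg _)
              _ = _ := by ring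
        _ = 9 * ((4 / 9 - (3 * j + 4) / (9 * 4 ^ j)) * G) := by
            rw [← Finset.sum_mul, ma61_geom]
        _ ≤ 9 * (4 / 9 * G) := by
            refine mul_le_mul_of_nonneg_left (mul_le_mul_of_nonneg_right ?_ hG0) (by norm_num)
            have : (0 : ℝ) ≤ (3 * j + 4) / (9 * 4 ^ j) := by positivity
            linarith
        _ = 4 * G := by ring
    have hR2 : ((n - 1 : ℕ) : ℝ) * ∑ k ∈ Finset.Icc 2 (j + 1), ((k - 1 : ℕ) : ℝ) * w k ≤ G := by
      linarith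
    exact_mod_cast hR2
  calc (n - 1) * d + 1 ≤ (n - 1) * (τ + ∑ k ∈ Finset.Icc 2 (j + 1), (k - 1) * w k) + 1 := by
        gcongr
    _ = (n - 1) * τ + 1 + (n - 1) * ∑ k ∈ Finset.Icc 2 (j + 1), (k - 1) * w k := by ring
    _ ≤ (n - 1) * τ + 1 + G := by gcongr
    _ = N := hG.symm

end Pool.Agent.Lib_helper49.Mac
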