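import Pool.Agent.Lib_helper49.Mac.Defs2

/-!
# Block ma62: triples of consecutive residues
-/

namespace Pool.Agent.Lib_helper49.Mac

theorem ma62_sum {K : ℕ} (ω : Fin (K + 1) → ℕ) (a b : Fin (K + 1)) :
    ∑ r, ω r * (Pi.single a 1 + Pi.single b 1 : Fin (K + 1) → ℕ) r = ω a + ω b := by
  simp [mul_add, Finset.sum_add_distrib, Pi.single_apply]

theorem triples {K : ℕ} (hK : 3 ≤ K) (i i' : Fin (K + 1)) (hii : i ≠ i') :
    ∃ ω ω' : Fin (K + 1) → ℕ, 1 ≤ ω i' ∧ 1 ≤ ω' i ∧ (∀ r, 1 ≤ ω r + ω' r) ∧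
      ∑ r, ω r * (Pi.single (i + 1) 1 + Pi.single (i + 2) 1 : Fin (K + 1) → ℕ) r +
      ∑ r, ω' r * (Pi.single (i' + 1) 1 + Pi.single (i' + 2) 1 : Fin (K + 1) → ℕ) r < 3 := by
  have e1 : (1 : Fin (K + 1)) ≠ 0 := by
    intro h
    have := congrArg Fin.val h
    have h2 : ((1 : Fin (K + 1)) : ℕ) = 1 % (K + 1) := rfl
    rw [h2, Fin.val_zero, Nat.mod_eq_of_lt (by omega)] at this
    omega
  have e2 : (2 : Fin (K + 1)) ≠ 0 := by
    intro h
    have := congrArg Fin.val h
    have h2 : ((2 : Fin (K + 1)) : ℕ) = 2 % (K + 1) := rfl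
    rw [h2, Fin.val_zero, Nat.mod_eq_of_lt (by omega)] at this
    omega
  have e3 : (3 : Fin (K + 1)) ≠ 0 := by
    intro h
    have := congrArg Fin.val h
    have h2 : ((3 : Fin (K + 1)) : ℕ) = 3 % (K + 1) := rfl
    rw [h2, Fin.val_zero, Nat.mod_eq_of_lt (by omega)] at this
    omega
  have t2 : (1 : Fin (K + 1)) + 1 = 2 := Fin.ext (by
    change (1 % (K + 1) + 1 % (K + 1)) % (K + 1) = 2 % (K + 1)
    rw [← Nat.add_mod])
  have t3 : (2 : Fin (K + 1)) + 1 = 3 := Fin.ext (by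
    change (2 % (K + 1) + 1 % (K + 1)) % (K + 1) = 3 % (K + 1)
    rw [← Nat.add_mod])
  refine ⟨fun r => if (r = i + 1 ∨ r = i + 2) ∧ r ≠ i' then 0 else 1,
    fun r => if r = i ∨ ((r = i + 1 ∨ r = i + 2) ∧ r ≠ i') then 1 else 0, ?_, ?_, ?_, ?_⟩
  · simp
  · simp
  · intro r
    beta_reduce
    by_cases h : (r = i + 1 ∨ r = i + 2) ∧ r ≠ i'
    · rw [if_pos h, if_pos (Or.inr h)]
    · rw [if_neg h]
      omega
  · rw [ma62_sum, ma62_sum]
    have n1 : i' + 1 ≠ i' := fun h => e1 (by simpa using h)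
    have n2 : i' + 2 ≠ i' := fun h => e2 (by simpa using h)
    have n3 : i' + 1 ≠ i + 1 := fun h => hii (add_right_cancel h).symm
    have n4 : i' + 2 ≠ i + 2 := fun h => hii (add_right_cancel h).symm
    have a1 : (if ((i + 1 = i + 1 ∨ i + 1 = i + 2) ∧ i + 1 ≠ i') then 0 else 1) =
        if i + 1 = i' then 1 else 0 := by
      by_cases h : i + 1 = i' <;> simp [h]
    have a2 : (if ((i + 2 = i + 1 ∨ i + 2 = i + 2) ∧ i + 2 ≠ i') then 0 else 1) =
        if i + 2 = i' then 1 else 0 := by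
      by_cases h : i + 2 = i' <;> simp [h]
    rw [a1, a2]
    by_cases c1 : i + 1 = i'
    · subst c1
      have m1 : ¬ (i + 2 = i + 1) := by
        intro h
        have : (2 : Fin (K + 1)) = 1 := add_left_cancel h
        rw [← t2] at this
        exact e1 (by simpa using this)
      have m2 : ¬ ((i + 1) + 2 = i ∨ (((i + 1) + 2 = i + 1 ∨ (i + 1) + 2 = i + 2) ∧
          (i + 1) + 2 ≠ i + 1)) := by
        rintro (h | ⟨h | h, h'⟩)
        · rw [add_assoc, add_comm (1 : Fin (K + 1)) 2, t3] at h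
          exact e3 (by simpa using h)
        · exact h' h
        · rw [add_assoc, add_comm (1 : Fin (K + 1)) 2, ← add_assoc] at h
          exact e1 (by simpa using h)
      rw [if_pos rfl, if_neg m1, if_neg m2]
      split_ifs <;> omega
    · rw [if_neg c1]
      by_cases c2 : i + 2 = i'
      · subst c2
        have m1 : ¬ ((i + 2) + 1 = i ∨ (((i + 2) + 1 = i + 1 ∨ (i + 2) + 1 = i + 2) ∧
            (i + 2) + 1 ≠ i + 2)) := by
          rintro (h | ⟨h | h, h'⟩)
          · rw [add_assoc, t3] at h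
            exact e3 (by simpa using h)
          · exact n3 h
          · exact h' h
        rw [if_pos rfl, if_neg m1]
        split_ifs <;> omega
      · rw [if_neg c2]
        split_ifs <;> omega

example : type_of% @triples := @triples

end Pool.Agent.Lib_helper49.Mac
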