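import Pool.Agent.Lib_helper49.Mac.Defs2
import Pool.Agent.Lib_helper49.Mac.B01
import Pool.Agent.Lib_helper49.Mac.B02
import Pool.Agent.Lib_helper49.Mac.B03
import Pool.Agent.Lib_helper49.Mac.B04
import Pool.Agent.Lib_helper49.Mac.B05
import Pool.Agent.Lib_helper49.Mac.B06
import Pool.Agent.Lib_helper49.Mac.B07
import Pool.Agent.Lib_helper49.Mac.B08
import Pool.Agent.Lib_helper49.Mac.B09
import Pool.Agent.Lib_helper49.Mac.B10
import Pool.Agent.Lib_helper49.Mac.B11
import Pool.Agent.Lib_helper49.Mac.B12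
import Pool.Agent.Lib_helper49.Mac.B13
import Pool.Agent.Lib_helper49.Mac.B14
import Pool.Agent.Lib_helper49.Mac.B15
import Pool.Agent.Lib_helper49.Mac.B16
import Pool.Agent.Lib_helper49.Mac.B17
import Pool.Agent.Lib_helper49.Mac.B18
import Pool.Agent.Lib_helper49.Mac.B20
import Pool.Agent.Lib_helper49.Mac.B21
import Pool.Agent.Lib_helper49.Mac.B22
import Pool.Agent.Lib_helper49.Mac.B30
import Pool.Agent.Lib_helper49.Mac.B31
import Pool.Agent.Lib_helper49.Mac.B32
import Pool.Agent.Lib_helper49.Mac.B34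
import Pool.Agent.Lib_helper49.Mac.B40
import Pool.Agent.Lib_helper49.Mac.B41
import Pool.Agent.Lib_helper49.Mac.B42
import Pool.Agent.Lib_helper49.Mac.B43
import Pool.Agent.Lib_helper49.Mac.B44
import Pool.Agent.Lib_helper49.Mac.B45
import Pool.Agent.Lib_helper49.Mac.B46
import Pool.Agent.Lib_helper49.Mac.B47
import Pool.Agent.Lib_helper49.Mac.B50
import Pool.Agent.Lib_helper49.Mac.B52
import Pool.Agent.Lib_helper49.Mac.B53
import Pool.Agent.Lib_helper49.Mac.B54
import Pool.Agent.Lib_helper49.Mac.B55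
import Pool.Agent.Lib_helper49.Mac.B56
import Pool.Agent.Lib_helper49.Mac.B57
import Pool.Agent.Lib_helper49.Mac.B58
import Pool.Agent.Lib_helper49.Mac.B59
import Pool.Agent.Lib_helper49.Mac.B60
import Pool.Agent.Lib_helper49.Mac.B61
import Pool.Agent.Lib_helper49.Mac.B62
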