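import Pool.Agent.Lib_helper49.Mac.All

/-!
# Assembly, part A: the upper bound for all `n`, `N`
-/

namespace Pool.Agent.Lib_helper49.Mac

open MvPolynomial Pool.Agent.Lib_helper26.Ebe Pool.Agent.Lib_helper26.SOS
open Pool.Agent.Lib_helper49.Dang

theorem low_iff {K N : ℕ} (V : Submodule (R (K + 1)) (Fin (N + 1) → R (K + 1)))
    (h : Fin (N + 1) → R (K + 1)) (e : Fin (K + 1) → ℕ) :
    e ∈ low V h ↔ ∃ g ∈ V.map (LL h), IsLow g e := by
  constructor
  · rintro ⟨ψ, hψ, hl⟩
    exact ⟨LL h ψ, Submodule.mem_map_of_mem hψ, by rwa [LL_apply]⟩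
  · rintro ⟨g, ⟨ψ, hψ, rfl⟩, hl⟩
    exact ⟨ψ, hψ, by rwa [← LL_apply]⟩

theorem exists_low_set {K N : ℕ} (V : Submodule (R (K + 1)) (Fin (N + 1) → R (K + 1)))
    (h : Fin (N + 1) → R (K + 1)) (r : ℕ)
    (hr : ∀ ψ : Fin (r + 1) → Fin (N + 1) → R (K + 1), (∀ c, ψ c ∈ V) →
      ¬ LinearIndependent (R (K + 1)) (fun c => LL h (ψ c))) :
    ∃ B : Finset (Fin (K + 1) → ℕ), B.card ≤ r ∧ ∀ e, e ∈ B ↔ e ∈ low V h := by
  obtain ⟨B, hB, hB'⟩ := exists_low_finset (V.map (LL h)) r (by
    intro f hf hli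
    choose ψ hψ hψf using hf
    apply hr ψ hψ
    have : (fun c => LL h (ψ c)) = f := funext hψf
    rw [this]
    exact hli)
  exact ⟨B, hB, fun e => by rw [hB', low_iff]⟩

theorem card_le_low_set {K N : ℕ} (V : Submodule (R (K + 1)) (Fin (N + 1) → R (K + 1)))
    (h : Fin (N + 1) → R (K + 1)) {ι : Type*} [Fintype ι] (ψ : ι → Fin (N + 1) → R (K + 1))
    (hψ : ∀ c, ψ c ∈ V) (hli : LinearIndependent (R (K + 1)) (fun c => LL h (ψ c)))
    (B : Finset (Fin (K + 1) → ℕ)) (hB : ∀ e ∈ low V h, e ∈ B) : Fintype.card ι ≤ B.card := by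
  refine card_le_low (V.map (LL h)) (fun c => LL h (ψ c))
    (fun c => Submodule.mem_map_of_mem (hψ c)) hli B fun g hg e he => hB e ?_
  rw [low_iff]
  exact ⟨g, hg, he⟩

theorem low_mono {K N : ℕ} {V V' : Submodule (R (K + 1)) (Fin (N + 1) → R (K + 1))}
    (hV : V ≤ V') (h : Fin (N + 1) → R (K + 1)) : low V h ⊆ low V' h := by
  rintro e ⟨ψ, hψ, hl⟩
  exact ⟨ψ, hV hψ, hl⟩

theorem Vs_anti {n M N : ℕ} {P : Fin (N + 1) → MvPolynomial (Fin n) ℂ} (d : ℕ)
    (a : Fin n → ℂ) (B : Fin M → Fin n → ℂ) : Antitone (Vs P d a B) :=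
  antitone_nat_of_succ_le fun i => Vs_succ_le d a B i

theorem sum_idB {n : ℕ} (ξ : Fin n → ℂ) : ∑ l, ξ l • idB n l = ξ := by
  funext j
  simp [idB, Finset.sum_apply, Pi.single_apply]

theorem Ls_mem_span {n N d : ℕ} {P : Fin (N + 1) → MvPolynomial (Fin n) ℂ} (g : ℕ → A n)
    (a x : Fin n → ℂ) :
    (fun i => eval (Sum.elim a x) (phi (Fc P) d g i)) ∈
      Submodule.span ℂ (Set.range (Fv P a x)) := by
  have : (fun i => eval (Sum.elim a x) (phi (Fc P) d g i)) =
      ∑ r ∈ Finset.range d, (eval (Sum.elim a x) (g r)) • Fv P a x (r + 1) := by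
    funext i
    simp [phi, Fv, Finset.sum_apply]
  rw [this]
  exact Submodule.sum_mem _ fun r _ => Submodule.smul_mem _ _ (Submodule.subset_span ⟨_, rfl⟩)

theorem phi_mem_Vs {n M N : ℕ} {P : Fin (N + 1) → MvPolynomial (Fin n) ℂ} (d : ℕ)
    (a : Fin n → ℂ) (B : Fin M → Fin n → ℂ) (i : ℕ) (g : ℕ → A n) (hg : g ∈ Lset (Fc P) d i) :
    (fun k => sp a B (phi (Fc P) d g k)) ∈ Vs P d a B i := by
  apply Submodule.subset_span
  refine ⟨fun k => phi (Fc P) d g k, ⟨g, hg, 0, ?_⟩, rfl⟩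
  funext k
  simp

/-- The growth theorem in Macaulay's form. -/
theorem A_main {K N d : ℕ} {P : Fin (N + 1) → MvPolynomial (Fin (K + 1)) ℂ} (hK : 1 ≤ K)
    (hP : SMap (K + 1) N d P) :
    ∃ τ : ℕ, K * τ + 1 ≤ N ∧ ∀ s, τ ≤ (K + s).choose s → (K + 1) * d ≤ (K + 1 + s) * τ := by
  classical
  obtain ⟨τ, m, g, δ, hg, hm, hδ, hspan, hfin⟩ := adapted hP (by omega)
  obtain ⟨Φ, hΦ0, hΦ⟩ := Pool.Agent.Lib_helper97.Ebe.gen_linearIndependent
    (fun (r : Fin (τ + 1)) (i : Fin (N + 1)) => Fc P r i) (osculation hP.deg_le hfin)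
  obtain ⟨Ψ, hΨ0, hΨ⟩ := gen_cons g δ hδ
    (fun r hr => funext fun i => Fc_eq_zero hP.deg_le hr i) hspan hfin
  obtain ⟨a, x, ha, hx, h⟩ := exists_real (by omega) (Φ * Ψ) (mul_ne_zero hΦ0 hΨ0)
  obtain ⟨b, hba, hb0, hbb, hb⟩ := exists_orthogonal (by omega) (Φ * Ψ) a x ha hx h
  have hbΦ : ∀ k, eval (Sum.elim a (b k)) Φ ≠ 0 := fun k => by
    have := hb k
    rw [map_mul] at this
    exact left_ne_zero_of_mul this
  have hli : ∀ k, LinearIndependent ℂ (fun r : Fin (τ + 1) => Fv P a (b k) r) :=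
    fun k => hΦ _ (hbΦ k)
  have hF0 : ∀ y : Fin (K + 1) → ℂ, Fv P a y 0 = Fv P a 0 0 := by
    intro y
    funext i
    simp only [Fv, Fc_zero, eval_rename]
    rfl
  refine ⟨τ, ?_, ?_⟩
  · have h0 : ip (0 : Fin (K + 1) → ℂ) a = 0 := by simp [ip]
    have := dim_bound (Fv P a 0 0) (fun k r => Fv P a (b k) (r + 1))
      (orth hP ha h0 h0 (by simp [ip]) 0 0) (by omega)
      (fun k r => orth hP ha (hba k) h0 (by simp [ip]) _ 0)
      (fun k l hkl r s => orth hP ha (hba k) (hba l) (hbb k l hkl) _ _)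
      (fun k => by
        have h1 := hli k
        convert h1 using 1
        funext r
        refine Fin.cases ?_ (fun r => ?_) r
        · simp [hF0 (b k)]
        · simp)
    simpa using this
  · intro s hs
    have hΨx : eval (Sum.elim a x) Ψ ≠ 0 := by
      rw [map_mul] at h
      exact right_ne_zero_of_mul h
    have hli2 := hΨ _ hΨx
    have hnz : (fun i => eval a (P i)) ≠ 0 := by
      have h1 := hli2.ne_zero 0
      have h2 : (fun i => eval (Sum.elim a x) ((Fin.cons (Fc P 0)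
          (fun a => phi (Fc P) d (g a)) : Fin (τ + 1) → Fin (N + 1) → A (K + 1)) 0 i)) =
          fun i => eval a (P i) := by
        funext i
        simp only [Fin.cons_zero, Fc_zero, eval_rename]
        rfl
      rw [h2] at h1
      exact h1
    set hh : Fin (N + 1) → R (K + 1) := fun i => hcj a d (P i) with hhh
    -- the sets of lowest exponents
    have hex : ∀ i, ∃ B : Finset (Fin (K + 1) → ℕ), B.card ≤ τ ∧
        ∀ e, e ∈ B ↔ e ∈ low (Vs P d a (idB (K + 1)) i) hh := fun i =>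
      exists_low_set _ _ τ fun ψ hψ =>
        A_rank hK hP hfin ha hnz ψ fun c => Vs_anti d a _ (Nat.zero_le i) (hψ c)
    choose B hBc hB using hex
    have hq : ∀ ψ ∈ Vs P d a (idB (K + 1)) 0, q (K + 1) ∣ pair ψ hh := fun ψ hψ =>
      A_dvd hK hP ha ψ hψ
    have hchain := gr_chain (Finset.univ : Finset (Fin (K + 1))) K hK (by simp)
      (gr _ K (by simp)) B (fun t => low_step (Vs P d a (idB (K + 1)) (t + 1))
        (Vs P d a (idB (K + 1)) t) hh (Vs_succ_le d a _ t)
        (fun ψ hψ l => dv_mem_Vs hP a _ t ψ hψ l.succ)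
        (fun ψ hψ => hq ψ (Vs_anti d a _ (Nat.zero_le _) hψ)) (B (t + 1)) (B t)
        (fun e he => (hB (t + 1) e).1 he) (fun e he => (hB t e).2 he)) s
      ((hBc 0).trans hs)
    -- the number of elements of level `≥ r`
    have hcard : ∀ r, (Finset.univ.filter fun c => r ≤ m c).card ≤ (B r).card := by
      intro r
      have hopt : LinearIndependent ℂ (fun o : Option {c : Fin τ // r ≤ m c} =>
          o.elim (Fv P a x 0) (fun c i => eval (Sum.elim a x) (phi (Fc P) d (g c) i))) := by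
        have h1 : Function.Injective (fun o : Option {c : Fin τ // r ≤ m c} =>
            (o.elim (0 : Fin (τ + 1)) (fun c => Fin.succ c.1))) := by
          intro o o' hoo
          rcases o with _ | c <;> rcases o' with _ | c'
          · rfl
          · simp only [Option.elim] at hoo
            exact absurd hoo.symm (Fin.succ_ne_zero _)
          · simp only [Option.elim] at hoo
            exact absurd hoo (Fin.succ_ne_zero _)
          · simp only [Option.elim] at hoo
            have := Fin.succ_injective _ hoo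
            rw [Subtype.ext this]
        have h2 := hli2.comp _ h1
        convert h2 using 1
        funext o
        rcases o with _ | c
        · funext i
          simp [Fv]
        · funext i
          simp
      have h3 := A_indep hP ha hx (fun (c : {c : Fin τ // r ≤ m c}) => phi (Fc P) d (g c))
        (fun c => Ls_mem_span (g c) a x) hopt
      have h4 := card_le_low_set (Vs P d a (idB (K + 1)) r) hh _
        (fun c : {c : Fin τ // r ≤ m c} => phi_mem_Vs d a _ r (g c) (by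
          intro t ht k
          exact hg c t (lt_of_lt_of_le ht c.2) k)) h3 (B r) (fun e he => (hB r e).2 he)
      rw [Fintype.card_subtype] at h4
      exact h4
    rw [← hm]
    refine arith_A (K + 1) (by omega) m s (fun r hr => ?_) (fun c => ?_)
    · rw [Nat.add_sub_cancel]
      calc _ ≤ (B r).card * (K + s).choose s := Nat.mul_le_mul_right _ (hcard r)
        _ ≤ (B 0).card * (K + (s - r)).choose (s - r) := hchain.1 r hr
        _ ≤ τ * (K + (s - r)).choose (s - r) := Nat.mul_le_mul_right _ (hBc 0)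
    · by_contra hc
      have h1 := hchain.2 (m c) (by omega)
      have h2 := hcard (m c)
      rw [h1, Finset.card_empty, Nat.le_zero, Finset.card_eq_zero] at h2
      have h3 : c ∈ (Finset.univ.filter fun c' => m c ≤ m c') := by simp
      rw [h2] at h3
      exact absurd h3 (Finset.notMem_empty c)

/-- The upper bound for all `n`, `N`. -/
theorem degree_upper {n N : ℕ} (hn : 2 ≤ n) (s : ℕ)
    (hs : (N - 1) / (n - 1) ≤ (n + s - 1).choose s) (d : ℕ) (hd : d ∈ degrees n N) :
    n * d ≤ (n + s) * ((N - 1) / (n - 1)) := by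
  obtain ⟨K, rfl⟩ : ∃ K, n = K + 1 := ⟨n - 1, by omega⟩
  obtain ⟨f, hf, hfd⟩ := hd
  obtain ⟨P, hP⟩ := exists_SMap hf hfd
  obtain ⟨τ, h1, h2⟩ := A_main (by omega) hP
  have h3 : τ ≤ (N - 1) / (K + 1 - 1) := by
    rw [Nat.le_div_iff_mul_le (by omega), Nat.add_sub_cancel, mul_comm]
    omega
  rw [show K + 1 + s - 1 = K + s by omega] at hs
  exact (h2 s (h3.trans hs)).trans (Nat.mul_le_mul le_rfl h3)

end Pool.Agent.Lib_helper49.Mac
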