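import Pool.Agent.Lib_helper49.Mac.AsmA

/-!
# Assembly: growth in the orthogonal complement
-/

namespace Pool.Agent.Lib_helper49.Mac

open MvPolynomial Pool.Agent.Lib_helper26.Ebe Pool.Agent.Lib_helper26.SOS
open Pool.Agent.Lib_helper49.Dang

variable {n K N d : ℕ} {P : Fin (N + 1) → MvPolynomial (Fin n) ℂ} {a : Fin n → ℂ}
  {u : Fin (K + 1) → Fin n → ℂ}

theorem LL_eq_zero {h ψ : Fin (N + 1) → R (K + 1)} : LL h ψ = 0 ↔ pair ψ h = 0 := by
  rw [LL_apply, map_eq_zero_iff _ (T_injective K)]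

/-- the elements of `V` whose pairing is divisible by `q ^ k` -/
noncomputable def W0 (V : Submodule (R (K + 1)) (Fin (N + 1) → R (K + 1)))
    (h : Fin (N + 1) → R (K + 1)) (k : ℕ) :
    Submodule (R (K + 1)) (Fin (N + 1) → R (K + 1)) where
  carrier := {ψ | ψ ∈ V ∧ q (K + 1) ^ k ∣ pair ψ h}
  add_mem' := fun h1 h2 => ⟨V.add_mem h1.1 h2.1, by
    rw [pair_add_left]; exact dvd_add h1.2 h2.2⟩
  zero_mem' := ⟨V.zero_mem, by rw [pair_zero_left]; exact dvd_zero _⟩
  smul_mem' := fun c _ h1 => ⟨V.smul_mem c h1.1, by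
    rw [pair_smul_left]; exact Dvd.dvd.mul_left h1.2 _⟩

/-- one more derivative -/
noncomputable def Wn (V : Submodule (R (K + 1)) (Fin (N + 1) → R (K + 1))) :
    ℕ → Submodule (R (K + 1)) (Fin (N + 1) → R (K + 1))
  | 0 => V
  | (j + 1) => Wn V j ⊔ Submodule.span (R (K + 1)) {φ | ∃ ψ ∈ Wn V j, ∃ l, φ = dv l ψ}

theorem Wn_le (V : Submodule (R (K + 1)) (Fin (N + 1) → R (K + 1))) (j : ℕ) :
    Wn V j ≤ Wn V (j + 1) := le_sup_left

theorem dv_mem_Wn (V : Submodule (R (K + 1)) (Fin (N + 1) → R (K + 1))) (j : ℕ)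
    (ψ : Fin (N + 1) → R (K + 1)) (hψ : ψ ∈ Wn V j) (l : Fin (K + 1)) :
    dv l ψ ∈ Wn V (j + 1) :=
  Submodule.mem_sup_right (Submodule.subset_span ⟨ψ, hψ, l, rfl⟩)

theorem Wn_orth (V : Submodule (R (K + 1)) (Fin (N + 1) → R (K + 1))) (u0 : Fin (N + 1) → ℂ)
    (hV : Orth0 u0 V) (j : ℕ) : Orth0 u0 (Wn V j) := by
  induction j with
  | zero => exact hV
  | succ j ih =>
    intro ψ hψ
    rw [orth0_iff]
    obtain ⟨ψ1, h1, ψ2, h2, rfl⟩ := Submodule.mem_sup.1 hψ
    have e1 := (orth0_iff u0 ψ1).1 (ih ψ1 h1)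
    have e2 : ∑ i, C (sg i * (starRingEnd ℂ) (u0 i)) * ψ2 i = 0 := by
      clear hψ
      induction h2 using Submodule.span_induction with
      | mem x hx =>
        obtain ⟨ψ', h', l, rfl⟩ := hx
        exact (orth0_iff u0 _).1 (orth0_dv u0 ψ' (ih ψ' h') l)
      | zero => simp
      | add x y _ _ hx hy =>
        simp only [Pi.add_apply, mul_add, Finset.sum_add_distrib]
        rw [hx, hy, add_zero]
      | smul c x _ hx =>
        simp only [Pi.smul_apply, smul_eq_mul]
        have : ∑ i, C (sg i * (starRingEnd ℂ) (u0 i)) * (c * x i) =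
            c * ∑ i, C (sg i * (starRingEnd ℂ) (u0 i)) * x i := by
          rw [Finset.mul_sum]
          exact Finset.sum_congr rfl fun i _ => by ring
        rw [this, hx, mul_zero]
    simp only [Pi.add_apply, mul_add, Finset.sum_add_distrib]
    rw [e1, e2, add_zero]

theorem Wn_dvd (V : Submodule (R (K + 1)) (Fin (N + 1) → R (K + 1)))
    (h : Fin (N + 1) → R (K + 1)) (k : ℕ) (hV : ∀ ψ ∈ V, q (K + 1) ^ k ∣ pair ψ h) (j : ℕ)
    (hj : j ≤ k) (ψ : Fin (N + 1) → R (K + 1)) (hψ : ψ ∈ Wn V j) :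
    q (K + 1) ^ (k - j) ∣ pair ψ h := by
  induction j generalizing ψ with
  | zero => exact hV ψ hψ
  | succ j ih =>
    have e : k - j = (k - (j + 1)) + 1 := by omega
    obtain ⟨ψ1, h1, ψ2, h2, rfl⟩ := Submodule.mem_sup.1 hψ
    rw [pair_add_left]
    refine dvd_add ?_ ?_
    · have := ih (by omega) ψ1 h1
      rw [e] at this
      exact (pow_dvd_pow _ (Nat.le_succ _)).trans this
    · clear hψ
      induction h2 using Submodule.span_induction with
      | mem x hx =>
        obtain ⟨ψ', h', l, rfl⟩ := hx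
        rw [← pderiv_pair]
        have := ih (by omega) ψ' h'
        rw [e] at this
        exact dvd_pred _ _ this _
      | zero => rw [pair_zero_left]; exact dvd_zero _
      | add x y _ _ hx hy => rw [pair_add_left]; exact dvd_add hx hy
      | smul c x _ hx => rw [pair_smul_left]; exact Dvd.dvd.mul_left hx _

/-- The growth of the elements of order at least `k` in the orthogonal complement. -/
theorem growth_E (hK : 1 ≤ K) (hP : SMap n N d P) (ha : OnSphere a)
    (hua : ∀ l, ip (u l) a = 0) (huu : ∀ l l', ip (u l) (u l') = if l = l' then 1 else 0)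
    (h0 : (fun i => eval a (P i)) ≠ 0)
    (BQ : Finset (Fin (K + 1) → ℕ))
    (hBQ : ∀ e, e ∈ BQ ↔ e ∈ low (Vs P d a u 1) (cj (Pa P a u))) (k : ℕ) (hk : 1 ≤ k) (m : ℕ)
    (hm : N - 1 ≤ (K + m).choose m) :
    (k + 1 ≤ m → (BQ.filter fun e => k ≤ e 0).card * (K + m).choose m ≤
      (N - 1) * (K + (m - (k + 1))).choose (m - (k + 1))) ∧
    (m < k + 1 → ∀ e ∈ BQ, e 0 < k) := by
  classical
  set hp : Fin (N + 1) → R (K + 1) := cj (Pa P a u) with hhp
  set u0 : Fin (N + 1) → ℂ := fun i => eval a (P i) with hu0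
  have hM : 2 ≤ K + 1 := by omega
  have horth : Orth0 u0 (Vs P d a u 0) := orth0_Vs hP ha hua
  have hV10 : Vs P d a u 1 ≤ Vs P d a u 0 := Vs_succ_le d a u 0
  have hnull : hf u0 u0 = 0 := hP.null a ha
  set S := BQ.filter (fun e => k ≤ e 0) with hS
  have hex : ∀ c : S, ∃ ψ, ψ ∈ Vs P d a u 1 ∧ IsLow (T K (pair ψ hp)) c.1 := fun c =>
    (hBQ c.1).1 (Finset.mem_filter.1 c.2).1
  choose ψ hψ1 hψl using hex
  have hψk : ∀ c, q (K + 1) ^ k ∣ pair (ψ c) hp := fun c =>
    dvd_of_ord hK k _ fun e he => ((Finset.mem_filter.1 c.2).2).trans (low_fst_le (hψl c) e he)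
  -- the test vector
  set D : ℕ := (∑ c : S, ∑ i, (ψ c i).degreeOf 0) + 1 with hD
  set idx : S → ℕ := fun c => (Fintype.equivFin S c : ℕ) with hidx
  have hidxi : Function.Injective idx := fun c c' hcc =>
    (Fintype.equivFin S).injective (Fin.val_injective hcc)
  set Ψ : Fin (N + 1) → R (K + 1) := ∑ c : S, (X 0 ^ (D * idx c) : R (K + 1)) • cj (ψ c) with hΨ
  have hpΨ : ∀ φ, pair φ Ψ = ∑ c : S, X (Sum.inr 0) ^ (D * idx c) * pair φ (cj (ψ c)) := by
    intro φ
    rw [hΨ, pair_sum_right]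
    refine Finset.sum_congr rfl fun c _ => ?_
    rw [pair_smul_right, map_pow, rename_X]
  have hdeg : ∀ φ c, (pair φ (cj (ψ c))).degreeOf (Sum.inr 0) < D := by
    intro φ c
    rw [hD, Nat.lt_succ_iff]
    refine degreeOf_pair φ _ 0 _ fun i => (degreeOf_cj _ _ _).trans ?_
    calc (ψ c i).degreeOf 0 ≤ ∑ i, (ψ c i).degreeOf 0 :=
          Finset.single_le_sum (f := fun i => (ψ c i).degreeOf 0) (fun _ _ => Nat.zero_le _)
            (Finset.mem_univ i)
      _ ≤ _ := Finset.single_le_sum (f := fun c : S => ∑ i, (ψ c i).degreeOf 0)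
            (fun _ _ => Nat.zero_le _) (Finset.mem_univ c)
  have hsep : ∀ φ, pair φ Ψ = 0 → ∀ c, pair φ (cj (ψ c)) = 0 := by
    intro φ hφ c
    rw [hpΨ] at hφ
    exact kron idx hidxi D (fun c => pair φ (cj (ψ c))) (fun c => hdeg φ c) hφ c
  -- independence
  have hli : LinearIndependent (R (K + 1)) (fun c => LL Ψ (ψ c)) := by
    rw [Fintype.linearIndependent_iff]
    intro p hp0
    set φ : Fin (N + 1) → R (K + 1) := ∑ c, p c • ψ c with hφ
    have e1 : LL Ψ φ = 0 := by
      rw [hφ, map_sum, ← hp0]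
      exact Finset.sum_congr rfl fun c _ => by rw [map_smul]
    have e2 := hsep φ (LL_eq_zero.1 e1)
    have e3 : pair φ (cj φ) = 0 := by
      conv_lhs => rw [hφ, cj_sum, pair_sum_right]
      refine Finset.sum_eq_zero fun c _ => ?_
      rw [cj_smul, pair_smul_right, ← hφ, e2, mul_zero]
    have hφV : φ ∈ Vs P d a u 0 :=
      Submodule.sum_mem _ fun c _ => Submodule.smul_mem _ _ (hV10 (hψ1 c))
    have e4 := pair_Pa_eq_zero hP ha h0 hua huu φ hφV e3
    have e5 : ∑ c, p c • T K (pair (ψ c) hp) = 0 := by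
      have e6 := LL_eq_zero.2 e4
      rw [hφ, map_sum] at e6
      rw [← e6]
      refine Finset.sum_congr rfl fun c _ => ?_
      rw [map_smul, LL_apply]
    have e7 := linearIndependent_of_low (fun c : S => T K (pair (ψ c) hp)) (fun c => c.1)
      Subtype.val_injective hψl
    exact Fintype.linearIndependent_iff.1 e7 p e5
  -- the tower
  set V : Submodule (R (K + 1)) (Fin (N + 1) → R (K + 1)) := W0 (Vs P d a u 1) hp k with hVdef
  have hVorth : Orth0 u0 V := fun φ hφ => horth φ (hV10 hφ.1)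
  have hVdvd : ∀ φ ∈ V, q (K + 1) ^ (k + 1) ∣ pair φ Ψ := by
    intro φ hφ
    rw [hpΨ]
    refine Finset.dvd_sum fun c _ => Dvd.dvd.mul_left ?_ _
    exact dvd_pair_Vs1 hM hP φ k hk hφ.2 (ψ c) (hψ1 c)
  have hΨ0 : pair (cv u0) Ψ = 0 := by
    rw [hpΨ]
    refine Finset.sum_eq_zero fun c _ => ?_
    have : pair (cv u0) (cj (ψ c)) = 0 := by
      refine MvPolynomial.funext fun z => ?_
      have hz : z = Sum.elim (fun i => z (Sum.inl i)) (fun i => z (Sum.inr i)) := by
        funext i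
        rcases i with i | i <;> rfl
      rw [hz, eval_pair_cj, ev_cv, map_zero]
      have := horth (ψ c) (hV10 (hψ1 c)) (fun l => (starRingEnd ℂ) (z (Sum.inr l)))
      rw [← da28_hf_conj, this, map_zero]
    rw [this, mul_zero]
  have hex2 : ∀ j, ∃ B : Finset (Fin (K + 1) → ℕ), B.card ≤ N - 1 ∧
      ∀ e, e ∈ B ↔ e ∈ low (Wn V j) Ψ := fun j =>
    exists_low_set _ _ (N - 1) fun φ hφ =>
      rank_lt_N (Wn V j) Ψ u0 hnull h0 (Wn_orth V u0 hVorth j) hΨ0 (N - 1) (by omega) φ hφ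
  choose B hBc hB using hex2
  set Bt : ℕ → Finset (Fin (K + 1) → ℕ) := fun t => if t ≤ k + 1 then B (k + 1 - t) else ∅
    with hBt
  have hstep : ∀ t, (up Finset.univ (Bt (t + 1))).card ≤ (Bt t).card := by
    intro t
    by_cases ht : t + 1 ≤ k + 1
    · have e1 : Bt (t + 1) = B (k - t) := by
        simp only [hBt, if_pos ht]
        congr 1
        omega
      have e2 : Bt t = B (k - t + 1) := by
        simp only [hBt, if_pos (by omega : t ≤ k + 1)]
        congr 1
        omega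
      rw [e1, e2]
      refine low_step (Wn V (k - t)) (Wn V (k - t + 1)) Ψ (Wn_le V _)
        (fun φ hφ l => dv_mem_Wn V _ φ hφ _) (fun φ hφ => ?_) _ _
        (fun e he => (hB _ e).1 he) (fun e he => (hB _ e).2 he)
      have := Wn_dvd V Ψ (k + 1) hVdvd (k - t) (by omega) φ hφ
      have e3 : k + 1 - (k - t) = t + 1 := by omega
      rw [e3] at this
      exact (dvd_pow_self _ (Nat.succ_ne_zero t)).trans this
    · have e1 : Bt (t + 1) = ∅ := by simp only [hBt, if_neg ht]
      have e2 : up Finset.univ (∅ : Finset (Fin (K + 1) → ℕ)) = ∅ := by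
        ext b
        simp [up]
      rw [e1, e2, Finset.card_empty]
      exact Nat.zero_le _
  have hBt0 : (Bt 0).card ≤ N - 1 := by
    simp only [hBt, Nat.zero_le, if_true]
    exact hBc _
  have hchain := gr_chain (Finset.univ : Finset (Fin (K + 1))) K hK (by simp)
    (gr _ K (by simp)) Bt hstep m (hBt0.trans hm)
  have hBtk : Bt (k + 1) = B 0 := by simp [hBt]
  have hScard : S.card ≤ (B 0).card := by
    have := card_le_low_set (Wn V 0) Ψ ψ (fun c => ⟨hψ1 c, hψk c⟩) hli (B 0)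
      (fun e he => (hB 0 e).2 he)
    rwa [Fintype.card_coe] at this
  refine ⟨fun hkm => ?_, fun hkm e he => ?_⟩
  · have h1 := hchain.1 (k + 1) hkm
    rw [hBtk] at h1
    calc S.card * (K + m).choose m ≤ (B 0).card * (K + m).choose m :=
          Nat.mul_le_mul_right _ hScard
      _ ≤ _ := h1
      _ ≤ _ := Nat.mul_le_mul_right _ hBt0
  · by_contra hc
    have h1 := hchain.2 (k + 1) hkm
    rw [hBtk] at h1
    rw [h1, Finset.card_empty, Nat.le_zero, Finset.card_eq_zero] at hScard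
    have h2 : e ∈ S := Finset.mem_filter.2 ⟨he, not_lt.1 hc⟩
    rw [hScard] at h2
    exact absurd h2 (Finset.notMem_empty e)

end Pool.Agent.Lib_helper49.Mac
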