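import Pool.Agent.Lib_helper49.Mac.AsmQ

/-!
# Assembly: exact values of the maximal degree
-/

namespace Pool.Agent.Lib_helper49.Mac

open MvPolynomial Pool.Agent.Lib_helper26.Ebe Pool.Agent.Lib_helper26.SOS
open Pool.Agent.Lib_helper49.Dang

/-- The frame count without extra vectors. -/
theorem frame_zero {n K N d τ : ℕ} {P : Fin (N + 1) → MvPolynomial (Fin n) ℂ} {a : Fin n → ℂ}
    {u : Fin (K + 1) → Fin n → ℂ} (hK : 1 ≤ K) (hP : SMap n N d P) (ha : OnSphere a)
    (hua : ∀ l, ip (u l) a = 0) (huu : ∀ l l', ip (u l) (u l') = if l = l' then 1 else 0)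
    (Φ : R (K + 1)) (hΦ : Φ ≠ 0)
    (hosc : ∀ ξ, eval ξ Φ ≠ 0 → LinearIndependent ℂ (fun r : Fin (τ + 1) => ev (Fs P a u r) ξ)) :
    (K + 1) * τ + 1 ≤ N := by
  obtain ⟨b, hb1, hb0, hbb⟩ := exists_frame hK Φ hΦ
  have := frame_count hP ha hua huu b hbb hb0 (fun i => hosc _ (hb1 i)) (fun _ => Empty)
    (fun _ e => e.elim) (fun _ e => e.elim) (fun _ _ _ e => e.elim) (fun _ _ _ e => e.elim)
    (fun _ => linearIndependent_empty_type)
  simpa using this

/-- The number of elements of order at least `k`. -/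
theorem growth_card {n K N d : ℕ} {P : Fin (N + 1) → MvPolynomial (Fin n) ℂ} {a : Fin n → ℂ}
    {u : Fin (K + 1) → Fin n → ℂ} (hK : 1 ≤ K) (hP : SMap n N d P) (ha : OnSphere a)
    (hua : ∀ l, ip (u l) a = 0) (huu : ∀ l l', ip (u l) (u l') = if l = l' then 1 else 0)
    (h0 : (fun i => eval a (P i)) ≠ 0)
    (BQ : Finset (Fin (K + 1) → ℕ))
    (hBQ : ∀ e, e ∈ BQ ↔ e ∈ low (Vs P d a u 1) (cj (Pa P a u))) (k : ℕ) (hk : 1 ≤ k) (m : ℕ)
    (hkm : k + 1 ≤ m) (hm : N ≤ (K + m).choose m) :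
    (BQ.filter fun e => k ≤ e 0).card < (K + (m - (k + 1))).choose (m - (k + 1)) := by
  have hpos : 0 < (K + m).choose m := Nat.choose_pos (by omega)
  have hpos' : 0 < (K + (m - (k + 1))).choose (m - (k + 1)) := Nat.choose_pos (by omega)
  have h1 := (growth_E hK hP ha hua huu h0 BQ hBQ k hk m (by omega)).1 hkm
  by_contra hc
  have h2 : (K + (m - (k + 1))).choose (m - (k + 1)) * (K + m).choose m ≤
      (N - 1) * (K + (m - (k + 1))).choose (m - (k + 1)) :=
    (Nat.mul_le_mul_right _ (not_lt.1 hc)).trans h1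
  rw [mul_comm (N - 1)] at h2
  have h3 := Nat.le_of_mul_le_mul_left h2 hpos'
  omega

theorem P_bound {K N d : ℕ} {P : Fin (N + 1) → MvPolynomial (Fin (K + 2)) ℂ} (hK : 1 ≤ K)
    (hP : SMap (K + 2) N d P) (j : ℕ) (hj : 32 * j ≤ K + 2)
    (hN : N ≤ (K + 2 + j + 1).choose (j + 3)) : (K + 1) * d + 1 ≤ N := by
  classical
  obtain ⟨τ, a, u, BQ, Φ, ha, hua, huu, hnz, hBQ, hd, h2, hΦ, hosc⟩ := P_setup hK hP
  rw [show K + 2 + j + 1 = K + (j + 3) by omega] at hN
  have hgr : ∀ k, 1 ≤ k → k ≤ j + 2 → (BQ.filter fun e => k ≤ e 0).card <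
      (K + (j + 3 - (k + 1))).choose (j + 3 - (k + 1)) := fun k hk hkj =>
    growth_card hK hP ha hua huu hnz BQ hBQ k hk (j + 3) (by omega) hN
  have hle : ∀ e ∈ BQ, e 0 < j + 2 := by
    intro e he
    by_contra hc
    have h3 := hgr (j + 2) (by omega) le_rfl
    rw [show j + 3 - (j + 2 + 1) = 0 by omega, Nat.choose_zero_right, Nat.lt_one_iff,
      Finset.card_eq_zero] at h3
    have h4 : e ∈ BQ.filter fun e => j + 2 ≤ e 0 := Finset.mem_filter.2 ⟨he, not_lt.1 hc⟩
    rw [h3] at h4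
    exact absurd h4 (Finset.notMem_empty e)
  rcases Nat.eq_zero_or_pos j with rfl | hj1
  · have hB : BQ = ∅ := by
      rw [Finset.eq_empty_iff_forall_notMem]
      intro e he
      have h3 := h2 e he
      have h4 := hle e he
      omega
    rw [hB, Finset.sum_empty, Nat.add_zero] at hd
    have h3 := frame_zero hK hP ha hua huu Φ hΦ hosc
    exact (Nat.add_le_add_right (Nat.mul_le_mul_left _ hd) 1).trans h3
  · set w : ℕ → ℕ := fun k => (BQ.filter fun e => e 0 = k).card with hw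
    have hsum : ∑ e ∈ BQ, (e 0 - 1) = ∑ k ∈ Finset.Icc 2 (j + 1), (k - 1) * w k := by
      rw [← Finset.sum_fiberwise_of_maps_to (s := BQ) (t := Finset.Icc 2 (j + 1))
        (g := fun e => e 0) (f := fun e => e 0 - 1)
        (fun e he => Finset.mem_Icc.2 ⟨h2 e he, by have := hle e he; omega⟩)]
      refine Finset.sum_congr rfl fun k _ => ?_
      rw [Finset.sum_congr rfl (g := fun _ => k - 1) fun e he => by
        rw [(Finset.mem_filter.1 he).2]]
      rw [Finset.sum_const, smul_eq_mul, mul_comm]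
    have h3 := arith_P (K + 2) j N τ d w hj1 hj (by rw [← hsum]; exact hd)
      (fun k hk hkj => by
        have h4 := hgr k (by omega) (by omega)
        have h5 : w k ≤ (BQ.filter fun e => k ≤ e 0).card :=
          Finset.card_le_card fun e he => by
            rw [Finset.mem_filter] at he ⊢
            exact ⟨he.1, he.2.symm.le⟩
        rw [show K + (j + 3 - (k + 1)) = K + 2 + j - k by omega,
          show j + 3 - (k + 1) = j + 2 - k by omega] at h4
        omega)
      (fun k hk _ r J c hr hrc hwk => by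
        have h4 := P_count hK hP ha hua huu BQ hBQ Φ hΦ hosc k hk r J c hr (by omega) hwk
        exact h4)
    exact h3

/-- The frame count with one coefficient vector for every element and every frame vector. -/
theorem frame_single {n K N d τ : ℕ} {P : Fin (N + 1) → MvPolynomial (Fin n) ℂ} {a : Fin n → ℂ}
    {u : Fin (K + 1) → Fin n → ℂ} (hK : 1 ≤ K) (hP : SMap n N d P) (ha : OnSphere a)
    (hua : ∀ l, ip (u l) a = 0) (huu : ∀ l l', ip (u l) (u l') = if l = l' then 1 else 0)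
    (b : Fin (K + 1) → Fin (K + 1) → ℂ) (hbb : ∀ i j, i ≠ j → ip (b i) (b j) = 0)
    (hb0 : ∀ i, b i ≠ 0)
    (hosc : ∀ i, LinearIndependent ℂ (fun r : Fin (τ + 1) => ev (Fs P a u r) (b i)))
    {S : Type} [Fintype S] (ψ : S → Fin (N + 1) → R (K + 1)) (G : S → A (K + 1)) (k : ℕ)
    (hk : 1 ≤ k) (hψ1 : ∀ c, ψ c ∈ Vs P d a u 1)
    (hG : ∀ c, pair (ψ c) (cj (Pa P a u)) = q (K + 1) ^ k * G c)
    (α : Fin (K + 1) → Fin (K + 1) → ℕ)
    (hα1 : ∀ i, ∑ s, α i s = k) (hα2 : ∀ i, α i i = 0)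
    (hα3 : ∀ i l, i ≠ l → α i l < k)
    (hα4 : ∀ i l, i ≠ l → ∃ ω ω' : Fin (K + 1) → ℕ, 1 ≤ ω l ∧ 1 ≤ ω' i ∧
      (∀ r, 1 ≤ ω r + ω' r) ∧ ∑ r, ω r * α i r + ∑ r, ω' r * α l r < k + 1)
    (hg : ∀ i, LinearIndependent ℂ (fun c => ycoord b i (sl (b i) (G c)))) :
    (K + 1) * τ + (K + 1) * Fintype.card S + 1 ≤ N := by
  classical
  have hind : ∀ i, ∀ ρ : S → ℂ, (∀ j, ρ j ≠ 0) → LinearIndependent ℂ (fun j =>
        C (ρ j) * monomial (Finsupp.equivFunOnFinite.symm (α i)) 1 *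
          ∑ x, C (if x = j then (1 : ℂ) else 0) * ycoord b i (sl (b i) (G x))) := by
    intro i ρ hρ
    rw [Fintype.linearIndependent_iff]
    intro c hc j
    have e1 : ∀ j, ∑ x, C (if x = j then (1 : ℂ) else 0) * ycoord b i (sl (b i) (G x)) =
        ycoord b i (sl (b i) (G j)) := by
      intro j
      rw [Finset.sum_eq_single j]
      · rw [if_pos rfl, C_1, one_mul]
      · intro x _ hx
        rw [if_neg hx, C_0, zero_mul]
      · intro h
        exact absurd (Finset.mem_univ j) h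
    have e3 : (monomial (Finsupp.equivFunOnFinite.symm (α i)) (1 : ℂ)) *
        ∑ x, (c x * ρ x) • ycoord b i (sl (b i) (G x)) = 0 := by
      rw [← hc, Finset.mul_sum]
      refine Finset.sum_congr rfl fun x _ => ?_
      rw [e1, smul_eq_C_mul, smul_eq_C_mul, map_mul]
      ring
    have e4 := (mul_eq_zero.1 e3).resolve_left fun h =>
      one_ne_zero (monomial_eq_zero.1 h)
    have e5 := Fintype.linearIndependent_iff.1 (hg i) _ e4 j
    exact (mul_eq_zero.1 e5).resolve_right (hρ j)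
  have h3 := frame_fam hK hP ha hua huu b hbb hb0 hosc ψ G k hk hψ1 hG (fun _ => S)
    (fun _ j x => if x = j then (1 : ℂ) else 0) (fun i _ => α i) (fun i _ => hα1 i)
    (fun i _ => hα2 i) (fun i l hil _ => hα3 i l hil) (fun i l hil _ _ => hα4 i l hil) hind
  rw [Finset.sum_const, Finset.card_univ, Fintype.card_fin, smul_eq_mul] at h3
  exact h3

theorem P5_bound {K N d : ℕ} {P : Fin (N + 1) → MvPolynomial (Fin (K + 2)) ℂ} (hK : 3 ≤ K)
    (hP : SMap (K + 2) N d P) (hN : N ≤ (K + 4).choose 4) : (K + 1) * d + 1 ≤ N := by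
  classical
  obtain ⟨τ, a, u, BQ, Φ, ha, hua, huu, hnz, hBQ, hd, h2, hΦ, hosc⟩ :=
    P_setup (by omega : 1 ≤ K) hP
  have hle : ∀ e ∈ BQ, e 0 = 2 := by
    intro e he
    by_contra hc
    have h3 := growth_card (by omega) hP ha hua huu hnz BQ hBQ 3 (by omega) 4 (by omega) hN
    rw [show 4 - (3 + 1) = 0 by omega, Nat.choose_zero_right, Nat.lt_one_iff,
      Finset.card_eq_zero] at h3
    have h4 : e ∈ BQ.filter fun e => 3 ≤ e 0 :=
      Finset.mem_filter.2 ⟨he, by have := h2 e he; omega⟩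
    rw [h3] at h4
    exact absurd h4 (Finset.notMem_empty e)
  have hd' : d ≤ τ + BQ.card := by
    refine hd.trans (Nat.add_le_add_left (le_of_eq ?_) _)
    rw [Finset.sum_congr rfl (g := fun _ => 1) fun e he => by rw [hle e he]]
    simp
  have hf2 : (BQ.filter fun e => e 0 = 2) = BQ := Finset.filter_true_of_mem hle
  obtain ⟨ψ, G, b, hb1, hb0, hbb, hψ1, hG, hg⟩ := frame_data (P := P) (a := a) (u := u)
    (by omega) BQ hBQ Φ hΦ 2
  have hne1 : ∀ i : Fin (K + 1), i + 1 ≠ i := by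
    intro i h
    have := congrArg Fin.val h
    rw [Fin.val_add, Fin.val_one'] at this
    have hi := i.isLt
    rw [Nat.mod_eq_of_lt (show 1 < K + 1 by omega)] at this
    rcases Nat.lt_or_ge (i.val + 1) (K + 1) with h1 | h1
    · rw [Nat.mod_eq_of_lt h1] at this
      omega
    · rw [show i.val + 1 = K + 1 by omega, Nat.mod_self] at this
      omega
  have hne2 : ∀ i : Fin (K + 1), i + 2 ≠ i := by
    intro i h
    have h2' : (2 : Fin (K + 1)) = 0 :=
      add_left_cancel (a := i) (b := (2 : Fin (K + 1))) (c := 0) (by rw [h, add_zero])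
    have := congrArg Fin.val h2'
    rw [Fin.val_zero, show ((2 : Fin (K + 1)) : ℕ) = 2 % (K + 1) from rfl,
      Nat.mod_eq_of_lt (by omega)] at this
    omega
  have hne3 : ∀ i : Fin (K + 1), i + 1 ≠ i + 2 := by
    intro i h
    have h1 : (1 : Fin (K + 1)) = 2 := add_left_cancel h
    have := congrArg Fin.val h1
    rw [Fin.val_one', show ((2 : Fin (K + 1)) : ℕ) = 2 % (K + 1) from rfl,
      Nat.mod_eq_of_lt (by omega), Nat.mod_eq_of_lt (by omega)] at this
    omega
  have h3 := frame_single (τ := τ) (by omega) hP ha hua huu b hbb hb0 (fun i => hosc _ (hb1 i))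
    ψ G 2 (by omega) hψ1 hG (fun i => Pi.single (i + 1) 1 + Pi.single (i + 2) 1)
    (fun i => by simp [Finset.sum_add_distrib])
    (fun i => by
      rw [Pi.add_apply, Pi.single_eq_of_ne (hne1 i).symm, Pi.single_eq_of_ne (hne2 i).symm,
        add_zero])
    (fun i l hil => by
      rw [Pi.add_apply, Pi.single_apply, Pi.single_apply]
      have := hne3 i
      split_ifs with h4 h5
      · exact absurd (h4.symm.trans h5) this
      · omega
      · omega
      · omega)
    (fun i l hil => triples hK i l hil) hg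
  rw [Fintype.card_coe, hf2] at h3
  have h4 : (K + 1) * d ≤ (K + 1) * (τ + BQ.card) := Nat.mul_le_mul_left _ hd'
  rw [mul_add] at h4
  omega

/-- from the inequality to the exact value -/
theorem exact_of_le {n N : ℕ} (hn : 2 ≤ n) (hN : 1 ≤ N)
    (h : ∀ d ∈ degrees n N, (n - 1) * d + 1 ≤ N) :
    IsGreatest (degrees n N) ((N - 1) / (n - 1)) := by
  refine ⟨(degree_growth hn hN).1, fun d hd => ?_⟩
  rw [Nat.le_div_iff_mul_le (by omega), mul_comm]
  have := h d hd
  omega

theorem exact_P {n N j : ℕ} (hn : 2 ≤ n) (hN : 1 ≤ N) (hj : 32 * j ≤ n)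
    (h : N ≤ (n + j + 1).choose (j + 3)) : IsGreatest (degrees n N) ((N - 1) / (n - 1)) := by
  rcases Nat.lt_or_ge 2 n with hn3 | hn2
  · refine exact_of_le hn hN fun d hd => ?_
    obtain ⟨K, rfl⟩ : ∃ K, n = K + 2 := ⟨n - 2, by omega⟩
    obtain ⟨f, hf, hfd⟩ := hd
    obtain ⟨P, hP⟩ := exists_SMap hf hfd
    exact P_bound (by omega) hP j hj h
  · have e1 : n = 2 := by omega
    have e2 : j = 0 := by omega
    subst e1
    subst e2
    have e3 : N ≤ 1 := by simpa using h
    exact degree_exact le_rfl hN (by omega)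

theorem exact_P5 {n N : ℕ} (hn : 5 ≤ n) (hN : 1 ≤ N)
    (h : N ≤ (n + 2).choose 4) : IsGreatest (degrees n N) ((N - 1) / (n - 1)) := by
  refine exact_of_le (by omega) hN fun d hd => ?_
  obtain ⟨K, rfl⟩ : ∃ K, n = K + 2 := ⟨n - 2, by omega⟩
  obtain ⟨f, hf, hfd⟩ := hd
  obtain ⟨P, hP⟩ := exists_SMap hf hfd
  exact P5_bound (by omega) hP h

/-- a lower bound for binomial coefficients -/
theorem pow_le_choose' (c : ℕ) (hc : 1 ≤ c) (b : ℕ) : ∀ a, c * b ≤ a → c ^ b ≤ a.choose b := by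
  induction b with
  | zero => intro a _; simp
  | succ b ih =>
    intro a ha
    obtain ⟨a', rfl⟩ : ∃ a', a = a' + 1 := ⟨a - 1, by
      have : 1 ≤ c * (b + 1) := Nat.mul_pos hc (Nat.succ_pos b)
      omega⟩
    have h1 : c * b ≤ a' := by
      rw [mul_add, mul_one] at ha
      omega
    have h2 := ih a' h1
    have h3 := Nat.add_one_mul_choose_eq a' b
    have h4 : (b + 1) * c ^ (b + 1) ≤ (b + 1) * (a' + 1).choose (b + 1) := by
      calc (b + 1) * c ^ (b + 1) = (c * (b + 1)) * c ^ b := by ring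
        _ ≤ (a' + 1) * a'.choose b := Nat.mul_le_mul ha h2
        _ = (b + 1) * (a' + 1).choose (b + 1) := by rw [mul_comm (b + 1)]; exact h3
    exact Nat.le_of_mul_le_mul_left h4 (Nat.succ_pos b)

theorem exact_exp {n N : ℕ} (hn : 2 ≤ n) (hN : 1 ≤ N)
    (h : N ≤ 2 ^ (n / 8)) : IsGreatest (degrees n N) ((N - 1) / (n - 1)) := by
  refine exact_P (j := n / 32) hn hN (Nat.mul_div_le n 32) (h.trans ?_)
  have h32 := Nat.div_add_mod n 32
  have hlt := Nat.mod_lt n (show 0 < 32 by omega)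
  set j := n / 32 with hj
  rcases Nat.lt_or_ge j 3 with hj3 | hj3
  · rcases Nat.eq_zero_or_pos j with h0 | h0
    · rw [h0]
      have h1 : n < 32 := by omega
      have h2 : n / 8 ≤ 3 := by omega
      rcases Nat.lt_or_ge n 8 with h8 | h8
      · rw [Nat.div_eq_of_lt h8, pow_zero]
        exact Nat.choose_pos (by omega)
      · calc 2 ^ (n / 8) ≤ 2 ^ 3 := Nat.pow_le_pow_right (by omega) h2
          _ ≤ (9 : ℕ).choose 3 := by decide
          _ ≤ (n + 0 + 1).choose (0 + 3) := Nat.choose_le_choose 3 (by omega)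
    · calc 2 ^ (n / 8) ≤ 2 ^ (3 * (j + 3)) := Nat.pow_le_pow_right (by omega) (by omega)
        _ = 8 ^ (j + 3) := by rw [pow_mul]; norm_num
        _ ≤ (n + j + 1).choose (j + 3) := pow_le_choose' 8 (by omega) _ _ (by omega)
  · calc 2 ^ (n / 8) ≤ 2 ^ (4 * (j + 3)) := Nat.pow_le_pow_right (by omega) (by omega)
      _ = 16 ^ (j + 3) := by rw [pow_mul]; norm_num
      _ ≤ (n + j + 1).choose (j + 3) := pow_le_choose' 16 (by omega) _ _ (by omega)

end Pool.Agent.Lib_helper49.Mac
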