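import Pool.Agent.Lib_helper49.Mac.AsmE

/-!
# Assembly: the frame argument
-/

namespace Pool.Agent.Lib_helper49.Mac

open MvPolynomial Pool.Agent.Lib_helper26.Ebe Pool.Agent.Lib_helper26.SOS
open Pool.Agent.Lib_helper49.Dang

/-- counting by layers -/
theorem layer_count {ι κ : Type*} [Fintype ι] (m : ι → ℕ) (B : Finset κ) (f : κ → ℕ)
    (h : ∀ i, (Finset.univ.filter fun c => i + 1 ≤ m c).card ≤
      (B.filter fun e => i + 2 ≤ f e).card) :
    ∑ c, m c ≤ ∑ e ∈ B, (f e - 1) := by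
  classical
  set L := ∑ c, m c with hL
  have h1 : ∀ c, m c = ∑ i ∈ Finset.range L, if i + 1 ≤ m c then 1 else 0 := by
    intro c
    have hc : m c ≤ L := Finset.single_le_sum (f := m) (fun _ _ => Nat.zero_le _)
      (Finset.mem_univ c)
    rw [← Finset.sum_filter, Finset.sum_const, smul_eq_mul, mul_one]
    have : Finset.filter (fun i => i + 1 ≤ m c) (Finset.range L) = Finset.range (m c) := by
      ext i
      simp only [Finset.mem_filter, Finset.mem_range]
      omega
    rw [this, Finset.card_range]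
  have h2 : ∀ e, (∑ i ∈ Finset.range L, if i + 2 ≤ f e then 1 else 0) ≤ f e - 1 := by
    intro e
    rw [← Finset.sum_filter, Finset.sum_const, smul_eq_mul, mul_one]
    have : Finset.filter (fun i => i + 2 ≤ f e) (Finset.range L) ⊆ Finset.range (f e - 1) := by
      intro i
      simp only [Finset.mem_filter, Finset.mem_range]
      omega
    exact (Finset.card_le_card this).trans (by rw [Finset.card_range])
  calc L = ∑ c, ∑ i ∈ Finset.range L, (if i + 1 ≤ m c then 1 else 0) :=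
        Finset.sum_congr rfl fun c _ => h1 c
    _ = ∑ i ∈ Finset.range L, ∑ c, (if i + 1 ≤ m c then 1 else 0) := Finset.sum_comm
    _ = ∑ i ∈ Finset.range L, (Finset.univ.filter fun c => i + 1 ≤ m c).card := by
        refine Finset.sum_congr rfl fun i _ => ?_
        rw [Finset.card_filter]
    _ ≤ ∑ i ∈ Finset.range L, (B.filter fun e => i + 2 ≤ f e).card :=
        Finset.sum_le_sum fun i _ => h i
    _ = ∑ i ∈ Finset.range L, ∑ e ∈ B, (if i + 2 ≤ f e then 1 else 0) := by
        refine Finset.sum_congr rfl fun i _ => ?_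
        rw [Finset.card_filter]
    _ = ∑ e ∈ B, ∑ i ∈ Finset.range L, (if i + 2 ≤ f e then 1 else 0) := Finset.sum_comm
    _ ≤ ∑ e ∈ B, (f e - 1) := Finset.sum_le_sum fun e _ => h2 e

theorem P_setup {K N d : ℕ} {P : Fin (N + 1) → MvPolynomial (Fin (K + 2)) ℂ} (hK : 1 ≤ K)
    (hP : SMap (K + 2) N d P) :
    ∃ (τ : ℕ) (a : Fin (K + 2) → ℂ) (u : Fin (K + 1) → Fin (K + 2) → ℂ)
      (BQ : Finset (Fin (K + 1) → ℕ)) (Φ : R (K + 1)),
      OnSphere a ∧ (∀ l, ip (u l) a = 0) ∧
      (∀ l l', ip (u l) (u l') = if l = l' then 1 else 0) ∧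
      (fun i => eval a (P i)) ≠ 0 ∧
      (∀ e, e ∈ BQ ↔ e ∈ low (Vs P d a u 1) (cj (Pa P a u))) ∧
      d ≤ τ + ∑ e ∈ BQ, (e 0 - 1) ∧ (∀ e ∈ BQ, 2 ≤ e 0) ∧ Φ ≠ 0 ∧
      ∀ ξ, eval ξ Φ ≠ 0 → LinearIndependent ℂ (fun r : Fin (τ + 1) => ev (Fs P a u r) ξ) := by
  classical
  obtain ⟨τ, m, g, δ, hg, hm, hδ, hspan, hfin⟩ := adapted hP (by omega)
  obtain ⟨Φ, hΦ0, hΦ⟩ := Pool.Agent.Lib_helper97.Ebe.gen_linearIndependent
    (fun (r : Fin (τ + 1)) (i : Fin (N + 1)) => Fc P r i) (osculation hP.deg_le hfin)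
  obtain ⟨Ψ, hΨ0, hΨ⟩ := gen_cons g δ hδ
    (fun r hr => funext fun i => Fc_eq_zero hP.deg_le hr i) hspan hfin
  obtain ⟨a, x, ha, hx, h⟩ := exists_real (by omega) (Φ * Ψ) (mul_ne_zero hΦ0 hΨ0)
  obtain ⟨u, hua, huu, hux⟩ := exists_basis ha
  obtain ⟨ξ, rfl⟩ := hux x hx
  rw [map_mul] at h
  have hΨx := right_ne_zero_of_mul h
  have hΦx := left_ne_zero_of_mul h
  have hli2 := hΨ _ hΨx
  have hu0v : ∀ x, Fv P a x 0 = fun i => eval a (P i) := by
    intro x
    funext i
    simp only [Fv, Fc_zero, eval_rename]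
    rfl
  have hFv : ∀ (r : ℕ) (ξ : Fin (K + 1) → ℂ), ev (Fs P a u r) ξ = Fv P a (∑ l, ξ l • u l) r := by
    intro r ξ
    funext i
    simp only [ev, Fs, Fv, eval_sp]
  set u0 : Fin (N + 1) → ℂ := fun i => eval a (P i) with hu0
  have hnz : u0 ≠ 0 := by
    have h1 := hli2.ne_zero 0
    have h2 : (fun i => eval (Sum.elim a (∑ l, ξ l • u l)) ((Fin.cons (Fc P 0)
        (fun a => phi (Fc P) d (g a)) : Fin (τ + 1) → Fin (N + 1) → A (K + 2)) 0 i)) =
        Fv P a (∑ l, ξ l • u l) 0 := by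
      funext i
      simp [Fv]
    rw [h2, hu0v] at h1
    exact h1
  have hnull : hf u0 u0 = 0 := hP.null a ha
  have horth : Orth0 u0 (Vs P d a u 0) := orth0_Vs hP ha hua
  have hM : 2 ≤ K + 1 := by omega
  set hp : Fin (N + 1) → R (K + 1) := cj (Pa P a u) with hhp
  obtain ⟨BQ, -, hBQ⟩ := exists_low_set (Vs P d a u 1) hp (N - 1) fun φ hφ =>
    rank_lt_N (Vs P d a u 1) hp u0 hnull hnz
      (fun φ hφ => horth φ (Vs_succ_le d a u 0 hφ)) (pair_cv_Pa hP ha hua) (N - 1) (by omega)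
      φ hφ
  have htower : ∀ i, ∀ ψ ∈ Vs P d a u i, q (K + 1) ^ (i + 1) ∣ pair ψ hp := fun i ψ hψ =>
    dvd_of_tower hM (Vs P d a u) hp (Vs_succ_le d a u) (fun i ψ hψ l => dv_mem_Vs hP a u i ψ hψ l)
      (fun ψ hψ => q_dvd_pair_Pa hM hP ha hua huu ψ hψ) i ψ hψ
  have hlow : ∀ i, ∀ e ∈ low (Vs P d a u i) hp, i + 1 ≤ e 0 := by
    rintro i e ⟨ψ, hψ, hl⟩
    exact ord_of_dvd (i + 1) _ (htower i ψ hψ) _ hl.1
  refine ⟨τ, a, u, BQ, sp a u Φ, ha, hua, huu, hnz, hBQ, ?_, ?_, ?_, ?_⟩
  · have h1 : ∑ c, m c ≤ ∑ e ∈ BQ, (e 0 - 1) := by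
      refine layer_count m BQ (fun e => e 0) fun i => ?_
      have hopt : LinearIndependent ℂ (fun o : Option {c : Fin τ // i + 1 ≤ m c} =>
          o.elim u0 (fun c => ev (fun k => sp a u (phi (Fc P) d (g c) k)) ξ)) := by
        have h1 : Function.Injective (fun o : Option {c : Fin τ // i + 1 ≤ m c} =>
            (o.elim (0 : Fin (τ + 1)) (fun c => Fin.succ c.1))) := by
          intro o o' hoo
          rcases o with _ | c <;> rcases o' with _ | c'
          · rfl
          · simp only [Option.elim] at hoo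
            exact absurd hoo.symm (Fin.succ_ne_zero _)
          · simp only [Option.elim] at hoo
            exact absurd hoo (Fin.succ_ne_zero _)
          · simp only [Option.elim] at hoo
            have := Fin.succ_injective _ hoo
            rw [Subtype.ext this]
        have h2 := hli2.comp _ h1
        convert h2 using 1
        funext o
        rcases o with _ | c
        · have := hu0v (∑ l, ξ l • u l)
          simp only [Option.elim]
          rw [← this]
          funext i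
          simp [Fv]
        · funext i
          simp [ev, eval_sp]
      have h3 := P_indep hP ha hua huu ξ
        (fun (c : {c : Fin τ // i + 1 ≤ m c}) => fun k => sp a u (phi (Fc P) d (g c) k))
        (fun c => Vs_anti d a u (Nat.zero_le _) (phi_mem_Vs d a u _ (g c) (hg c))) hopt
      have h4 := card_le_low_set (Vs P d a u (i + 1)) hp _
        (fun c : {c : Fin τ // i + 1 ≤ m c} => phi_mem_Vs d a _ (i + 1) (g c) (by
          intro t ht k
          exact hg c t (lt_of_lt_of_le ht c.2) k)) h3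
        (BQ.filter fun e => i + 2 ≤ e 0) (fun e he => by
          rw [Finset.mem_filter, hBQ]
          exact ⟨low_mono (Vs_anti d a u (by omega : 1 ≤ i + 1)) hp he, hlow (i + 1) e he⟩)
      rw [Fintype.card_subtype] at h4
      exact h4
    have h2 : ∑ c, (m c + 1) = ∑ c, m c + τ := by
      rw [Finset.sum_add_distrib]
      simp
    omega
  · intro e he
    exact hlow 1 e ((hBQ e).1 he)
  · intro h0
    apply hΦx
    rw [← eval_sp, h0, map_zero]
  · intro ξ' hξ'
    rw [eval_sp] at hξ'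
    have h1 := hΦ _ hξ'
    convert h1 using 1
    funext r
    rw [hFv]
    rfl

end Pool.Agent.Lib_helper49.Mac
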