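import Pool.Agent.Lib_helper49.Mac.AsmP

/-!
# Assembly: counting at a frame
-/

namespace Pool.Agent.Lib_helper49.Mac

open MvPolynomial Pool.Agent.Lib_helper26.Ebe Pool.Agent.Lib_helper26.SOS
open Pool.Agent.Lib_helper49.Dang

variable {n K N d τ : ℕ} {P : Fin (N + 1) → MvPolynomial (Fin n) ℂ} {a : Fin n → ℂ}
  {u : Fin (K + 1) → Fin n → ℂ}

/-- The data at a frame for the elements of `S ⊆ BQ` of order `k`. -/
theorem frame_data (hK : 1 ≤ K) (BQ : Finset (Fin (K + 1) → ℕ))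
    (hBQ : ∀ e, e ∈ BQ ↔ e ∈ low (Vs P d a u 1) (cj (Pa P a u)))
    (Φ : R (K + 1)) (hΦ : Φ ≠ 0) (k : ℕ) :
    ∃ (ψ : (BQ.filter fun e => e 0 = k) → Fin (N + 1) → R (K + 1))
      (G : (BQ.filter fun e => e 0 = k) → A (K + 1))
      (b : Fin (K + 1) → Fin (K + 1) → ℂ),
      (∀ i, eval (b i) Φ ≠ 0) ∧ (∀ i, b i ≠ 0) ∧ (∀ i j, i ≠ j → ip (b i) (b j) = 0) ∧
      (∀ c, ψ c ∈ Vs P d a u 1) ∧ (∀ c, pair (ψ c) (cj (Pa P a u)) = q (K + 1) ^ k * G c) ∧
      ∀ i, LinearIndependent ℂ (fun c => ycoord b i (sl (b i) (G c))) := by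
  classical
  set S := BQ.filter (fun e => e 0 = k) with hS
  have hex : ∀ c : S, ∃ ψ, ψ ∈ Vs P d a u 1 ∧ IsLow (T K (pair ψ (cj (Pa P a u)))) c.1 :=
    fun c => (hBQ c.1).1 (Finset.mem_filter.1 c.2).1
  choose ψ hψ1 hψl using hex
  have hcz : ∀ c : S, c.1 0 = k := fun c => (Finset.mem_filter.1 c.2).2
  have hψk : ∀ c : S, q (K + 1) ^ k ∣ pair (ψ c) (cj (Pa P a u)) := fun c =>
    dvd_of_ord hK k _ fun e he => (hcz c).symm.le.trans (low_fst_le (hψl c) e he)
  choose G hG using hψk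
  obtain ⟨b, hb1, hb0, hbb⟩ := exists_frame hK (Φ * X 0 * ∏ c : S,
    coeff (Finsupp.equivFunOnFinite.symm c.1) (T K (pair (ψ c) (cj (Pa P a u)))))
    (mul_ne_zero (mul_ne_zero hΦ (X_ne_zero _))
      (Finset.prod_ne_zero_iff.2 fun c _ => (hψl c).1))
  have hb1' : ∀ i, eval (b i) Φ ≠ 0 ∧ b i 0 ≠ 0 ∧ ∀ c : S, eval (b i)
      (coeff (Finsupp.equivFunOnFinite.symm c.1) (T K (pair (ψ c) (cj (Pa P a u))))) ≠ 0 := by
    intro i
    have h1 := hb1 i
    rw [map_mul, map_mul, eval_X, map_prod] at h1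
    exact ⟨left_ne_zero_of_mul (left_ne_zero_of_mul h1),
      right_ne_zero_of_mul (left_ne_zero_of_mul h1),
      fun c => Finset.prod_ne_zero_iff.1 (right_ne_zero_of_mul h1) c (Finset.mem_univ c)⟩
  refine ⟨ψ, G, b, fun i => (hb1' i).1, hb0, hbb, hψ1, hG, fun i => ?_⟩
  exact indep_lead b hbb hb0 i (hb1' i).2.1 (fun c => pair (ψ c) (cj (Pa P a u))) G k hG
    (fun c => c.1) Subtype.val_injective hψl hcz (hb1' i).2.2

/-- The frame count for families of combinations of coefficient vectors. -/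
theorem frame_fam (hK : 1 ≤ K) (hP : SMap n N d P) (ha : OnSphere a)
    (hua : ∀ l, ip (u l) a = 0) (huu : ∀ l l', ip (u l) (u l') = if l = l' then 1 else 0)
    (b : Fin (K + 1) → Fin (K + 1) → ℂ) (hbb : ∀ i j, i ≠ j → ip (b i) (b j) = 0)
    (hb0 : ∀ i, b i ≠ 0)
    (hosc : ∀ i, LinearIndependent ℂ (fun r : Fin (τ + 1) => ev (Fs P a u r) (b i)))
    {S : Type} [Fintype S] (ψ : S → Fin (N + 1) → R (K + 1)) (G : S → A (K + 1)) (k : ℕ)
    (hk : 1 ≤ k) (hψ1 : ∀ c, ψ c ∈ Vs P d a u 1)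
    (hG : ∀ c, pair (ψ c) (cj (Pa P a u)) = q (K + 1) ^ k * G c)
    (J : Fin (K + 1) → Type) [∀ i, Fintype (J i)] (cc : ∀ i, J i → S → ℂ)
    (α : ∀ i, J i → Fin (K + 1) → ℕ)
    (hα1 : ∀ i j, ∑ s, α i j s = k) (hα2 : ∀ i j, α i j i = 0)
    (hα3 : ∀ i l, i ≠ l → ∀ j, α i j l < k)
    (hα4 : ∀ i l, i ≠ l → ∀ j j', ∃ ω ω' : Fin (K + 1) → ℕ, 1 ≤ ω l ∧ 1 ≤ ω' i ∧
      (∀ r, 1 ≤ ω r + ω' r) ∧ ∑ r, ω r * α i j r + ∑ r, ω' r * α l j' r < k + 1)
    (hind : ∀ i, ∀ ρ : J i → ℂ, (∀ j, ρ j ≠ 0) → LinearIndependent ℂ (fun j =>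
        C (ρ j) * monomial (Finsupp.equivFunOnFinite.symm (α i j)) 1 *
          ∑ x, C (cc i j x) * ycoord b i (sl (b i) (G x)))) :
    (K + 1) * τ + ∑ i, Fintype.card (J i) + 1 ≤ N := by
  classical
  have hM : 2 ≤ K + 1 := by omega
  have horth : Orth0 (fun i => eval a (P i)) (Vs P d a u 0) := orth0_Vs hP ha hua
  have hV10 : Vs P d a u 1 ≤ Vs P d a u 0 := Vs_succ_le d a u 0
  have hψd : ∀ c, q (K + 1) ^ k ∣ pair (ψ c) (cj (Pa P a u)) := fun c => ⟨G c, hG c⟩
  have h1 : ∀ i (j : J i), hf (∑ c, cc i j c • vc b i (ψ c) (α i j))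
      (fun t => eval a (P t)) = 0 := by
    intro i j
    rw [da18_sum_left]
    refine Finset.sum_eq_zero fun c _ => ?_
    rw [vc_orth_u0 b _ (Vs P d a u 0) horth (ψ c) (hV10 (hψ1 c)), mul_zero]
  have h2 : ∀ i l, i ≠ l → ∀ (j : J i) (s : ℕ), hf (∑ c, cc i j c • vc b i (ψ c) (α i j))
      (ev (Fs P a u s) (b l)) = 0 := by
    intro i l hil j s
    rw [da18_sum_left]
    refine Finset.sum_eq_zero fun c _ => ?_
    rw [vc_orth_Fs hM hP b hbb (ψ c) k (hψd c) i l hil (α i j) (hα3 i l hil j) s, mul_zero]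
  have h3 : ∀ i l, i ≠ l → ∀ (j : J i) (j' : J l),
      hf (∑ c, cc i j c • vc b i (ψ c) (α i j)) (∑ c, cc l j' c • vc b l (ψ c) (α l j')) = 0 := by
    intro i l hil j j'
    obtain ⟨ω, ω', hω1, hω2, hω3, hω4⟩ := hα4 i l hil j j'
    rw [da18_sum_left]
    refine Finset.sum_eq_zero fun c _ => ?_
    rw [da18_sum_right, Finset.sum_eq_zero, mul_zero]
    intro c' _
    rw [vc_orth_vc b hbb (ψ c) (ψ c') (k + 1)
      (dvd_pair_Vs1 hM hP (ψ c) k hk (hψd c) (ψ c') (hψ1 c')) i l hil ω ω' hω1 hω2 hω3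
      (α i j) (α l j') hω4, mul_zero]
  have h4 : ∀ i, LinearIndependent ℂ (fun j : J i =>
      ∑ t, C (sg t * (∑ c, cc i j c • vc b i (ψ c) (α i j)) t) *
        ycoord b i (cj (Pa P a u) t)) := by
    intro i
    have e1 : ∀ (j : J i) c,
        ∑ t, C (sg t * vc b i (ψ c) (α i j) t) * ycoord b i (cj (Pa P a u) t) =
        C (Nat.multinomial Finset.univ (α i j) : ℂ) *
          monomial (Finsupp.equivFunOnFinite.symm (α i j)) 1 *
          ycoord b i (sl (b i) (G c)) := fun j c =>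
      vc_pair b hbb hb0 (ψ c) (cj (Pa P a u)) k (G c) (hG c) i (α i j) (hα1 i j) (hα2 i j)
    have e2 : ∀ j : J i,
        ∑ t, C (sg t * (∑ c, cc i j c • vc b i (ψ c) (α i j)) t) *
          ycoord b i (cj (Pa P a u) t) =
        C (Nat.multinomial Finset.univ (α i j) : ℂ) *
          monomial (Finsupp.equivFunOnFinite.symm (α i j)) 1 *
          ∑ c, C (cc i j c) * ycoord b i (sl (b i) (G c)) := by
      intro j
      have e3 : ∀ t, C (sg t * (∑ c, cc i j c • vc b i (ψ c) (α i j)) t) *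
          ycoord b i (cj (Pa P a u) t) =
          ∑ c, C (cc i j c) * (C (sg t * vc b i (ψ c) (α i j) t) *
            ycoord b i (cj (Pa P a u) t)) := by
        intro t
        rw [Finset.sum_apply, Finset.mul_sum, map_sum, Finset.sum_mul]
        refine Finset.sum_congr rfl fun c _ => ?_
        rw [← mul_assoc, ← map_mul, Pi.smul_apply, smul_eq_mul]
        congr 2
        ring
      rw [Finset.sum_congr rfl fun t _ => e3 t, Finset.sum_comm, Finset.mul_sum]
      refine Finset.sum_congr rfl fun c _ => ?_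
      rw [← Finset.mul_sum, e1]
      ring
    have e4 := hind i (fun j => (Nat.multinomial Finset.univ (α i j) : ℂ)) (fun j => by
      exact_mod_cast (Nat.multinomial_pos _ _).ne')
    convert e4 using 2 with j
    exact e2 j
  exact frame_count hP ha hua huu b hbb hb0 hosc J
    (fun i j => ∑ c, cc i j c • vc b i (ψ c) (α i j)) h1 h2 h3 h4

theorem card_Ioc_fin (K r c : ℕ) (h : r + c ≤ K) :
    (Finset.univ.filter fun s : Fin (K + 1) => r < s.val ∧ s.val ≤ r + c).card = c := by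
  have h1 : (Finset.univ.filter fun s : Fin (K + 1) => r < s.val ∧ s.val ≤ r + c) =
      (Finset.univ : Finset (Fin c)).map ⟨fun t : Fin c => (⟨r + t.val + 1, by omega⟩ :
        Fin (K + 1)), fun t t' h => by
          have := congrArg Fin.val h
          simp only at this
          exact Fin.ext (by omega)⟩ := by
    ext s
    simp only [Finset.mem_filter, Finset.mem_univ, true_and, Finset.mem_map,
      Function.Embedding.coeFn_mk]
    constructor
    · rintro ⟨h1, h2⟩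
      exact ⟨⟨s.val - 1 - r, by omega⟩, Fin.ext (by simp only; omega)⟩
    · rintro ⟨t, rfl⟩
      simp only
      omega
  rw [h1, Finset.card_map, Finset.card_univ, Fintype.card_fin]

theorem P_count (hK : 1 ≤ K) (hP : SMap n N d P) (ha : OnSphere a)
    (hua : ∀ l, ip (u l) a = 0) (huu : ∀ l l', ip (u l) (u l') = if l = l' then 1 else 0)
    (BQ : Finset (Fin (K + 1) → ℕ))
    (hBQ : ∀ e, e ∈ BQ ↔ e ∈ low (Vs P d a u 1) (cj (Pa P a u)))
    (Φ : R (K + 1)) (hΦ : Φ ≠ 0)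
    (hosc : ∀ ξ, eval ξ Φ ≠ 0 → LinearIndependent ℂ (fun r : Fin (τ + 1) => ev (Fs P a u r) ξ))
    (k : ℕ) (hk : 2 ≤ k) (r J c : ℕ) (hr : 3 * J + 4 ≤ r) (hrc : r + c ≤ K)
    (hw : 4 ^ (k - 2) * (BQ.filter fun e => e 0 = k).card ≤ (r - 1 + J).choose J) :
    (K + 1) * τ + c * (4 ^ (k - 1) * (BQ.filter fun e => e 0 = k).card) + 1 ≤ N := by
  classical
  obtain ⟨ψ, G, b, hb1, hb0, hbb, hψ1, hG, hg⟩ := frame_data (P := P) (a := a) (u := u) hK BQ
    hBQ Φ hΦ k
  -- the index sets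
  obtain ⟨Y, hY⟩ : ∃ Y : Finset (Fin (K + 1)), Y =
    Finset.univ.filter (fun s : Fin (K + 1) => 0 < s.val ∧ s.val ≤ 0 + r) := ⟨_, rfl⟩
  have hYc : Y.card = r := by
    rw [hY]
    exact card_Ioc_fin K 0 r (by omega)
  have hl0 : (0 : Fin (K + 1)) ∉ Y := by
    simp [hY]
  obtain ⟨I, hI⟩ : ∃ I : Finset (Fin (K + 1)), I =
    Finset.univ.filter (fun s : Fin (K + 1) => r < s.val ∧ s.val ≤ r + c) := ⟨_, rfl⟩
  have hIc : I.card = c := by
    rw [hI]
    exact card_Ioc_fin K r c hrc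
  have hIY : ∀ i ∈ I, i ∉ Y ∧ i ≠ 0 := by
    intro i hi
    rw [hI, Finset.mem_filter] at hi
    refine ⟨fun h => ?_, fun h => ?_⟩
    · rw [hY, Finset.mem_filter] at h
      omega
    · rw [h] at hi
      simp at hi
  -- the products
  have hth := fun i => theta_family (fun c => ycoord b i (sl (b i) (G c))) (hg i) Y 0 hl0
    (k - 1) J r hYc hr (by
      rw [Fintype.card_coe, show k - 1 - 1 = k - 2 by omega]
      exact hw)
  choose κ hκ cc α hκc hα hind using hth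
  have hαk : ∀ i j, ∑ s, α i j s = k := fun i j => by rw [((hα i j).2).1]; omega
  have hα0 : ∀ i j i', i' ∈ I → α i j i' = 0 := fun i j i' hi =>
    (((hα i j).2).2 i' (hIY i' hi).2).1 (hIY i' hi).1
  have hfc := frame_fam (τ := τ) hK hP ha hua huu b hbb hb0 (fun i => hosc _ (hb1 i)) ψ G k
    (by omega) hψ1 hG (fun i => {x : κ i // i ∈ I}) (fun i j => cc i j.1) (fun i j => α i j.1)
    (fun i j => hαk i j.1) (fun i j => hα0 i j.1 i j.2)
    (fun i l hil j => by
      by_cases hl : l = 0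
      · rw [hl, (hα i j.1).1]
        omega
      · have := (((hα i j.1).2).2 l hl).2
        omega)
    (fun i l hil j j' => by
      refine ⟨fun _ => 1, Pi.single i 1, le_rfl, by simp, fun _ => Nat.le_add_right 1 _, ?_⟩
      simp only [one_mul]
      rw [hαk, Finset.sum_eq_single i]
      · rw [hα0 l j'.1 i j.2]
        omega
      · intro s _ hs
        rw [Pi.single_eq_of_ne hs, zero_mul]
      · intro h
        exact absurd (Finset.mem_univ i) h)
    (fun i ρ hρ => by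
      have h1 := (hind i (fun j => if h : i ∈ I then ρ ⟨j, h⟩ else 1) (fun j => by
        split_ifs with h
        · exact hρ _
        · exact one_ne_zero)).comp
        (fun j : {x : κ i // i ∈ I} => j.1) Subtype.val_injective
      convert h1 using 2 with j
      simp only [Function.comp, dif_pos j.2])
  have hsum : c * (4 ^ (k - 1) * (BQ.filter fun e => e 0 = k).card) ≤
      ∑ i, Fintype.card {x : κ i // i ∈ I} := by
    calc c * (4 ^ (k - 1) * (BQ.filter fun e => e 0 = k).card) =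
          ∑ i ∈ I, 4 ^ (k - 1) * (BQ.filter fun e => e 0 = k).card := by
          rw [Finset.sum_const, hIc, smul_eq_mul]
      _ ≤ ∑ i ∈ I, Fintype.card {x : κ i // i ∈ I} := by
          refine Finset.sum_le_sum fun i hi => ?_
          have h1 := hκc i
          rw [Fintype.card_coe] at h1
          refine h1.trans (le_of_eq ?_)
          exact (Fintype.card_congr (Equiv.subtypeUnivEquiv fun _ => hi)).symm
      _ ≤ ∑ i, Fintype.card {x : κ i // i ∈ I} :=
          Finset.sum_le_sum_of_subset (Finset.subset_univ I)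
  exact le_trans (Nat.add_le_add_right (Nat.add_le_add_left hsum _) 1) hfc

end Pool.Agent.Lib_helper49.Mac
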