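import Pool.Agent.Lib_helper49.Mac.Defs2

/-!
# Block ma34: arithmetic
-/

namespace Pool.Agent.Lib_helper49.Mac

theorem ma34_sum {τ : ℕ} (m : Fin τ → ℕ) (s : ℕ) (h2 : ∀ c, m c ≤ s) :
    ∑ c, (m c + 1) = ∑ r ∈ Finset.range (s + 1), (Finset.univ.filter fun c => r ≤ m c).card := by
  simp only [Finset.card_filter]
  rw [Finset.sum_comm]
  refine Finset.sum_congr rfl fun c _ => ?_
  rw [← Finset.card_filter]
  have : (Finset.range (s + 1)).filter (fun r => r ≤ m c) = Finset.range (m c + 1) := by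
    ext r
    have := h2 c
    simp only [Finset.mem_filter, Finset.mem_range]
    omega
  rw [this, Finset.card_range]

theorem ma34_choose (n : ℕ) (s : ℕ) :
    ∑ r ∈ Finset.range (s + 1), (n + (s - r)).choose (s - r) = (n + 1 + s).choose s := by
  have h := Finset.sum_range_reflect (fun r => (n + r).choose r) (s + 1)
  have h1 : ∑ r ∈ Finset.range (s + 1), (n + (s - r)).choose (s - r) =
      ∑ r ∈ Finset.range (s + 1), (n + (s + 1 - 1 - r)).choose (s + 1 - 1 - r) := by
    simp
  rw [h1, h]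
  clear h h1
  induction s with
  | zero => simp
  | succ s ih =>
    rw [Finset.sum_range_succ, ih]
    have : n + 1 + (s + 1) = (n + 1 + s) + 1 := by ring
    rw [this, Nat.choose_succ_succ]
    congr 2
    ring

theorem arith_A {τ : ℕ} (n : ℕ) (hn : 1 ≤ n) (m : Fin τ → ℕ) (s : ℕ)
    (h1 : ∀ r ≤ s, (Finset.univ.filter fun c => r ≤ m c).card * (n - 1 + s).choose s ≤
      τ * (n - 1 + (s - r)).choose (s - r)) (h2 : ∀ c, m c ≤ s) :
    n * ∑ c, (m c + 1) ≤ (n + s) * τ := by
  obtain ⟨k, rfl⟩ : ∃ k, n = k + 1 := ⟨n - 1, by omega⟩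
  simp only [Nat.add_sub_cancel] at h1
  have h3 : (∑ c, (m c + 1)) * (k + s).choose s ≤ τ * (k + 1 + s).choose s := by
    rw [ma34_sum m s h2, Finset.sum_mul, ← ma34_choose k s, Finset.mul_sum]
    refine Finset.sum_le_sum fun r hr => ?_
    exact h1 r (by rw [Finset.mem_range] at hr; omega)
  have h4 : (k + 1) * (k + 1 + s).choose s = (k + 1 + s) * (k + s).choose s := by
    have h5 := Nat.add_one_mul_choose_eq (k + s) k
    have h6 : (k + s + 1).choose (k + 1) = (k + 1 + s).choose s := by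
      rw [show k + s + 1 = k + 1 + s by ring, Nat.choose_symm_add]
    have h7 : (k + s).choose k = (k + s).choose s := Nat.choose_symm_add
    rw [h6, h7] at h5
    rw [mul_comm, ← h5]
    ring
  have h8 : 0 < (k + s).choose s := Nat.choose_pos (by omega)
  refine le_of_mul_le_mul_right ?_ h8
  calc ((k + 1) * ∑ c, (m c + 1)) * (k + s).choose s
      = (k + 1) * ((∑ c, (m c + 1)) * (k + s).choose s) := by rw [mul_assoc]
    _ ≤ (k + 1) * (τ * (k + 1 + s).choose s) := Nat.mul_le_mul_left _ h3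
    _ = τ * ((k + 1) * (k + 1 + s).choose s) := by ring
    _ = (k + 1 + s) * τ * (k + s).choose s := by rw [h4]; ring

example : type_of% @arith_A := @arith_A

end Pool.Agent.Lib_helper49.Mac
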