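import Pool.Agent.Lib_helper49.Mac.Defs2
import Pool.Agent.Lib_helper49.Mac.B53

namespace Pool.Agent.Lib_helper49.Mac

open MvPolynomial Pool.Agent.Lib_helper26.Ebe Pool.Agent.Lib_helper26.SOS
open Pool.Agent.Lib_helper49.Dang

/-- exponent with the entries `α` on the left and `α'` on the right -/
noncomputable def ma55_e {M : ℕ} (α α' : Fin M → ℕ) : Fin M ⊕ Fin M →₀ ℕ :=
  Finsupp.equivFunOnFinite.symm (Sum.elim α α')

theorem ma55_coeff {M : ℕ} (f g : R M) (α α' : Fin M → ℕ) :
    coeff (ma55_e α α') (rename Sum.inl f * rename Sum.inr g : A M) =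
      coeff (Finsupp.equivFunOnFinite.symm α) f * coeff (Finsupp.equivFunOnFinite.symm α') g := by
  classical
  induction f using MvPolynomial.induction_on' with
  | add f f' hf hf' => rw [map_add, add_mul, coeff_add, hf, hf', coeff_add, add_mul]
  | monomial x c =>
    induction g using MvPolynomial.induction_on' with
    | add g g' hg hg' => rw [map_add, mul_add, coeff_add, hg, hg', coeff_add, mul_add]
    | monomial y c' =>
      rw [rename_monomial, rename_monomial, monomial_mul, coeff_monomial, coeff_monomial,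
        coeff_monomial]
      have h1 : (Finsupp.mapDomain Sum.inl x + Finsupp.mapDomain Sum.inr y :
          Fin M ⊕ Fin M →₀ ℕ) = ma55_e α α' ↔
          x = Finsupp.equivFunOnFinite.symm α ∧ y = Finsupp.equivFunOnFinite.symm α' := by
        have e1 : ∀ i, (Finsupp.mapDomain Sum.inl x + Finsupp.mapDomain Sum.inr y :
            Fin M ⊕ Fin M →₀ ℕ) (Sum.inl i) = x i := by
          intro i
          rw [Finsupp.add_apply, Finsupp.mapDomain_apply Sum.inl_injective,
            Finsupp.mapDomain_notin_range, add_zero]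
          rintro ⟨z, hz⟩
          exact absurd hz (by simp)
        have e2 : ∀ i, (Finsupp.mapDomain Sum.inl x + Finsupp.mapDomain Sum.inr y :
            Fin M ⊕ Fin M →₀ ℕ) (Sum.inr i) = y i := by
          intro i
          rw [Finsupp.add_apply, Finsupp.mapDomain_apply Sum.inr_injective,
            Finsupp.mapDomain_notin_range, zero_add]
          rintro ⟨z, hz⟩
          exact absurd hz (by simp)
        constructor
        · intro h
          constructor
          · ext i
            rw [← e1 i, h]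
            rfl
          · ext i
            rw [← e2 i, h]
            rfl
        · rintro ⟨h, h'⟩
          ext i
          cases i with
          | inl i => rw [e1 i, h]; rfl
          | inr i => rw [e2 i, h']; rfl
      by_cases hx : x = Finsupp.equivFunOnFinite.symm α
      · by_cases hy : y = Finsupp.equivFunOnFinite.symm α'
        · rw [if_pos (h1.2 ⟨hx, hy⟩), if_pos hx, if_pos hy]
        · rw [if_neg (fun h => hy (h1.1 h).2), if_neg hy, mul_zero]
      · rw [if_neg (fun h => hx (h1.1 h).1), if_neg hx, zero_mul]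

/-- the substitution `x = b_i + ∑ ε_r b_r`, `w = conj (b_i' + ∑ δ_s b_s)` -/
noncomputable def ma55_S {M : ℕ} (b : Fin M → Fin M → ℂ) (i i' : Fin M) : A M →ₐ[ℂ] A M :=
  aeval (Sum.elim (fun l => C (b i l) + ∑ r, C (b r l) * X (Sum.inl r))
    (fun l => C ((starRingEnd ℂ) (b i' l)) + ∑ r, C ((starRingEnd ℂ) (b r l)) * X (Sum.inr r)))

theorem ma55_S_inl {M : ℕ} (b : Fin M → Fin M → ℂ) (i i' : Fin M) (p : R M) :
    ma55_S b i i' (rename Sum.inl p) = rename Sum.inl (sft b i p) := by
  induction p using MvPolynomial.induction_on with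
  | C c => rw [rename_C, ma55_S, aeval_C, sft, aeval_C]; simp
  | add p p' hp hp' => rw [map_add, map_add, hp, hp', map_add, map_add]
  | mul_X p l hp =>
    rw [map_mul, map_mul, hp, rename_X, map_mul, map_mul]
    congr 1
    rw [ma55_S, aeval_X, Sum.elim_inl, sft, aeval_X]
    simp

theorem ma55_S_inr {M : ℕ} (b : Fin M → Fin M → ℂ) (i i' : Fin M) (p : R M) :
    ma55_S b i i' (rename Sum.inr (MvPolynomial.map (starRingEnd ℂ) p)) =
      rename Sum.inr (MvPolynomial.map (starRingEnd ℂ) (sft b i' p)) := by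
  induction p using MvPolynomial.induction_on with
  | C c => rw [map_C, rename_C, ma55_S, aeval_C, sft, aeval_C]; simp
  | add p p' hp hp' => simp only [map_add, hp, hp']
  | mul_X p l hp =>
    rw [map_mul, map_mul, map_mul, hp, map_X, rename_X, map_mul, map_mul, map_mul]
    congr 1
    rw [ma55_S, aeval_X, Sum.elim_inr, sft, aeval_X]
    simp

theorem ma55_pair {M N : ℕ} (b : Fin M → Fin M → ℂ) (i i' : Fin M)
    (ψ ψ' : Fin (N + 1) → R M) (α α' : Fin M → ℕ) :
    coeff (ma55_e α α') (ma55_S b i i' (pair ψ (cj ψ'))) =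
      hf (vc b i ψ α) (vc b i' ψ' α') := by
  rw [hf_eq_sum]
  unfold pair
  rw [map_sum, coeff_sum]
  refine Finset.sum_congr rfl fun t _ => ?_
  rw [map_mul, map_mul, ma55_S_inl]
  unfold cj
  rw [ma55_S_inr]
  have h1 : ma55_S b i i' (C (sg t)) = C (sg t) := by
    rw [ma55_S, aeval_C]
    rfl
  rw [h1, mul_assoc, coeff_C_mul, ma55_coeff, coeff_map, mul_assoc]
  rfl

theorem ma55_term {M : ℕ} (b : Fin M → Fin M → ℂ) (i i' l : Fin M) :
    ma55_S b i i' (X (Sum.inl l) * X (Sum.inr l)) =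
      C (b i l * (starRingEnd ℂ) (b i' l)) +
      ∑ s, C (b i l * (starRingEnd ℂ) (b s l)) * X (Sum.inr s) +
      ∑ r, C (b r l * (starRingEnd ℂ) (b i' l)) * X (Sum.inl r) +
      ∑ r, ∑ s, C (b r l * (starRingEnd ℂ) (b s l)) * (X (Sum.inl r) * X (Sum.inr s)) := by
  rw [map_mul, ma55_S, aeval_X, aeval_X, Sum.elim_inl, Sum.elim_inr, add_mul, mul_add, mul_add,
    Finset.mul_sum, Finset.sum_mul, Finset.sum_mul_sum]
  have e1 : ∀ s : Fin M, C (b i l) * (C ((starRingEnd ℂ) (b s l)) * X (Sum.inr s)) =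
      (C (b i l * (starRingEnd ℂ) (b s l)) * X (Sum.inr s) : A M) := by
    intro s
    rw [map_mul]
    ring
  have e2 : ∀ r : Fin M, C (b r l) * X (Sum.inl r) * C ((starRingEnd ℂ) (b i' l)) =
      (C (b r l * (starRingEnd ℂ) (b i' l)) * X (Sum.inl r) : A M) := by
    intro r
    rw [map_mul]
    ring
  have e3 : ∀ r s : Fin M, C (b r l) * X (Sum.inl r) *
      (C ((starRingEnd ℂ) (b s l)) * X (Sum.inr s)) =
      (C (b r l * (starRingEnd ℂ) (b s l)) * (X (Sum.inl r) * X (Sum.inr s)) : A M) := by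
    intro r s
    rw [map_mul]
    ring
  simp only [e1, e2, e3]
  rw [map_mul]
  ring

theorem ma55_q {M : ℕ} (b : Fin M → Fin M → ℂ) (hb : ∀ i j, i ≠ j → ip (b i) (b j) = 0)
    (i i' : Fin M) (hii : i ≠ i') :
    ma55_S b i i' (q M) = C (ip (b i') (b i')) * X (Sum.inl i') +
      C (ip (b i) (b i)) * X (Sum.inr i) +
      ∑ r, C (ip (b r) (b r)) * (X (Sum.inl r) * X (Sum.inr r)) := by
  unfold q
  rw [map_sum]
  simp only [ma55_term, Finset.sum_add_distrib]
  have f1 : ∀ x y : Fin M → ℂ, ∑ l, (C (x l * (starRingEnd ℂ) (y l)) : A M) = C (ip x y) := by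
    intro x y
    unfold ip
    rw [map_sum]
  have g1 : ∑ l, ∑ s, (C (b i l * (starRingEnd ℂ) (b s l)) * X (Sum.inr s) : A M) =
      C (ip (b i) (b i)) * X (Sum.inr i) := by
    rw [Finset.sum_comm]
    simp only [← Finset.sum_mul, f1]
    rw [Finset.sum_eq_single i]
    · intro s _ hs
      rw [hb i s (Ne.symm hs), map_zero, zero_mul]
    · intro h
      exact absurd (Finset.mem_univ i) h
  have g2 : ∑ l, ∑ r, (C (b r l * (starRingEnd ℂ) (b i' l)) * X (Sum.inl r) : A M) =
      C (ip (b i') (b i')) * X (Sum.inl i') := by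
    rw [Finset.sum_comm]
    simp only [← Finset.sum_mul, f1]
    rw [Finset.sum_eq_single i']
    · intro s _ hs
      rw [hb s i' hs, map_zero, zero_mul]
    · intro h
      exact absurd (Finset.mem_univ i') h
  have g3 : ∑ l, ∑ r, ∑ s, (C (b r l * (starRingEnd ℂ) (b s l)) *
      (X (Sum.inl r) * X (Sum.inr s)) : A M) =
      ∑ r, C (ip (b r) (b r)) * (X (Sum.inl r) * X (Sum.inr r)) := by
    rw [Finset.sum_comm]
    refine Finset.sum_congr rfl fun r _ => ?_
    rw [Finset.sum_comm]
    simp only [← Finset.sum_mul, f1]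
    rw [Finset.sum_eq_single r]
    · intro s _ hs
      rw [hb r s (Ne.symm hs), map_zero, zero_mul]
    · intro h
      exact absurd (Finset.mem_univ r) h
  rw [g1, g2, g3, f1, hb i i' hii, map_zero, zero_add]
  ring

theorem ma55_wt {M : ℕ} (b : Fin M → Fin M → ℂ) (hb : ∀ i j, i ≠ j → ip (b i) (b j) = 0)
    (i i' : Fin M) (hii : i ≠ i') (ω ω' : Fin M → ℕ) (h1 : 1 ≤ ω i') (h2 : 1 ≤ ω' i)
    (h3 : ∀ r, 1 ≤ ω r + ω' r) (e : Fin M ⊕ Fin M →₀ ℕ)
    (he : coeff e (ma55_S b i i' (q M)) ≠ 0) : 1 ≤ ∑ x, Sum.elim ω ω' x * e x := by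
  classical
  rw [ma55_q b hb i i' hii, coeff_add, coeff_add] at he
  have key : ∀ x : Fin M ⊕ Fin M, 1 ≤ Sum.elim ω ω' x → 1 ≤ e x →
      1 ≤ ∑ x, Sum.elim ω ω' x * e x := by
    intro x hx hx'
    refine le_trans ?_ (Finset.single_le_sum (f := fun x => Sum.elim ω ω' x * e x)
      (fun _ _ => Nat.zero_le _) (Finset.mem_univ x))
    exact Nat.mul_le_mul hx hx'
  have hX : ∀ (c : ℂ) (x : Fin M ⊕ Fin M), coeff e (C c * X x : A M) ≠ 0 → 1 ≤ e x := by
    intro c x hx
    rw [coeff_C_mul, coeff_X'] at hx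
    have h := right_ne_zero_of_mul hx
    by_cases hxe : Finsupp.single x 1 = e
    · rw [← hxe, Finsupp.single_eq_same]
    · rw [if_neg hxe] at h
      exact absurd rfl h
  by_cases ha : coeff e (C (ip (b i') (b i')) * X (Sum.inl i') : A M) = 0
  · by_cases hc : coeff e (C (ip (b i) (b i)) * X (Sum.inr i) : A M) = 0
    · rw [ha, hc, zero_add, zero_add, coeff_sum] at he
      obtain ⟨r, _, hr⟩ := Finset.exists_ne_zero_of_sum_ne_zero he
      rw [coeff_C_mul] at hr
      have h := right_ne_zero_of_mul hr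
      have h5 : 1 ≤ e (Sum.inl r) ∧ 1 ≤ e (Sum.inr r) := by
        have h6 : (X (Sum.inl r) * X (Sum.inr r) : A M) =
            monomial (Finsupp.single (Sum.inl r) 1 + Finsupp.single (Sum.inr r) 1) 1 := by
          rw [X, X, monomial_mul, one_mul]
        rw [h6, coeff_monomial] at h
        by_cases h7 : (Finsupp.single (Sum.inl r) 1 + Finsupp.single (Sum.inr r) 1 :
            Fin M ⊕ Fin M →₀ ℕ) = e
        · constructor
          · rw [← h7, Finsupp.add_apply, Finsupp.single_eq_same]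
            exact Nat.le_add_right _ _
          · rw [← h7, Finsupp.add_apply, Finsupp.single_eq_same]
            exact Nat.le_add_left _ _
        · rw [if_neg h7] at h
          exact absurd rfl h
      rcases Nat.eq_zero_or_pos (ω r) with h8 | h8
      · have h9 := h3 r
        rw [h8, zero_add] at h9
        exact key (Sum.inr r) h9 h5.2
      · exact key (Sum.inl r) h8 h5.1
    · exact key (Sum.inr i) h2 (hX _ _ hc)
  · exact key (Sum.inl i') h1 (hX _ _ ha)

theorem vc_orth_vc {M N : ℕ} (b : Fin M → Fin M → ℂ)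
    (hb : ∀ i j, i ≠ j → ip (b i) (b j) = 0)
    (ψ ψ' : Fin (N + 1) → R M) (k : ℕ) (h : q M ^ k ∣ pair ψ (cj ψ')) (i i' : Fin M)
    (hii : i ≠ i') (ω ω' : Fin M → ℕ) (h1 : 1 ≤ ω i') (h2 : 1 ≤ ω' i)
    (h3 : ∀ r, 1 ≤ ω r + ω' r) (α α' : Fin M → ℕ)
    (hα : ∑ r, ω r * α r + ∑ r, ω' r * α' r < k) :
    hf (vc b i ψ α) (vc b i' ψ' α') = 0 := by
  by_contra hne
  rw [← ma55_pair] at hne
  obtain ⟨g, hg⟩ := h
  rw [hg, map_mul, map_pow] at hne
  have h4 := weight_pow _ _ (Sum.elim ω ω') (ma55_wt b hb i i' hii ω ω' h1 h2 h3) k _ hne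
  rw [Fintype.sum_sum_type] at h4
  exact absurd h4 (not_le.2 hα)

end Pool.Agent.Lib_helper49.Mac
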