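import Pool.Agent.Lib_helper49.Mac.Defs

/-!
# Bilinearity of the pairing
-/

namespace Pool.Agent.Lib_helper49.Mac

open MvPolynomial Pool.Agent.Lib_helper26.Ebe Pool.Agent.Lib_helper26.SOS
open Pool.Agent.Lib_helper49.Dang

variable {M N : ℕ}

theorem pair_add_left (ψ ψ' h : Fin (N + 1) → R M) :
    pair (ψ + ψ') h = pair ψ h + pair ψ' h := by
  unfold pair
  rw [← Finset.sum_add_distrib]
  refine Finset.sum_congr rfl fun i _ => ?_
  rw [Pi.add_apply, map_add]
  ring

theorem pair_smul_left (c : R M) (ψ h : Fin (N + 1) → R M) :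
    pair (c • ψ) h = rename Sum.inl c * pair ψ h := by
  unfold pair
  rw [Finset.mul_sum]
  refine Finset.sum_congr rfl fun i _ => ?_
  rw [Pi.smul_apply, smul_eq_mul, map_mul]
  ring

theorem pair_zero_left (h : Fin (N + 1) → R M) : pair (0 : Fin (N + 1) → R M) h = 0 := by
  unfold pair
  simp

theorem pair_sum_left {ι : Type*} (s : Finset ι) (ψ : ι → Fin (N + 1) → R M)
    (h : Fin (N + 1) → R M) : pair (∑ c ∈ s, ψ c) h = ∑ c ∈ s, pair (ψ c) h := by
  classical
  induction s using Finset.induction_on with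
  | empty => simp [pair_zero_left]
  | insert a s ha ih => rw [Finset.sum_insert ha, Finset.sum_insert ha, pair_add_left, ih]

theorem pair_add_right (ψ h h' : Fin (N + 1) → R M) :
    pair ψ (h + h') = pair ψ h + pair ψ h' := by
  unfold pair
  rw [← Finset.sum_add_distrib]
  refine Finset.sum_congr rfl fun i _ => ?_
  rw [Pi.add_apply, map_add]
  ring

theorem pair_smul_right (c : R M) (ψ h : Fin (N + 1) → R M) :
    pair ψ (c • h) = rename Sum.inr c * pair ψ h := by
  unfold pair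
  rw [Finset.mul_sum]
  refine Finset.sum_congr rfl fun i _ => ?_
  rw [Pi.smul_apply, smul_eq_mul, map_mul]
  ring

theorem pair_zero_right (ψ : Fin (N + 1) → R M) : pair ψ (0 : Fin (N + 1) → R M) = 0 := by
  unfold pair
  simp

theorem pair_sum_right {ι : Type*} (s : Finset ι) (h : ι → Fin (N + 1) → R M)
    (ψ : Fin (N + 1) → R M) : pair ψ (∑ c ∈ s, h c) = ∑ c ∈ s, pair ψ (h c) := by
  classical
  induction s using Finset.induction_on with
  | empty => simp [pair_zero_right]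
  | insert a s ha ih => rw [Finset.sum_insert ha, Finset.sum_insert ha, pair_add_right, ih]

theorem cj_add (ψ ψ' : Fin (N + 1) → R M) : cj (ψ + ψ') = cj ψ + cj ψ' := by
  funext i
  simp [cj]

theorem cj_zero : cj (0 : Fin (N + 1) → R M) = 0 := by
  funext i
  simp [cj]

theorem cj_smul (c : R M) (ψ : Fin (N + 1) → R M) :
    cj (c • ψ) = MvPolynomial.map (starRingEnd ℂ) c • cj ψ := by
  funext i
  simp [cj]

theorem cj_sum {ι : Type*} (s : Finset ι) (ψ : ι → Fin (N + 1) → R M) :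
    cj (∑ c ∈ s, ψ c) = ∑ c ∈ s, cj (ψ c) := by
  classical
  induction s using Finset.induction_on with
  | empty => simp [cj_zero]
  | insert a s ha ih => rw [Finset.sum_insert ha, Finset.sum_insert ha, cj_add, ih]

theorem cj_cj (ψ : Fin (N + 1) → R M) : cj (cj ψ) = ψ := by
  funext i
  simp only [cj]
  rw [MvPolynomial.map_map]
  have : (starRingEnd ℂ).comp (starRingEnd ℂ) = RingHom.id ℂ := by
    ext z
    simp
  rw [this, MvPolynomial.map_id]

theorem dv_add (l : Fin M) (ψ ψ' : Fin (N + 1) → R M) : dv l (ψ + ψ') = dv l ψ + dv l ψ' := by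
  funext i
  simp [dv]

theorem dv_zero (l : Fin M) : dv l (0 : Fin (N + 1) → R M) = 0 := by
  funext i
  simp [dv]

theorem dv_smul (l : Fin M) (c : R M) (ψ : Fin (N + 1) → R M) :
    dv l (c • ψ) = c • dv l ψ + pderiv l c • ψ := by
  funext i
  simp only [dv, Pi.smul_apply, Pi.add_apply, smul_eq_mul, Derivation.leibniz]
  ring

theorem ev_add (ψ ψ' : Fin (N + 1) → R M) (ξ : Fin M → ℂ) :
    ev (ψ + ψ') ξ = ev ψ ξ + ev ψ' ξ := by
  funext i
  simp [ev]

theorem ev_smul (c : R M) (ψ : Fin (N + 1) → R M) (ξ : Fin M → ℂ) :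
    ev (c • ψ) ξ = eval ξ c • ev ψ ξ := by
  funext i
  simp [ev]

theorem ev_zero (ξ : Fin M → ℂ) : ev (0 : Fin (N + 1) → R M) ξ = 0 := by
  funext i
  simp [ev]

theorem ev_cv (v : Fin (N + 1) → ℂ) (ξ : Fin M → ℂ) : ev (cv v : Fin (N + 1) → R M) ξ = v := by
  funext i
  simp [ev, cv]

theorem hf_eq_sum (u v : Fin (N + 1) → ℂ) : hf u v = ∑ i, sg i * u i * (starRingEnd ℂ) (v i) := by
  rw [Fin.sum_univ_succ]
  simp only [sg, if_true, Fin.succ_ne_zero, if_false, hf, one_mul, neg_mul]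
  rw [sub_eq_neg_add]

/-- the module version of the orthogonality to a constant vector -/
theorem orth0_iff (u : Fin (N + 1) → ℂ) (ψ : Fin (N + 1) → R M) :
    (∀ ξ : Fin M → ℂ, hf (ev ψ ξ) u = 0) ↔
      ∑ i, C (sg i * (starRingEnd ℂ) (u i)) * ψ i = 0 := by
  have h : ∀ ξ : Fin M → ℂ, eval ξ (∑ i, C (sg i * (starRingEnd ℂ) (u i)) * ψ i) =
      hf (ev ψ ξ) u := by
    intro ξ
    rw [hf_eq_sum, map_sum]
    refine Finset.sum_congr rfl fun i _ => ?_
    simp only [map_mul, eval_C, ev]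
    ring
  constructor
  · intro h1
    refine MvPolynomial.funext fun ξ => ?_
    rw [h, h1, map_zero]
  · intro h1 ξ
    rw [← h, h1, map_zero]

theorem orth0_dv (u : Fin (N + 1) → ℂ) (ψ : Fin (N + 1) → R M)
    (h : ∀ ξ : Fin M → ℂ, hf (ev ψ ξ) u = 0) (l : Fin M) (ξ : Fin M → ℂ) :
    hf (ev (dv l ψ) ξ) u = 0 := by
  have h1 := (orth0_iff u ψ).1 h
  refine (orth0_iff u (dv l ψ)).2 ?_ ξ
  have h2 := congrArg (pderiv l) h1
  rw [map_zero, map_sum] at h2
  rw [← h2]
  refine Finset.sum_congr rfl fun i _ => ?_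
  rw [Derivation.leibniz, pderiv_C]
  simp [dv]

end Pool.Agent.Lib_helper49.Mac
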