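import Pool.Agent.Lib_helper49.Dang.GAsm

/-!
# D'Angelo's degree problem, second part: definitions used in the proofs
-/

namespace Pool.Agent.Lib_helper49.Mac

open MvPolynomial Pool.Agent.Lib_helper26.Ebe Pool.Agent.Lib_helper26.SOS
open Pool.Agent.Lib_helper49.Dang

/-- The set `{b + e_l : b ∈ B, l ∈ X}`. -/
def up {σ : Type*} [Fintype σ] [DecidableEq σ] (X : Finset σ) (B : Finset (σ → ℕ)) :
    Finset (σ → ℕ) :=
  X.biUnion fun l => B.image fun b => b + Pi.single l 1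

/-- Macaulay's growth inequality in ratio form for the variables `X`. -/
def Gr {σ : Type*} [Fintype σ] [DecidableEq σ] (X : Finset σ) (k : ℕ) : Prop :=
  ∀ (j : ℕ) (B : Finset (σ → ℕ)), B.card ≤ (k + j).choose j →
    (j + 1 + k) * B.card ≤ (j + 1) * (up X B).card

/-- Polynomials in `x` (also used for polynomials in `w`). -/
abbrev R (M : ℕ) := MvPolynomial (Fin M) ℂ

/-- The substitution `x_l ↦ x_l`, `w_0 ↦ z - ∑ x_l w_l`, `w_l ↦ x_0 w_l`; the values are
polynomials in `z` (variable `0`) and `w_l` (variable `l ≠ 0`) over the ring of polynomials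
in `x`. -/
noncomputable def T (K : ℕ) : A (K + 1) →ₐ[ℂ] MvPolynomial (Fin (K + 1)) (R (K + 1)) :=
  aeval (Sum.elim (fun l => C (X l))
    (fun l => Fin.cases (X 0 - ∑ j : Fin K, C (X j.succ) * X j.succ)
      (fun j => C (X 0) * X j.succ) l))

/-- `e` is the lowest exponent of `f` in the lexicographic order (variable `0` counts first). -/
def IsLow {S : Type*} [CommSemiring S] {M : ℕ} (f : MvPolynomial (Fin M) S) (e : Fin M → ℕ) :
    Prop :=
  coeff (Finsupp.equivFunOnFinite.symm e) f ≠ 0 ∧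
    ∀ e' : Fin M →₀ ℕ, coeff e' f ≠ 0 → toLex e ≤ toLex (⇑e')

/-- The Hermitian pairing (signs `sg`) of a vector of polynomials in `x` with a vector of
polynomials in `w`. -/
noncomputable def pair {M N : ℕ} (ψ h : Fin (N + 1) → R M) : A M :=
  ∑ i, C (sg i) * rename Sum.inl (ψ i) * rename Sum.inr (h i)

/-- `ψ ↦ T (pair ψ h)`, linear over the polynomials in `x`. -/
noncomputable def LL {K N : ℕ} (h : Fin (N + 1) → R (K + 1)) :
    (Fin (N + 1) → R (K + 1)) →ₗ[R (K + 1)] MvPolynomial (Fin (K + 1)) (R (K + 1)) :=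
  ∑ i, (LinearMap.toSpanSingleton (R (K + 1)) (MvPolynomial (Fin (K + 1)) (R (K + 1)))
    (T K (C (sg i) * rename Sum.inr (h i)))) ∘ₗ (LinearMap.proj i)

/-- The lowest exponents of the polynomials `T (pair ψ h)`, `ψ ∈ V`. -/
def low {K N : ℕ} (V : Submodule (R (K + 1)) (Fin (N + 1) → R (K + 1)))
    (h : Fin (N + 1) → R (K + 1)) : Set (Fin (K + 1) → ℕ) :=
  {e | ∃ ψ ∈ V, IsLow (T K (pair ψ h)) e}

/-- Partial derivative of a vector of polynomials. -/
noncomputable def dv {M N : ℕ} (l : Fin M) (ψ : Fin (N + 1) → R M) : Fin (N + 1) → R M :=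
  fun i => pderiv l (ψ i)

/-- Conjugate coefficients. -/
noncomputable def cj {M N : ℕ} (ψ : Fin (N + 1) → R M) : Fin (N + 1) → R M :=
  fun i => MvPolynomial.map (starRingEnd ℂ) (ψ i)

/-- Values of a vector of polynomials. -/
noncomputable def ev {M N : ℕ} (ψ : Fin (N + 1) → R M) (ξ : Fin M → ℂ) : Fin (N + 1) → ℂ :=
  fun i => eval ξ (ψ i)

/-- A constant vector. -/
noncomputable def cv {M N : ℕ} (v : Fin (N + 1) → ℂ) : Fin (N + 1) → R M := fun i => C (v i)

/-- `f(a, x) ↦ f(a₀, ∑_l ξ_l B_l)`. -/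
noncomputable def sp {n M : ℕ} (a : Fin n → ℂ) (B : Fin M → Fin n → ℂ) : A n →ₐ[ℂ] R M :=
  aeval (Sum.elim (fun j => C (a j)) (fun j => ∑ l, C (B l j) * X l))

/-- The vectors `φ(g) + c F_0` with `g` a sequence of level `i`. -/
def Ls {n N : ℕ} (P : Fin (N + 1) → MvPolynomial (Fin n) ℂ) (d i : ℕ) :
    Set (Fin (N + 1) → A n) :=
  {ψ | ∃ g ∈ Lset (Fc P) d i, ∃ c : A n, ψ = fun k => phi (Fc P) d g k + c * Fc P 0 k}

/-- Their specializations at `a`, as a module over the polynomials in `ξ`. -/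
noncomputable def Vs {n N M : ℕ} (P : Fin (N + 1) → MvPolynomial (Fin n) ℂ) (d : ℕ) (a : Fin n → ℂ)
    (B : Fin M → Fin n → ℂ) (i : ℕ) : Submodule (R M) (Fin (N + 1) → R M) :=
  Submodule.span (R M) ((fun ψ k => sp a B (ψ k)) '' Ls P d i)

/-- The specialized Taylor coefficient `F_r`. -/
noncomputable def Fs {n N M : ℕ} (P : Fin (N + 1) → MvPolynomial (Fin n) ℂ) (a : Fin n → ℂ)
    (B : Fin M → Fin n → ℂ) (r : ℕ) : Fin (N + 1) → R M := fun i => sp a B (Fc P r i)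

/-- `ξ ↦ P(a + ∑_l ξ_l B_l)`. -/
noncomputable def Pa {n N M : ℕ} (P : Fin (N + 1) → MvPolynomial (Fin n) ℂ) (a : Fin n → ℂ)
    (B : Fin M → Fin n → ℂ) : Fin (N + 1) → R M :=
  fun i => aeval (fun j => C (a j) + ∑ l, C (B l j) * X l) (P i)

/-- `ψ(b_i + ∑_r ε_r b_r)` as a polynomial in `ε`. -/
noncomputable def sft {M : ℕ} (b : Fin M → Fin M → ℂ) (i : Fin M) : R M →ₐ[ℂ] R M :=
  aeval fun l => C (b i l) + ∑ r, C (b r l) * X r

/-- The coefficient of `ε^α` in `ψ(b_i + ∑_r ε_r b_r)`. -/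
noncomputable def vc {M N : ℕ} (b : Fin M → Fin M → ℂ) (i : Fin M) (ψ : Fin (N + 1) → R M)
    (α : Fin M → ℕ) : Fin (N + 1) → ℂ :=
  fun j => coeff (Finsupp.equivFunOnFinite.symm α) (sft b i (ψ j))

/-- The point `∑_{r ≠ i} y_r conj(b_r) / |b_r|²`, in coordinates `y`. -/
noncomputable def ycoord {M : ℕ} (b : Fin M → Fin M → ℂ) (i : Fin M) : R M →ₐ[ℂ] R M :=
  aeval fun l => ∑ r ∈ Finset.univ.erase i,
    C ((starRingEnd ℂ) (b r l) / (ip (b r) (b r))) * X r

/-- The set of vectors orthogonal to `u` for all parameters. -/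
def Orth0 {M N : ℕ} (u : Fin (N + 1) → ℂ) (V : Submodule (R M) (Fin (N + 1) → R M)) : Prop :=
  ∀ ψ ∈ V, ∀ ξ : Fin M → ℂ, hf (ev ψ ξ) u = 0

end Pool.Agent.Lib_helper49.Mac
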