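import Pool.Agent.Lib_helper49.Mac.Basic

/-!
# Further definitions
-/

namespace Pool.Agent.Lib_helper49.Mac

/-- The slice `b_x = t`, moved to `b_x = 0`. -/
def slice {σ : Type*} [Fintype σ] [DecidableEq σ] (x : σ) (B : Finset (σ → ℕ)) (t : ℕ) :
    Finset (σ → ℕ) :=
  (B.filter fun b => b x = t).image fun b => Function.update b x 0

/-- The standard basis. -/
def idB (n : ℕ) : Fin n → Fin n → ℂ := fun l => Pi.single l 1

end Pool.Agent.Lib_helper49.Mac
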